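import Mathlib

/-!
The valuation rings of a simple transcendental extension `K = F(g)` that contain `F` and in whose
maximal ideal `g` lies.
-/

namespace Pool.Agent.TH142.Recip

open Polynomial

variable {K : Type} [Field K] (F : Subfield K) (g : K)

/-- `K` is generated as a field by `F` and `g`. -/
def Gen : Prop := ∀ y : K, ∃ P Q : Polynomial F, aeval g Q ≠ 0 ∧ y = aeval g P / aeval g Q

/-- `O` contains `F`, and `g` lies in the maximal ideal of `O`. -/
structure Cent (O : ValuationSubring K) : Prop where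
  mem : ∀ x ∈ F, x ∈ O
  lt : O.valuation g < 1

variable {F g}

lemma Cent.aeval_mem {O : ValuationSubring K} (h : Cent F g O) (P : Polynomial F) :
    aeval g P ∈ O := by
  have hg : g ∈ O := (O.valuation_le_one_iff g).mp h.lt.le
  rw [aeval_eq_sum_range]
  refine O.toSubring.sum_mem fun i _ => ?_
  rw [Algebra.smul_def]
  exact O.mul_mem _ _ (h.mem _ (P.coeff i).2) (O.toSubring.pow_mem hg i)

lemma Cent.val_eq_one {O : ValuationSubring K} (h : Cent F g O) {a : K} (ha : a ∈ F)
    (h0 : a ≠ 0) : O.valuation a = 1 := by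
  have h1 : O.valuation a ≤ 1 := (O.valuation_le_one_iff a).mpr (h.mem a ha)
  have h2 : O.valuation a⁻¹ ≤ 1 := (O.valuation_le_one_iff _).mpr (h.mem _ (F.inv_mem ha))
  rw [map_inv₀] at h2
  have h3 : O.valuation a ≠ 0 := by
    rwa [Ne, map_eq_zero]
  refine le_antisymm h1 ?_
  rwa [inv_le_one₀ (zero_lt_iff.mpr h3)] at h2

lemma poly_form (hg0 : g ≠ 0) (n : ℕ) : ∀ P : Polynomial F, P.natDegree ≤ n → P ≠ 0 →
    ∃ (m : ℕ) (a : K), a ∈ F ∧ a ≠ 0 ∧ ∀ O : ValuationSubring K, Cent F g O →
      O.valuation (aeval g P / g ^ m - a) < 1 := by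
  induction n with
  | zero =>
    intro P hP hP0
    obtain ⟨a, rfl⟩ : ∃ a, P = C a := ⟨P.coeff 0, eq_C_of_natDegree_le_zero hP⟩
    refine ⟨0, a, a.2, ?_, fun O _ => ?_⟩
    · intro h
      apply hP0
      rw [show a = 0 from Subtype.ext h, C_0]
    · simp [Algebra.algebraMap_eq_smul_one, Subfield.smul_def]
  | succ n ih =>
    intro P hP hP0
    by_cases h0 : P.coeff 0 = 0
    · have h1 : P = P.divX * X := by
        conv_lhs => rw [← divX_mul_X_add P]
        rw [h0, C_0, add_zero]
      have h2 : P.divX ≠ 0 := by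
        intro h
        rw [h, zero_mul] at h1
        exact hP0 h1
      obtain ⟨m, a, ha, ha0, H⟩ := ih P.divX (by
        rw [natDegree_divX_eq_natDegree_tsub_one]; omega) h2
      refine ⟨m + 1, a, ha, ha0, fun O hO => ?_⟩
      have h3 : aeval g P / g ^ (m + 1) = aeval g P.divX / g ^ m := by
        conv_lhs => rw [h1]
        rw [map_mul, aeval_X, pow_succ]
        field_simp
      rw [h3]
      exact H O hO
    · refine ⟨0, P.coeff 0, (P.coeff 0).2, fun h => h0 (Subtype.ext h), fun O hO => ?_⟩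
      have h1 : aeval g P / g ^ 0 - (P.coeff 0 : K) = aeval g P.divX * g := by
        conv_lhs => rw [← divX_mul_X_add P]
        simp [Algebra.algebraMap_eq_smul_one, Subfield.smul_def]
      rw [h1, map_mul]
      have h2 : O.valuation (aeval g P.divX) ≤ 1 :=
        (O.valuation_le_one_iff _).mpr (hO.aeval_mem _)
      exact (mul_le_of_le_one_left' h2).trans_lt hO.lt

/-- Every nonzero element of `K` is a power of `g` times a unit with residue in `F`. -/
lemma exists_form (hg0 : g ≠ 0) (hK : Gen F g) {y : K} (hy : y ≠ 0) :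
    ∃ (n : ℤ) (a : K), a ∈ F ∧ a ≠ 0 ∧ ∀ O : ValuationSubring K, Cent F g O →
      O.valuation (y / g ^ n - a) < 1 := by
  obtain ⟨P, Q, hQ, rfl⟩ := hK y
  have hP : aeval g P ≠ 0 := by
    intro h
    rw [h, zero_div] at hy
    exact hy rfl
  have hP0 : P ≠ 0 := by rintro rfl; simp at hP
  have hQ0 : Q ≠ 0 := by rintro rfl; simp at hQ
  obtain ⟨m, a, ha, ha0, HP⟩ := poly_form hg0 _ P le_rfl hP0
  obtain ⟨m', b, hb, hb0, HQ⟩ := poly_form hg0 _ Q le_rfl hQ0
  refine ⟨(m : ℤ) - m', a / b, F.div_mem ha hb, div_ne_zero ha0 hb0, fun O hO => ?_⟩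
  set p := aeval g P / g ^ m with hp
  set q := aeval g Q / g ^ m' with hq
  have hq0 : q ≠ 0 := div_ne_zero hQ (pow_ne_zero _ hg0)
  have h1 : aeval g P / aeval g Q / g ^ ((m : ℤ) - m') = p / q := by
    rw [hp, hq, zpow_sub₀ hg0, zpow_natCast, zpow_natCast]
    have := pow_ne_zero m hg0
    have := pow_ne_zero m' hg0
    field_simp
  have h2 : p / q - a / b = ((p - a) * b - a * (q - b)) / (q * b) := by
    field_simp
    ring
  have hvb : O.valuation b = 1 := hO.val_eq_one hb hb0
  have hva : O.valuation a = 1 := hO.val_eq_one ha ha0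
  have hvq : O.valuation q = 1 := by
    have h3 : q = b + (q - b) := by ring
    rw [h3]
    rw [Valuation.map_add_eq_of_lt_left]
    · exact hvb
    · rw [hvb]; exact HQ O hO
  rw [h1, h2, map_div₀, map_mul, hvq, hvb, mul_one, div_one]
  refine lt_of_le_of_lt (Valuation.map_sub _ _ _) (max_lt ?_ ?_)
  · rw [map_mul, hvb, mul_one]; exact HP O hO
  · rw [map_mul, hva, one_mul]; exact HQ O hO

lemma val_form {O : ValuationSubring K} (hO : Cent F g O) {y : K} {n : ℤ} {a : K}
    (hg0 : g ≠ 0) (ha : a ∈ F) (ha0 : a ≠ 0) (h : O.valuation (y / g ^ n - a) < 1) :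
    O.valuation y = O.valuation g ^ n := by
  have h1 : O.valuation (y / g ^ n) = 1 := by
    have h3 : y / g ^ n = a + (y / g ^ n - a) := by ring
    rw [h3, Valuation.map_add_eq_of_lt_left]
    · exact hO.val_eq_one ha ha0
    · rw [hO.val_eq_one ha ha0]; exact h
  rw [map_div₀, map_zpow₀] at h1
  rwa [div_eq_one_iff_eq] at h1
  exact zpow_ne_zero _ ((_root_.map_ne_zero _).mpr hg0)

/-- There is at most one such valuation ring. -/
lemma Cent.unique (hg0 : g ≠ 0) (hK : Gen F g) {O O' : ValuationSubring K} (hO : Cent F g O)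
    (hO' : Cent F g O') : O = O' := by
  have key : ∀ (A : ValuationSubring K), Cent F g A → ∀ (n : ℤ),
      A.valuation g ^ n ≤ 1 ↔ 0 ≤ n := by
    intro A hA n
    have hpos : 0 < A.valuation g := zero_lt_iff.mpr ((_root_.map_ne_zero _).mpr hg0)
    constructor
    · intro h
      by_contra hn
      push Not at hn
      have : 1 < A.valuation g ^ n := one_lt_zpow_of_neg₀ hpos hA.lt hn
      exact absurd h (not_le.mpr this)
    · intro hn
      obtain ⟨m, rfl⟩ := Int.eq_ofNat_of_zero_le hn
      rw [zpow_natCast]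
      exact pow_le_one' hA.lt.le m
  ext y
  by_cases hy : y = 0
  · subst hy
    exact ⟨fun _ => O'.zero_mem, fun _ => O.zero_mem⟩
  obtain ⟨n, a, ha, ha0, H⟩ := exists_form hg0 hK hy
  rw [← O.valuation_le_one_iff, ← O'.valuation_le_one_iff, val_form hO hg0 ha ha0 (H O hO),
    val_form hO' hg0 ha ha0 (H O' hO'), key O hO, key O' hO']

/-- The maximal ideal is generated by `g`. -/
lemma Cent.le_of_lt_one (hg0 : g ≠ 0) (hK : Gen F g) {O : ValuationSubring K} (hO : Cent F g O)
    {y : K} (hy : O.valuation y < 1) : O.valuation y ≤ O.valuation g := by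
  by_cases hy0 : y = 0
  · subst hy0
    rw [map_zero]
    exact zero_le
  obtain ⟨n, a, ha, ha0, H⟩ := exists_form hg0 hK hy0
  rw [val_form hO hg0 ha ha0 (H O hO)] at hy ⊢
  have hpos : 0 < O.valuation g := zero_lt_iff.mpr ((_root_.map_ne_zero _).mpr hg0)
  have hn : 0 < n := by
    by_contra hn
    push Not at hn
    have : 1 ≤ O.valuation g ^ n := one_le_zpow_of_nonpos₀ hpos hO.lt.le hn
    exact absurd hy (not_lt.mpr this)
  calc O.valuation g ^ n ≤ O.valuation g ^ (1 : ℤ) :=
        zpow_le_zpow_right_of_le_one₀ hpos hO.lt.le (by omega)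
    _ = O.valuation g := zpow_one _

/-- Every element of `O` is congruent to an element of `F`. -/
lemma Cent.exists_res (hg0 : g ≠ 0) (hK : Gen F g) {O : ValuationSubring K} (hO : Cent F g O)
    {y : K} (hy : y ∈ O) : ∃ a ∈ F, O.valuation (y - a) < 1 := by
  rw [← O.valuation_le_one_iff] at hy
  rcases lt_or_eq_of_le hy with h | h
  · exact ⟨0, F.zero_mem, by rwa [sub_zero]⟩
  · have hy0 : y ≠ 0 := by
      rintro rfl
      simp at h
    obtain ⟨n, a, ha, ha0, H⟩ := exists_form hg0 hK hy0
    have h1 := val_form hO hg0 ha ha0 (H O hO)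
    rw [h] at h1
    have hpos : 0 < O.valuation g := zero_lt_iff.mpr ((_root_.map_ne_zero _).mpr hg0)
    have hn : n = 0 := by
      rcases lt_trichotomy n 0 with hn | hn | hn
      · have : 1 < O.valuation g ^ n := one_lt_zpow_of_neg₀ hpos hO.lt hn
        rw [← h1] at this
        exact absurd this (lt_irrefl _)
      · exact hn
      · have : O.valuation g ^ n < 1 := zpow_lt_one₀ hpos hO.lt hn
        rw [← h1] at this
        exact absurd this (lt_irrefl _)
    subst hn
    refine ⟨a, ha, ?_⟩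
    have := H O hO
    rwa [zpow_zero, div_one] at this

end Pool.Agent.TH142.Recip
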