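import Mathlib
import Pool.Agent.TH142.Recip.Dvr

/-!
The degree of a field extension as a sum over valuation rings.
-/

namespace Pool.Agent.TH142.Recip

open Module IsDedekindDomain

section

variable {R S K₀ K : Type} [CommRing R] [IsDomain R] [IsPrincipalIdealRing R]
  [CommRing S] [IsDedekindDomain S] [Field K₀] [Field K]
  [Algebra R S] [Algebra R K₀] [IsFractionRing R K₀] [Algebra K₀ K] [Algebra R K]
  [IsScalarTower R K₀ K] [Algebra S K] [IsScalarTower R S K] [IsFractionRing S K]
  [Module.Finite R S] [FaithfulSMul R S]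

/-- The valuation ring attached to a nonzero prime of `S`. -/
noncomputable def vsub (v : HeightOneSpectrum S) : ValuationSubring K :=
  (v.valuation K).valuationSubring

lemma vsub_lt {v : HeightOneSpectrum S} {x y : K} :
    (vsub (K := K) v).valuation x < (vsub (K := K) v).valuation y ↔
      v.valuation K x < v.valuation K y :=
  ((v.valuation K).isEquiv_valuation_valuationSubring.lt_iff_lt).symm

lemma vsub_le {v : HeightOneSpectrum S} {x y : K} :
    (vsub (K := K) v).valuation x ≤ (vsub (K := K) v).valuation y ↔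
      v.valuation K x ≤ v.valuation K y :=
  ((v.valuation K).isEquiv_valuation_valuationSubring x y).symm

lemma vsub_lt_one {v : HeightOneSpectrum S} {x : K} :
    (vsub (K := K) v).valuation x < 1 ↔ v.valuation K x < 1 := by
  have := vsub_lt (K := K) (v := v) (x := x) (y := 1)
  simpa using this

lemma vsub_eq {v : HeightOneSpectrum S} {x y : K}
    (h : (vsub (K := K) v).valuation x = (vsub (K := K) v).valuation y) :
    v.valuation K x = v.valuation K y :=
  le_antisymm (vsub_le.mp h.le) (vsub_le.mp h.ge)

theorem count_aux (ϖ : R) (hϖ : (Ideal.span {ϖ}).IsMaximal) (hϖ0 : ϖ ≠ 0)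
    (hint : Algebra.IsIntegral R S)
    (𝒱 : Finset (ValuationSubring K))
    (h𝒱 : ∀ O, O ∈ 𝒱 ↔ (∀ r : R, algebraMap R K r ∈ O) ∧
      O.valuation (algebraMap R K ϖ) < 1)
    (e f : ValuationSubring K → ℕ)
    (he : ∀ O ∈ 𝒱, ∃ g : K, O.valuation g < 1 ∧
      (∀ y, O.valuation y < 1 → O.valuation y ≤ O.valuation g) ∧
      O.valuation (algebraMap R K ϖ) = O.valuation g ^ (e O))
    (hf : ∀ O ∈ 𝒱, ∃ (L : Type) (_ : Field L) (_ : Algebra (R ⧸ Ideal.span {ϖ}) L) (ρ : O →+* L),
      Function.Surjective ρ ∧
      (∀ (r : R) (hr : algebraMap R K r ∈ O), ρ ⟨algebraMap R K r, hr⟩ =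
        algebraMap (R ⧸ Ideal.span {ϖ}) L (Ideal.Quotient.mk _ r)) ∧
      finrank (R ⧸ Ideal.span {ϖ}) L = f O) :
    finrank K₀ K = ∑ O ∈ 𝒱, e O * f O := by
  classical
  set p : Ideal R := Ideal.span {ϖ} with hp
  have hp0 : p ≠ ⊥ := by
    rw [hp, Ne, Ideal.span_singleton_eq_bot]
    exact hϖ0
  have : p.IsPrime := hϖ.isPrime
  have : Module.IsTorsionFree R S := inferInstance
  have : Module.Flat R S := inferInstance
  have hmap0 : p.map (algebraMap R S) ≠ ⊥ := Ideal.map_ne_bot_of_ne_bot hp0
  have : Finite (p.primesOver S) := inferInstance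
  let : Fintype (p.primesOver S) := Fintype.ofFinite _
  have hsum := Ideal.sum_ramification_inertia_eq_finrank p S
  rw [IsFractionRing.finrank_eq R K₀ S K, ← hsum]
  -- the height one prime attached to a prime over `p`
  have hqne : ∀ q : p.primesOver S, q.1 ≠ ⊥ := by
    intro q hq
    have := q.2.2
    have h1 : algebraMap R S ϖ ∈ q.1 := by
      have : ϖ ∈ q.1.under R := by
        rw [← Ideal.over_def q.1 p, hp]
        exact Ideal.mem_span_singleton_self ϖ
      exact this
    rw [hq, Ideal.mem_bot] at h1
    exact hϖ0 ((FaithfulSMul.algebraMap_injective R S) (by rw [h1, map_zero]))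
  let v : p.primesOver S → HeightOneSpectrum S := fun q => ⟨q.1, q.2.1, hqne q⟩
  have hmem : ∀ q : p.primesOver S, algebraMap R S ϖ ∈ q.1 := by
    intro q
    have := q.2.2
    have : ϖ ∈ q.1.under R := by
      rw [← Ideal.over_def q.1 p, hp]
      exact Ideal.mem_span_singleton_self ϖ
    exact this
  have hϖK : ∀ q, (v q).valuation K (algebraMap R K ϖ) < 1 := by
    intro q
    rw [IsScalarTower.algebraMap_apply R S K, HeightOneSpectrum.valuation_lt_one_iff_mem]
    exact hmem q
  have hO : ∀ q, vsub (K := K) (v q) ∈ 𝒱 := by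
    intro q
    rw [h𝒱]
    constructor
    · intro r
      change (v q).valuation K (algebraMap R K r) ≤ 1
      rw [IsScalarTower.algebraMap_apply R S K]
      exact HeightOneSpectrum.valuation_le_one _ _
    · rw [vsub_lt_one]
      exact hϖK q
  refine Finset.sum_bij (fun q _ => vsub (K := K) (v q)) (fun q _ => hO q) ?_ ?_ ?_
  · -- injectivity
    intro q _ q' _ h
    have h1 : ((v q).valuation K).IsEquiv ((v q').valuation K) := by
      rw [Valuation.isEquiv_iff_valuationSubring]
      exact h
    have h2 := HeightOneSpectrum.eq_of_valuation_isEquiv_valuation h1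
    have h3 := congrArg HeightOneSpectrum.asIdeal h2
    exact Subtype.ext h3
  · -- surjectivity
    intro O hOm
    obtain ⟨hR, hlt⟩ := (h𝒱 O).mp hOm
    -- `S` is contained in `O`
    have hS : ∀ s : S, algebraMap S K s ∈ O := by
      intro s
      have h1 : IsIntegral R (algebraMap S K s) := (hint.isIntegral s).map (IsScalarTower.toAlgHom R S K)
      obtain ⟨P, hP, hPs⟩ := h1
      let φR : R →+* O := (algebraMap R K).codRestrict O.toSubring hR
      have h2 : IsIntegral O (algebraMap S K s) := by
        refine ⟨P.map φR, hP.map φR, ?_⟩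
        rw [Polynomial.eval₂_map]
        exact hPs
      obtain ⟨y, hy⟩ := IsIntegrallyClosed.isIntegral_iff.mp h2
      rw [← hy]
      exact y.2
    let φ : S →+* O := (algebraMap S K).codRestrict O.toSubring hS
    let q : Ideal S := (IsLocalRing.maximalIdeal O).comap φ
    have hqp : q.IsPrime := Ideal.IsPrime.comap φ
    have hϖq : algebraMap R S ϖ ∈ q := by
      change φ (algebraMap R S ϖ) ∈ IsLocalRing.maximalIdeal O
      rw [ValuationSubring.valuation_lt_one_iff]
      change O.valuation (algebraMap S K (algebraMap R S ϖ)) < 1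
      rw [← IsScalarTower.algebraMap_apply R S K]
      exact hlt
    have hqo : q.LiesOver p := by
      constructor
      have h1 : p ≤ q.under R := by
        rw [hp, Ideal.span_singleton_le_iff_mem]
        exact hϖq
      have h2 : q.under R ≠ ⊤ := by
        intro h
        have : (1 : R) ∈ q.under R := by rw [h]; trivial
        rw [Ideal.mem_comap, map_one] at this
        exact hqp.ne_top ((Ideal.eq_top_iff_one _).mpr this)
      exact hϖ.eq_of_le h2 h1
    refine ⟨⟨q, hqp, hqo⟩, Finset.mem_univ _, ?_⟩
    set q' : p.primesOver S := ⟨q, hqp, hqo⟩ with hq'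
    change vsub (v q') = O
    rw [vsub, ← HeightOneSpectrum.valuationSubringAtPrime_eq_valuationSubring]
    apply ValuationSubring.eq_of_le_of_ne_top
    · rintro x ⟨a, s, hs, rfl⟩
      have hsu : IsUnit (φ s) := by
        by_contra hn
        apply hs
        change φ s ∈ IsLocalRing.maximalIdeal O
        exact (IsLocalRing.mem_maximalIdeal _).mpr hn
      have h1 : (algebraMap S K s)⁻¹ ∈ O := by
        obtain ⟨t, ht⟩ := isUnit_iff_exists_inv.mp hsu
        have h2 : algebraMap S K s * (t : K) = 1 := congrArg (fun z : O => (z : K)) ht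
        rw [inv_eq_of_mul_eq_one_right h2]
        exact t.2
      exact O.mul_mem _ _ (hS a) h1
    · intro h
      have h1 : O.valuation (algebraMap R K ϖ) ≠ 0 := by
        rw [_root_.map_ne_zero]
        intro h0
        have h2 : algebraMap S K (algebraMap R S ϖ) = 0 := by
          rw [← IsScalarTower.algebraMap_apply R S K]; exact h0
        have h3 := (IsFractionRing.injective S K) (h2.trans (map_zero _).symm)
        exact hϖ0 ((FaithfulSMul.algebraMap_injective R S) (by rw [h3, map_zero]))
      have h2 : (algebraMap R K ϖ)⁻¹ ∈ O := by rw [h]; trivial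
      rw [← O.valuation_le_one_iff, map_inv₀, inv_le_one₀ (zero_lt_iff.mpr h1)] at h2
      exact absurd hlt (not_lt.mpr h2)
  · -- the local contributions
    intro q _
    have := q.2.1
    have := q.2.2
    have hqmax : q.1.IsMaximal := (v q).isMaximal
    have hOq := hO q
    congr 1
    · obtain ⟨g, hg1, hg2, hg3⟩ := he _ hOq
      rw [Ideal.IsDedekindDomain.ramificationIdx_eq_multiplicity p q.1 hmap0]
      have hmapp : p.map (algebraMap R S) = Ideal.span {algebraMap R S ϖ} := by
        rw [hp, Ideal.map_span, Set.image_singleton]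
      have hϖS : algebraMap R S ϖ ≠ 0 := by
        intro h
        exact hϖ0 ((FaithfulSMul.algebraMap_injective R S) (by rw [h, map_zero]))
      have h1 := (v q).intValuation_eq_exp_neg_multiplicity hϖS
      have h2 : (v q).valuation K (algebraMap R K ϖ) =
          WithZero.exp (-multiplicity q.1 (Ideal.span {algebraMap R S ϖ}) : ℤ) := by
        rw [IsScalarTower.algebraMap_apply R S K, HeightOneSpectrum.valuation_of_algebraMap, h1]
      have hg : (v q).valuation K g = WithZero.exp (-1 : ℤ) := by
        obtain ⟨π, hπ⟩ := (v q).valuation_exists_uniformizer K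
        have hπ1 : (v q).valuation K π < 1 := by
          rw [hπ, ← WithZero.exp_zero, WithZero.exp_lt_exp]
          norm_num
        have h3 := vsub_le.mp (hg2 π (vsub_lt_one.mpr hπ1))
        have h4 := vsub_lt_one.mp hg1
        have hg0 : (v q).valuation K g ≠ 0 := by
          intro h0
          rw [h0, hπ] at h3
          exact absurd (le_zero_iff.mp h3) WithZero.exp_ne_zero
        obtain ⟨m, hm⟩ : ∃ m : ℤ, (v q).valuation K g = WithZero.exp m :=
          ⟨WithZero.log ((v q).valuation K g), (WithZero.exp_log hg0).symm⟩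
        rw [hm, ← WithZero.exp_zero, WithZero.exp_lt_exp] at h4
        rw [hm, hπ, WithZero.exp_le_exp] at h3
        rw [hm]
        congr 1
        omega
      have h5 : (v q).valuation K (algebraMap R K ϖ) =
          (v q).valuation K g ^ (e (vsub (K := K) (v q))) := by
        rw [← map_pow]
        apply vsub_eq
        rw [map_pow]
        exact hg3
      rw [h2, hg, ← WithZero.exp_nsmul, WithZero.exp_inj] at h5
      rw [hmapp]
      simp only [smul_neg, nsmul_eq_mul, mul_one, neg_inj] at h5
      exact_mod_cast h5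
    · obtain ⟨O, hOdef⟩ : ∃ O, O = vsub (K := K) (v q) := ⟨_, rfl⟩
      rw [← hOdef] at hOq ⊢
      obtain ⟨L, _, _, ρ, hρs, hρc, hρf⟩ := hf _ hOq
      rw [← hρf, Ideal.inertiaDeg_eq_of_isMaximal p q.1]
      have hOv : ∀ y : K, O.valuation y < 1 ↔ (v q).valuation K y < 1 := by
        intro y
        rw [hOdef]
        exact vsub_lt_one
      have hOm : ∀ y : K, y ∈ O ↔ (v q).valuation K y ≤ 1 := by
        intro y
        rw [hOdef]
        exact Iff.rfl
      have hS : ∀ s : S, algebraMap S K s ∈ O := by
        intro s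
        rw [hOm]
        exact HeightOneSpectrum.valuation_le_one _ _
      let φ : S →+* O := (algebraMap S K).codRestrict O.toSubring hS
      have hker : ∀ x : O, ρ x = 0 ↔ O.valuation (x : K) < 1 := by
        intro x
        rw [← ValuationSubring.valuation_lt_one_iff]
        have hk : RingHom.ker ρ = IsLocalRing.maximalIdeal O :=
          IsLocalRing.eq_maximalIdeal (RingHom.ker_isMaximal_of_surjective ρ hρs)
        rw [← hk, RingHom.mem_ker]
      let ψ : S →+* L := ρ.comp φ
      have hψker : RingHom.ker ψ = q.1 := by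
        ext s
        rw [RingHom.mem_ker]
        change ρ (φ s) = 0 ↔ _
        rw [hker]
        change O.valuation (algebraMap S K s) < 1 ↔ _
        rw [hOv, HeightOneSpectrum.valuation_lt_one_iff_mem]
      have hψs : Function.Surjective ψ := by
        intro l
        obtain ⟨x, rfl⟩ := hρs l
        have hx : (v q).valuation K (x : K) ≤ 1 := (hOm _).mp x.2
        obtain ⟨s, hs⟩ := (v q).exists_valuation_sub_lt_of_integer hx 1
        refine ⟨s, ?_⟩
        rw [← sub_eq_zero]
        change ρ (φ s) - ρ x = 0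
        rw [← map_sub, hker]
        change O.valuation (algebraMap S K s - (x : K)) < 1
        rw [hOv]
        exact hs
      let E : (S ⧸ q.1) ≃+* L :=
        (Ideal.quotEquivOfEq hψker.symm).trans (RingHom.quotientKerEquivOfSurjective hψs)
      refine Algebra.finrank_eq_of_equiv_equiv (RingEquiv.refl (R ⧸ p)) E ?_
      ext r
      simp only [RingEquiv.refl, RingHom.comp_apply]
      change algebraMap (R ⧸ p) L (Ideal.Quotient.mk p r) =
        ρ (φ (algebraMap R S r))
      have hr : algebraMap R K r ∈ O := by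
        rw [IsScalarTower.algebraMap_apply R S K]
        exact hS _
      rw [← hρc r hr]
      congr 1
      apply Subtype.ext
      change algebraMap R K r = algebraMap S K (algebraMap R S r)
      rw [← IsScalarTower.algebraMap_apply R S K]

end

section

open scoped IntermediateField.algebraAdjoinAdjoin

variable {K : Type} [Field K] [CharZero K] (F₀ : Subfield K) (u : K)

/-- The polynomial ring `F₀[u]`. -/
abbrev PR : Subalgebra F₀ K := Algebra.adjoin F₀ ({u} : Set K)

/-- The variable `u` as an element of `F₀[u]`. -/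
def pv : PR F₀ u := ⟨u, Algebra.self_mem_adjoin_singleton F₀ u⟩

omit [CharZero K] in
lemma PR.exists_poly (r : PR F₀ u) : ∃ P : Polynomial F₀, Polynomial.aeval u P = (r : K) := by
  have h : (r : K) ∈ Algebra.adjoin F₀ ({u} : Set K) := r.2
  rw [Algebra.adjoin_singleton_eq_range_aeval] at h
  exact h

omit [CharZero K] in
lemma PR.split (r : PR F₀ u) : ∃ (c : F₀) (s : PR F₀ u), r = algebraMap F₀ (PR F₀ u) c + pv F₀ u * s := by
  obtain ⟨P, hP⟩ := PR.exists_poly F₀ u r
  refine ⟨P.coeff 0, ⟨Polynomial.aeval u P.divX, ?_⟩, ?_⟩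
  · change _ ∈ Algebra.adjoin F₀ ({u} : Set K)
    rw [Algebra.adjoin_singleton_eq_range_aeval]
    exact ⟨_, rfl⟩
  · apply Subtype.ext
    rw [← hP]
    change Polynomial.aeval u P = algebraMap F₀ K (P.coeff 0) + u * Polynomial.aeval u P.divX
    conv_lhs => rw [← Polynomial.divX_mul_X_add P]
    simp
    ring

theorem count (hu : Transcendental F₀ u)
    [hfin : FiniteDimensional (IntermediateField.adjoin F₀ ({u} : Set K)) K]
    (𝒱 : Finset (ValuationSubring K)) (h𝒱 : ∀ O, O ∈ 𝒱 ↔ Cent F₀ u O)
    (e f : ValuationSubring K → ℕ)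
    (he : ∀ O ∈ 𝒱, ∃ g : K, O.valuation g < 1 ∧
      (∀ y, O.valuation y < 1 → O.valuation y ≤ O.valuation g) ∧
      O.valuation u = O.valuation g ^ (e O))
    (hf : ∀ O ∈ 𝒱, ∃ (L : Type) (_ : Field L) (_ : Algebra F₀ L) (ρ : O →+* L),
      Function.Surjective ρ ∧
      (∀ (x : F₀) (hx : (x : K) ∈ O), ρ ⟨x, hx⟩ = algebraMap F₀ L x) ∧
      finrank F₀ L = f O) :
    finrank (IntermediateField.adjoin F₀ ({u} : Set K)) K = ∑ O ∈ 𝒱, e O * f O := by
  classical
  let R := PR F₀ u
  let K₀ := IntermediateField.adjoin F₀ ({u} : Set K)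
  have hPID : IsPrincipalIdealRing R := by
    let φ : Polynomial F₀ →+* R :=
      (Polynomial.aeval (pv F₀ u) : Polynomial F₀ →ₐ[F₀] R).toRingHom
    refine IsPrincipalIdealRing.of_surjective φ ?_
    intro r
    obtain ⟨P, hP⟩ := PR.exists_poly F₀ u r
    refine ⟨P, Subtype.ext ?_⟩
    rw [← hP]
    change (R.val (Polynomial.aeval (pv F₀ u) P) : K) = Polynomial.aeval u P
    rw [← Polynomial.aeval_algHom_apply]
    rfl
  let S := integralClosure R K
  have hsep : Algebra.IsSeparable K₀ K := inferInstance
  have hST : IsScalarTower R K₀ K := inferInstance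
  have hfinS : Module.Finite R S := IsIntegralClosure.finite R K₀ K S
  have hded : IsDedekindDomain S := integralClosure.isDedekindDomain R K₀ K
  have hfr : IsFractionRing S K :=
    IsIntegralClosure.isFractionRing_of_finite_extension R K₀ K S
  have hfaith : FaithfulSMul R S := by
    rw [faithfulSMul_iff_algebraMap_injective]
    intro a b hab
    have h1 := congrArg (fun z : S => (z : K)) hab
    exact Subtype.ext h1
  have hu0 : u ≠ 0 := by
    rintro rfl
    exact hu (isAlgebraic_zero)
  have hpv0 : pv F₀ u ≠ 0 := fun h => hu0 (congrArg (fun z : R => (z : K)) h)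
  -- the ideal generated by `u` is proper
  have hne : Ideal.span {pv F₀ u} ≠ ⊤ := by
    intro h
    have h1 : (1 : R) ∈ Ideal.span {pv F₀ u} := by rw [h]; trivial
    obtain ⟨s, hs⟩ := Ideal.mem_span_singleton'.mp h1
    obtain ⟨P, hP⟩ := PR.exists_poly F₀ u s
    apply hu
    refine ⟨P * Polynomial.X - 1, ?_, ?_⟩
    · intro h0
      have := congrArg (fun Q => Polynomial.coeff Q 0) h0
      simp at this
    · have h3 : (s : K) * u = 1 := congrArg (fun z : R => (z : K)) hs
      rw [map_sub, map_mul, Polynomial.aeval_X, map_one]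
      have h4 : (Polynomial.aeval u) P = (s : K) := hP
      rw [h4, h3, sub_self]
  let κ := R ⧸ Ideal.span {pv F₀ u}
  let ε₀ : F₀ →+* κ := (Ideal.Quotient.mk _).comp (algebraMap F₀ R)
  have hκ : Nontrivial κ := Ideal.Quotient.nontrivial_iff.mpr hne
  have hε : Function.Bijective ε₀ := by
    refine ⟨ε₀.injective, ?_⟩
    intro y
    obtain ⟨r, rfl⟩ := Ideal.Quotient.mk_surjective y
    obtain ⟨c, s, hcs⟩ := PR.split F₀ u r
    refine ⟨c, ?_⟩
    change Ideal.Quotient.mk _ (algebraMap F₀ R c) = _
    rw [hcs, Ideal.Quotient.eq, ← sub_sub, sub_self, zero_sub, neg_mem_iff]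
    exact Ideal.mul_mem_right _ _ (Ideal.mem_span_singleton_self _)
  let ε : F₀ ≃+* κ := RingEquiv.ofBijective ε₀ hε
  have hmax : (Ideal.span {pv F₀ u}).IsMaximal := by
    apply Ideal.Quotient.maximal_of_isField
    exact (MulEquiv.isField (Field.toIsField F₀) ε.symm.toMulEquiv)
  refine count_aux (R := R) (S := S) (K₀ := K₀) (K := K) (pv F₀ u) hmax hpv0 inferInstance 𝒱 ?_ e f
    ?_ ?_
  · intro O
    rw [h𝒱 O]
    constructor
    · intro h
      refine ⟨fun r => ?_, h.lt⟩
      obtain ⟨P, hP⟩ := PR.exists_poly F₀ u r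
      have h3 := h.aeval_mem P
      rw [show (algebraMap R K) r = Polynomial.aeval u P from hP.symm]
      exact h3
    · rintro ⟨h1, h2⟩
      exact ⟨fun x hx => h1 (algebraMap F₀ R ⟨x, hx⟩), h2⟩
  · exact he
  · intro O hO
    obtain ⟨L, _, _, ρ, hρs, hρc, hρf⟩ := hf O hO
    have hcent := (h𝒱 O).mp hO
    refine ⟨L, inferInstance, ((algebraMap F₀ L).comp ε.symm.toRingHom).toAlgebra, ρ, hρs, ?_, ?_⟩
    · intro r hr
      obtain ⟨c, s, hcs⟩ := PR.split F₀ u r
      have h1 : ε.symm (Ideal.Quotient.mk _ r) = c := by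
        rw [RingEquiv.symm_apply_eq]
        change _ = Ideal.Quotient.mk _ (algebraMap F₀ R c)
        rw [hcs, Ideal.Quotient.eq, add_sub_cancel_left]
        exact Ideal.mul_mem_right _ _ (Ideal.mem_span_singleton_self _)
      change _ = algebraMap F₀ L (ε.symm (Ideal.Quotient.mk _ r))
      rw [h1]
      have hcO : (c : K) ∈ O := hcent.mem _ c.2
      have huO : u ∈ O := (O.valuation_le_one_iff u).mp hcent.lt.le
      have hsO : (s : K) ∈ O := by
        obtain ⟨P, hP⟩ := PR.exists_poly F₀ u s
        rw [show (s : K) = Polynomial.aeval u P from hP.symm]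
        exact hcent.aeval_mem P
      have h3 : (⟨algebraMap R K r, hr⟩ : O) = ⟨c, hcO⟩ + ⟨u, huO⟩ * ⟨s, hsO⟩ := by
        apply Subtype.ext
        change (r : K) = (c : K) + u * (s : K)
        rw [hcs]
        rfl
      have hρu : ρ ⟨u, huO⟩ = 0 := by
        have hk : RingHom.ker ρ = IsLocalRing.maximalIdeal O :=
          IsLocalRing.eq_maximalIdeal (RingHom.ker_isMaximal_of_surjective ρ hρs)
        rw [← RingHom.mem_ker, hk, ValuationSubring.valuation_lt_one_iff]
        exact hcent.lt
      rw [h3, map_add, map_mul, hρu, zero_mul, add_zero]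
      exact hρc c hcO
    · rw [← hρf]
      let _ : Algebra κ L := ((algebraMap F₀ L).comp ε.symm.toRingHom).toAlgebra
      refine Algebra.finrank_eq_of_equiv_equiv ε.symm (RingEquiv.refl L) ?_
      ext x
      rfl

end

end Pool.Agent.TH142.Recip
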