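import Mathlib

/-!
A bound for the transcendence degree of the field generated by a point of a linear space and a
point of its orthogonal complement.
-/

namespace Pool.Agent.TH142.Recip

open Module

section

variable {k κ : Type} [Field k] [Field κ] [Algebra k κ]

/-- A field generated over `k` by a finite set has transcendence degree at most the cardinality
of the set. -/
lemma trdeg_adjoin_le (s : Finset κ) :
    Algebra.trdeg k (IntermediateField.adjoin k (s : Set κ)) ≤ s.card := by
  classical
  set F := IntermediateField.adjoin k (s : Set κ) with hF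
  let t : Set F := (fun x : F => (x : κ)) ⁻¹' (s : Set κ)
  have h1 : Algebra.IsAlgebraic (Algebra.adjoin k t) F := by
    have h2 : (F.val : F →ₐ[k] κ) '' t = (s : Set κ) := by
      ext x
      constructor
      · rintro ⟨y, hy, rfl⟩
        exact hy
      · intro hx
        exact ⟨⟨x, IntermediateField.subset_adjoin k _ hx⟩, hx, rfl⟩
    have h3 : IntermediateField.adjoin k t = ⊤ := by
      apply IntermediateField.map_injective F.val
      rw [IntermediateField.adjoin_map, h2, ← hF]
      ext x
      simp
    constructor
    intro x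
    have hx : x ∈ IntermediateField.adjoin k t := by rw [h3]; trivial
    obtain ⟨a, ha, b, hb, hab⟩ := IntermediateField.mem_adjoin_iff_div.mp hx
    rw [hab]
    have ha' : IsAlgebraic (Algebra.adjoin k t) a :=
      isAlgebraic_algebraMap (⟨a, ha⟩ : Algebra.adjoin k t)
    have hb' : IsAlgebraic (Algebra.adjoin k t) b :=
      isAlgebraic_algebraMap (⟨b, hb⟩ : Algebra.adjoin k t)
    rw [div_eq_mul_inv]
    exact ha'.mul hb'.inv
  refine (Algebra.IsAlgebraic.trdeg_le_cardinalMk k t).trans ?_
  have h4 : Cardinal.mk t ≤ Cardinal.mk (s : Set κ) := by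
    apply Cardinal.mk_le_of_injective (f := fun x : t => (⟨(x : F), x.2⟩ : (s : Set κ)))
    intro x y hxy
    simp only [Subtype.mk.injEq] at hxy
    exact Subtype.ext (Subtype.ext hxy)
  refine h4.trans ?_
  simp

/-- A finite-dimensional `k`-subspace of `κ` is spanned by a finite set with as many elements as
its dimension. -/
lemma exists_finset_span (Z : Submodule k κ) [FiniteDimensional k Z] :
    ∃ s : Finset κ, s.card ≤ finrank k Z ∧ Z ≤ Submodule.span k (s : Set κ) := by
  classical
  let b := Module.finBasis k Z
  refine ⟨Finset.univ.image (fun i => (b i : κ)), ?_, ?_⟩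
  · exact Finset.card_image_le.trans (by simp)
  · intro z hz
    have h := b.sum_repr ⟨z, hz⟩
    have h' := congrArg (fun y : Z => (y : κ)) h
    simp only [Submodule.coe_sum, Submodule.coe_smul] at h'
    rw [← h']
    refine Submodule.sum_mem _ fun i _ => Submodule.smul_mem _ _ (Submodule.subset_span ?_)
    simp

/-- If the subspace contains `1`, one element less is needed, besides `1`. -/
lemma exists_finset_span_one (Y : Submodule k κ) [FiniteDimensional k Y] (h1 : (1 : κ) ∈ Y) :
    ∃ s : Finset κ, s.card + 1 ≤ finrank k Y ∧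
      Y ≤ Submodule.span k (insert (1 : κ) (s : Set κ)) := by
  classical
  let b := Module.finBasis k Y
  have hne : (b.repr ⟨1, h1⟩) ≠ 0 := by
    intro h
    have : (⟨1, h1⟩ : Y) = 0 := by
      rw [← b.repr.map_eq_zero_iff]
      exact h
    have h2 := congrArg (fun y : Y => (y : κ)) this
    simp at h2
  obtain ⟨i₀, hi₀⟩ := Finsupp.ne_iff.mp hne
  simp only [Finsupp.coe_zero, Pi.zero_apply] at hi₀
  refine ⟨(Finset.univ.erase i₀).image (fun i => (b i : κ)), ?_, ?_⟩
  · have h3 : ((Finset.univ.erase i₀).image (fun i => (b i : κ))).card ≤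
        (Finset.univ.erase i₀).card := Finset.card_image_le
    have h4 : (Finset.univ.erase i₀).card + 1 = finrank k Y := by
      rw [Finset.card_erase_add_one (Finset.mem_univ _)]
      simp
    omega
  · set W := Submodule.span k (insert (1 : κ)
      (((Finset.univ.erase i₀).image (fun i => (b i : κ)) : Finset κ) : Set κ)) with hW
    have hb : ∀ i, i ≠ i₀ → (b i : κ) ∈ W := by
      intro i hi
      apply Submodule.subset_span
      right
      simp only [Finset.coe_image, Set.mem_image, Finset.mem_coe]
      exact ⟨i, Finset.mem_erase.mpr ⟨hi, Finset.mem_univ _⟩, rfl⟩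
    have h1W : (1 : κ) ∈ W := Submodule.subset_span (Set.mem_insert _ _)
    have hb0 : (b i₀ : κ) ∈ W := by
      have h := congrArg (fun y : Y => (y : κ)) (b.sum_repr ⟨1, h1⟩)
      simp only [Submodule.coe_sum, Submodule.coe_smul] at h
      rw [← Finset.add_sum_erase _ _ (Finset.mem_univ i₀)] at h
      have h5 : (b i₀ : κ) = (b.repr ⟨1, h1⟩ i₀)⁻¹ • ((1 : κ) -
          ∑ i ∈ Finset.univ.erase i₀, b.repr ⟨1, h1⟩ i • (b i : κ)) := by
        rw [eq_inv_smul_iff₀ hi₀, eq_sub_iff_add_eq]
        exact h
      rw [h5]
      refine Submodule.smul_mem _ _ (Submodule.sub_mem _ h1W (Submodule.sum_mem _ ?_))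
      intro i hi
      exact Submodule.smul_mem _ _ (hb i (Finset.ne_of_mem_erase hi))
    intro z hz
    have h := b.sum_repr ⟨z, hz⟩
    have h' := congrArg (fun y : Y => (y : κ)) h
    simp only [Submodule.coe_sum, Submodule.coe_smul] at h'
    rw [← h']
    refine Submodule.sum_mem _ fun i _ => Submodule.smul_mem _ _ ?_
    by_cases hi : i = i₀
    · rw [hi]; exact hb0
    · exact hb i hi

end

section

variable {k κ : Type} [Field k] [Field κ] [Algebra k κ] {G : Type} [Fintype G]

/-- The orthogonal complement for the standard pairing on `G → k`. -/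
def orth (B : Submodule k (G → k)) : Submodule k (G → k) where
  carrier := {c | ∀ b ∈ B, ∑ i, b i * c i = 0}
  add_mem' := by
    intro c d hc hd b hb
    have := congrArg₂ (· + ·) (hc b hb) (hd b hb)
    simpa [mul_add, Finset.sum_add_distrib] using this
  zero_mem' := by
    intro b _
    simp
  smul_mem' := by
    intro a c hc b hb
    have := congrArg (a * ·) (hc b hb)
    simp only [Finset.mul_sum, mul_zero] at this
    rw [← this]
    refine Finset.sum_congr rfl fun i _ => ?_
    simp only [Pi.smul_apply, smul_eq_mul]
    ring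

lemma mem_orth {B : Submodule k (G → k)} {c : G → k} :
    c ∈ orth B ↔ ∀ b ∈ B, ∑ i, b i * c i = 0 := Iff.rfl

lemma finrank_orth (B : Submodule k (G → k)) :
    finrank k B + finrank k (orth B) = Fintype.card G := by
  classical
  -- the orthogonal complement is the dual annihilator
  let e : (G → k) ≃ₗ[k] Dual k (G → k) := (Pi.basisFun k G).toDualEquiv
  have he : ∀ c b, e c b = ∑ i, b i * c i := by
    intro c b
    have h : b = ∑ i, b i • (Pi.basisFun k G) i := by
      ext j
      simp [Finset.sum_apply, Pi.single_apply]
    conv_lhs => rw [h]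
    rw [map_sum]
    refine Finset.sum_congr rfl fun i _ => ?_
    rw [map_smul, smul_eq_mul]
    congr 1
    change (Pi.basisFun k G).toDualEquiv c ((Pi.basisFun k G) i) = c i
    rw [Module.Basis.toDualEquiv_apply, Module.Basis.toDual_apply_left]
    simp
  have h1 : (orth B).map (e : (G → k) →ₗ[k] Dual k (G → k)) = B.dualAnnihilator := by
    ext φ
    rw [Submodule.mem_dualAnnihilator]
    constructor
    · rintro ⟨c, hc, rfl⟩ b hb
      rw [LinearEquiv.coe_coe, he]
      exact hc b hb
    · intro h
      refine ⟨e.symm φ, ?_, by simp⟩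
      intro b hb
      rw [← he, LinearEquiv.apply_symm_apply]
      exact h b hb
  have h2 : finrank k (orth B) = finrank k B.dualAnnihilator := by
    rw [← h1]
    exact (LinearEquiv.finrank_eq (e.submoduleMap (orth B)))
  rw [h2, Subspace.finrank_add_finrank_dualAnnihilator_eq]
  simp

/-- The linear map `c ↦ ∑ c i • y i`. -/
noncomputable def comb (y : G → κ) : (G → k) →ₗ[k] κ where
  toFun c := ∑ i, c i • y i
  map_add' := by
    intro c d
    simp [add_smul, Finset.sum_add_distrib]
  map_smul' := by
    intro a c
    simp [Finset.smul_sum, mul_smul]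

lemma range_comb (y : G → κ) : LinearMap.range (comb (k := k) y) = Submodule.span k (Set.range y) := by
  classical
  apply le_antisymm
  · rintro _ ⟨c, rfl⟩
    exact Submodule.sum_mem _ fun i _ =>
      Submodule.smul_mem _ _ (Submodule.subset_span ⟨i, rfl⟩)
  · rw [Submodule.span_le]
    rintro _ ⟨i, rfl⟩
    refine ⟨Pi.single i 1, ?_⟩
    simp [comb, Pi.single_apply, ite_smul]

/-- The transcendence degree bound. -/
theorem trdeg_bound (B : Submodule k (G → k)) (y z : G → κ)
    (hz : ∀ b ∈ B, ∑ i, b i • z i = 0)
    (hy : ∀ c : G → k, (∀ b ∈ B, ∑ i, b i * c i = 0) → ∑ i, c i • y i = 0)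
    (j : G) (hj : y j = 1) :
    Algebra.trdeg k (IntermediateField.adjoin k (Set.range y ∪ Set.range z)) ≤
      ((Fintype.card G - 1 : ℕ) : Cardinal) := by
  classical
  set Y := Submodule.span k (Set.range y) with hYdef
  set Z := Submodule.span k (Set.range z) with hZdef
  have hYfin : FiniteDimensional k Y := FiniteDimensional.span_of_finite k (Set.finite_range y)
  have hZfin : FiniteDimensional k Z := FiniteDimensional.span_of_finite k (Set.finite_range z)
  have h1Y : (1 : κ) ∈ Y := Submodule.subset_span ⟨j, hj⟩
  have hYr : finrank k Y + finrank k (orth B) ≤ Fintype.card G := by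
    have h := LinearMap.finrank_range_add_finrank_ker (comb (k := k) y)
    rw [range_comb, Module.finrank_fintype_fun_eq_card, ← hYdef] at h
    have h2 : orth B ≤ LinearMap.ker (comb (k := k) y) := fun c hc => hy c hc
    have h3 := Submodule.finrank_mono h2
    omega
  have hZr : finrank k Z + finrank k B ≤ Fintype.card G := by
    have h := LinearMap.finrank_range_add_finrank_ker (comb (k := k) z)
    rw [range_comb, Module.finrank_fintype_fun_eq_card, ← hZdef] at h
    have h2 : B ≤ LinearMap.ker (comb (k := k) z) := fun c hc => hz c hc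
    have h3 := Submodule.finrank_mono h2
    omega
  have hB := finrank_orth B
  obtain ⟨s, hs, hYs⟩ := exists_finset_span_one Y h1Y
  obtain ⟨t, ht, hZt⟩ := exists_finset_span Z
  have hle : IntermediateField.adjoin k (Set.range y ∪ Set.range z) ≤
      IntermediateField.adjoin k ((s ∪ t : Finset κ) : Set κ) := by
    rw [IntermediateField.adjoin_le_iff]
    set F := IntermediateField.adjoin k ((s ∪ t : Finset κ) : Set κ) with hF
    have hsF : Submodule.span k (insert (1 : κ) (s : Set κ)) ≤
        Subalgebra.toSubmodule F.toSubalgebra := by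
      rw [Submodule.span_le]
      intro x hx
      rcases hx with rfl | hx
      · exact F.one_mem
      · exact IntermediateField.subset_adjoin k _ (by simpa using Or.inl hx)
    have htF : Submodule.span k (t : Set κ) ≤ Subalgebra.toSubmodule F.toSubalgebra := by
      rw [Submodule.span_le]
      intro x hx
      exact IntermediateField.subset_adjoin k _ (by simpa using Or.inr hx)
    rintro x (⟨i, rfl⟩ | ⟨i, rfl⟩)
    · exact hsF (hYs (Submodule.subset_span ⟨i, rfl⟩))
    · exact htF (hZt (Submodule.subset_span ⟨i, rfl⟩))
  have h5 := trdeg_le_of_injective (IntermediateField.inclusion hle)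
    (IntermediateField.inclusion_injective hle)
  refine h5.trans ((trdeg_adjoin_le (k := k) (s ∪ t)).trans ?_)
  rw [Nat.cast_le]
  have := Finset.card_union_le s t
  omega

/-- The elements `y i ^ 2 * z i` are algebraically dependent. -/
theorem not_algInd (B : Submodule k (G → k)) (y z : G → κ)
    (hz : ∀ b ∈ B, ∑ i, b i • z i = 0)
    (hy : ∀ c : G → k, (∀ b ∈ B, ∑ i, b i * c i = 0) → ∑ i, c i • y i = 0)
    (j : G) (hj : y j = 1) :
    ¬ AlgebraicIndependent k (fun i => y i ^ 2 * z i) := by
  intro hind
  have h := trdeg_bound B y z hz hy j hj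
  set F := IntermediateField.adjoin k (Set.range y ∪ Set.range z) with hF
  have hyF : ∀ i, y i ∈ F := fun i =>
    IntermediateField.subset_adjoin k _ (Or.inl ⟨i, rfl⟩)
  have hzF : ∀ i, z i ∈ F := fun i =>
    IntermediateField.subset_adjoin k _ (Or.inr ⟨i, rfl⟩)
  let u : G → F := fun i => ⟨y i ^ 2 * z i, F.mul_mem (pow_mem (hyF i) 2) (hzF i)⟩
  have hu : AlgebraicIndependent k u := by
    have : (fun i => y i ^ 2 * z i) = F.val ∘ u := rfl
    rw [this] at hind
    exact hind.of_comp F.val
  have h2 := hu.cardinalMk_le_trdeg
  have h3 : ((Fintype.card G : ℕ) : Cardinal) ≤ ((Fintype.card G - 1 : ℕ) : Cardinal) := by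
    rw [← Cardinal.mk_fintype]
    exact h2.trans h
  rw [Nat.cast_le] at h3
  have : 0 < Fintype.card G := Fintype.card_pos_iff.mpr ⟨j⟩
  omega

end

end Pool.Agent.TH142.Recip
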