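import Mathlib
import Pool.Agent.TH142.Recip.TrBound

/-!
Residues with respect to a valuation ring that contains the ground field.
-/

namespace Pool.Agent.TH142.Recip

open Module

section

variable {k K : Type} [Field k] [Field K] [Algebra k K] (O : ValuationSubring K)

/-- The residue field of `O`. -/
abbrev RF : Type := IsLocalRing.ResidueField O

open scoped Classical in
/-- The residue of an element of `O` (and `0` outside `O`). -/
noncomputable def rs (y : K) : RF O :=
  if h : y ∈ O then IsLocalRing.residue O ⟨y, h⟩ else 0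

variable {O}

lemma rs_of_mem {y : K} (h : y ∈ O) : rs O y = IsLocalRing.residue O ⟨y, h⟩ := dif_pos h

lemma rs_add {x y : K} (hx : x ∈ O) (hy : y ∈ O) : rs O (x + y) = rs O x + rs O y := by
  rw [rs_of_mem hx, rs_of_mem hy, rs_of_mem (O.add_mem _ _ hx hy), ← map_add]
  rfl

lemma rs_mul {x y : K} (hx : x ∈ O) (hy : y ∈ O) : rs O (x * y) = rs O x * rs O y := by
  rw [rs_of_mem hx, rs_of_mem hy, rs_of_mem (O.mul_mem _ _ hx hy), ← map_mul]
  rfl

lemma rs_zero : rs O (0 : K) = 0 := by
  rw [rs_of_mem O.zero_mem]
  exact map_zero _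

lemma rs_one : rs O (1 : K) = 1 := by
  rw [rs_of_mem O.one_mem]
  exact map_one _

lemma rs_pow {x : K} (hx : x ∈ O) (n : ℕ) : rs O (x ^ n) = rs O x ^ n := by
  rw [rs_of_mem hx, rs_of_mem (pow_mem hx n), ← map_pow]
  rfl

lemma rs_eq_zero {y : K} (h : y ∈ O) : rs O y = 0 ↔ O.valuation y < 1 := by
  rw [rs_of_mem h, IsLocalRing.residue_eq_zero_iff, ValuationSubring.valuation_lt_one_iff]

lemma rs_sum {ι : Type} (s : Finset ι) (g : ι → K) (hg : ∀ i ∈ s, g i ∈ O) :
    rs O (∑ i ∈ s, g i) = ∑ i ∈ s, rs O (g i) := by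
  classical
  induction s using Finset.induction_on with
  | empty => simp [rs_zero]
  | insert a s ha ih =>
    rw [Finset.sum_insert ha, Finset.sum_insert ha, rs_add, ih]
    · exact fun i hi => hg i (Finset.mem_insert_of_mem hi)
    · exact hg a (Finset.mem_insert_self _ _)
    · exact sum_mem fun i hi => hg i (Finset.mem_insert_of_mem hi)

lemma mem_iff {y : K} : y ∈ O ↔ O.valuation y ≤ 1 := (O.valuation_le_one_iff y).symm

/-- `O` contains the ground field. -/
def Over (k : Type) [Field k] [Algebra k K] (O : ValuationSubring K) : Prop :=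
  ∀ c : k, algebraMap k K c ∈ O

/-- The residue field as a `k`-algebra. -/
@[reducible]
noncomputable def resAlg (hk : Over k O) : Algebra k (RF O) :=
  ((IsLocalRing.residue O).comp ((algebraMap k K).codRestrict O.toSubring hk)).toAlgebra

lemma Over.val_le (hk : Over k O) (c : k) : O.valuation (algebraMap k K c) ≤ 1 :=
  (O.valuation_le_one_iff _).mpr (hk c)

lemma Over.val_eq (hk : Over k O) {c : k} (hc : c ≠ 0) : O.valuation (algebraMap k K c) = 1 := by
  refine le_antisymm (hk.val_le c) ?_
  have h := hk.val_le c⁻¹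
  rw [map_inv₀, map_inv₀] at h
  have h3 : O.valuation (algebraMap k K c) ≠ 0 := by
    rw [_root_.map_ne_zero, _root_.map_ne_zero]; exact hc
  rwa [inv_le_one₀ (zero_lt_iff.mpr h3)] at h

lemma Over.val_smul_le (hk : Over k O) (c : k) (y : K) :
    O.valuation (c • y) ≤ O.valuation y := by
  rw [Algebra.smul_def, map_mul]
  exact mul_le_of_le_one_left' (hk.val_le c)

lemma Over.val_smul (hk : Over k O) {c : k} (hc : c ≠ 0) (y : K) :
    O.valuation (c • y) = O.valuation y := by
  rw [Algebra.smul_def, map_mul, hk.val_eq hc, one_mul]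

lemma Over.smul_mem (hk : Over k O) (c : k) {y : K} (hy : y ∈ O) : c • y ∈ O := by
  rw [Algebra.smul_def]
  exact O.mul_mem _ _ (hk c) hy

lemma rs_smul (hk : Over k O) (c : k) {y : K} (hy : y ∈ O) :
    letI := resAlg hk
    rs O (c • y) = c • rs O y := by
  let := resAlg hk
  rw [Algebra.smul_def, rs_mul (hk c) hy, Algebra.smul_def]
  congr 1
  rw [rs_of_mem (hk c)]
  rfl

/-- Elements of `O` with algebraically independent residues generate a subfield of `O`. -/
lemma aeval_unit (hk : Over k O) {ι : Type} {a : ι → K} (ha : ∀ i, a i ∈ O)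
    (hind : letI := resAlg hk; AlgebraicIndependent k (fun i => rs O (a i)))
    (P : MvPolynomial ι k) :
    MvPolynomial.aeval a P ∈ O ∧ (P ≠ 0 → O.valuation (MvPolynomial.aeval a P) = 1) := by
  let := resAlg hk
  have key : MvPolynomial.aeval a P ∈ O ∧
      rs O (MvPolynomial.aeval a P) = MvPolynomial.aeval (fun i => rs O (a i)) P := by
    induction P using MvPolynomial.induction_on with
    | C c =>
      simp only [MvPolynomial.aeval_C]
      refine ⟨hk c, ?_⟩
      rw [rs_of_mem (hk c)]
      rfl
    | add p q hp hq =>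
      simp only [map_add]
      exact ⟨O.add_mem _ _ hp.1 hq.1, by rw [rs_add hp.1 hq.1, hp.2, hq.2]⟩
    | mul_X p i hp =>
      simp only [map_mul, MvPolynomial.aeval_X]
      exact ⟨O.mul_mem _ _ hp.1 (ha i), by rw [rs_mul hp.1 (ha i), hp.2]⟩
  refine ⟨key.1, fun hP => ?_⟩
  have h1 : rs O (MvPolynomial.aeval a P) ≠ 0 := by
    rw [key.2]
    intro h0
    exact hP ((algebraicIndependent_iff.mp hind) P h0)
  rw [Ne, rs_eq_zero key.1, not_lt] at h1
  exact le_antisymm (mem_iff.mp key.1) h1

lemma adjoin_le_of_res (hk : Over k O) {ι : Type} {a : ι → K} (ha : ∀ i, a i ∈ O)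
    (hind : letI := resAlg hk; AlgebraicIndependent k (fun i => rs O (a i))) :
    ∀ y ∈ IntermediateField.adjoin k (Set.range a), y ∈ O := by
  intro y hy
  obtain ⟨r, hr, s, hs, rfl⟩ := IntermediateField.mem_adjoin_iff_div.mp hy
  rw [Algebra.adjoin_range_eq_range_aeval] at hr hs
  obtain ⟨p, rfl⟩ := hr
  obtain ⟨q, rfl⟩ := hs
  by_cases hq : q = 0
  · subst hq
    simp only [map_zero, div_zero]
    exact O.zero_mem
  · rw [mem_iff, map_div₀]
    have h1 := (aeval_unit hk ha hind q).2 hq
    have h2 := mem_iff.mp (aeval_unit hk ha hind p).1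
    change O.valuation (MvPolynomial.aeval a p) / O.valuation (MvPolynomial.aeval a q) ≤ 1
    rw [h1, div_one]
    exact h2

lemma algInd_of_res (hk : Over k O) {ι : Type} {a : ι → K} (ha : ∀ i, a i ∈ O)
    (hind : letI := resAlg hk; AlgebraicIndependent k (fun i => rs O (a i))) :
    AlgebraicIndependent k a := by
  rw [algebraicIndependent_iff]
  intro P hP
  by_contra h
  have h1 := (aeval_unit hk ha hind P).2 h
  rw [hP, map_zero] at h1
  exact zero_ne_one h1

/-- If `O` contains the field generated by algebraically independent elements, then their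
residues are algebraically independent. -/
lemma res_algInd (hk : Over k O) {ι : Type} {a : ι → K} (ha : AlgebraicIndependent k a)
    (hF : ∀ y ∈ IntermediateField.adjoin k (Set.range a), y ∈ O) :
    letI := resAlg hk
    AlgebraicIndependent k (fun i => rs O (a i)) := by
  let := resAlg hk
  set F := IntermediateField.adjoin k (Set.range a) with hFdef
  let φ : F →ₐ[k] RF O :=
    { toFun := fun y => rs O (y : K)
      map_one' := rs_one
      map_mul' := fun x y => rs_mul (hF _ x.2) (hF _ y.2)
      map_zero' := rs_zero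
      map_add' := fun x y => rs_add (hF _ x.2) (hF _ y.2)
      commutes' := fun c => by
        change rs O (algebraMap k K c) = _
        rw [rs_of_mem (hk c)]
        rfl }
  let b : ι → F := fun i => ⟨a i, IntermediateField.subset_adjoin k _ ⟨i, rfl⟩⟩
  have hb : AlgebraicIndependent k b := by
    have h1 : a = F.val ∘ b := rfl
    rw [h1] at ha
    exact ha.of_comp F.val
  have h2 := hb.map' (f := φ) φ.toRingHom.injective
  exact h2

end

end Pool.Agent.TH142.Recip
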