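import Mathlib
import Pool.Agent.TH142.Recip.TrBound
import Pool.Agent.TH142.Recip.Resid
import Pool.Agent.TH142.Recip.Dvr

/-!
Field-theoretic lemmas: transcendence degree, algebraic independence and finiteness.
-/

namespace Pool.Agent.TH142.Recip

open Module

section

open scoped IntermediateField.algebraAdjoinAdjoin

variable {k K : Type} [Field k] [Field K] [Algebra k K]

lemma isAlgebraic_adjoin {ι : Type} (a : ι → K)
    [h : Algebra.IsAlgebraic (IntermediateField.adjoin k (Set.range a)) K] :
    Algebra.IsAlgebraic (Algebra.adjoin k (Set.range a)) K :=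
  Algebra.IsAlgebraic.trans (Algebra.adjoin k (Set.range a))
    (IntermediateField.adjoin k (Set.range a)) K

lemma algInd_of_finrank {ι : Type} [Finite ι] (a : ι → K)
    (htr : Cardinal.mk ι ≤ Algebra.trdeg k K)
    (h : finrank (IntermediateField.adjoin k (Set.range a)) K ≠ 0) :
    AlgebraicIndependent k a := by
  have hfin : FiniteDimensional (IntermediateField.adjoin k (Set.range a)) K :=
    Module.finite_of_finrank_pos (Nat.pos_of_ne_zero h)
  have := isAlgebraic_adjoin (k := k) a
  exact (Algebra.IsAlgebraic.isTranscendenceBasis_of_le_trdeg_of_finite k a htr).1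

lemma isAlgebraic_of_algInd {ι : Type} [Finite ι] {a : ι → K} (hind : AlgebraicIndependent k a)
    (htr : Algebra.trdeg k K ≤ Cardinal.mk ι) :
    Algebra.IsAlgebraic (IntermediateField.adjoin k (Set.range a)) K := by
  have h1 := hind.isTranscendenceBasis_of_trdeg_le_of_finite htr
  have h2 := h1.isAlgebraic
  exact Algebra.IsAlgebraic.extendScalars (R := Algebra.adjoin k (Set.range a))
    (S := IntermediateField.adjoin k (Set.range a)) (FaithfulSMul.algebraMap_injective _ _)

lemma finite_of_isAlgebraic (F : IntermediateField k K) [Algebra.IsAlgebraic F K] {T : Set K}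
    (hT : T.Finite) (hgen : IntermediateField.adjoin k T = ⊤) : FiniteDimensional F K := by
  have h1 : IntermediateField.adjoin F T = ⊤ := by
    rw [eq_top_iff]
    intro y _
    have hy : y ∈ IntermediateField.adjoin k T := by rw [hgen]; trivial
    have hle : IntermediateField.adjoin k T ≤
        (IntermediateField.adjoin F T).restrictScalars k := by
      rw [IntermediateField.adjoin_le_iff]
      exact IntermediateField.subset_adjoin F T
    exact hle hy
  have : Finite T := hT
  have h2 : FiniteDimensional F (IntermediateField.adjoin F T) :=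
    IntermediateField.finiteDimensional_adjoin fun x _ =>
      Algebra.IsIntegral.isIntegral (R := F) x
  rw [h1] at h2
  exact LinearEquiv.finiteDimensional (IntermediateField.topEquiv (F := F) (E := K)).toLinearEquiv

/-- An algebraic extension of a subfield of a valuation ring is contained in the valuation
ring. -/
lemma mem_of_isAlgebraic {O : ValuationSubring K} (F : Subfield K) (hF : ∀ x ∈ F, x ∈ O)
    {y : K} (hy : IsAlgebraic F y) : y ∈ O := by
  have h1 : IsIntegral F y := hy.isIntegral
  obtain ⟨P, hP, hPy⟩ := h1
  let φ : F →+* O := F.subtype.codRestrict O.toSubring (fun x => hF x x.2)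
  have h2 : IsIntegral O y := by
    refine ⟨P.map φ, hP.map φ, ?_⟩
    rw [Polynomial.eval₂_map]
    exact hPy
  obtain ⟨z, hz⟩ := IsIntegrallyClosed.isIntegral_iff.mp h2
  rw [← hz]
  exact z.2

/-- If `K = F(g)` and `trdeg K ≥ n + 1`, `trdeg F ≤ n`, then `g` is transcendental over `F` and
`trdeg F = n`. -/
lemma trdeg_step (F : IntermediateField k K) (g : K)
    (hgen : IntermediateField.adjoin k ((F : Set K) ∪ {g}) = ⊤) (n : ℕ)
    (hK : ((n + 1 : ℕ) : Cardinal) ≤ Algebra.trdeg k K) (hF : Algebra.trdeg k F ≤ (n : ℕ)) :
    Transcendental F g ∧ Algebra.trdeg k F = (n : ℕ) := by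
  have h1 : IntermediateField.adjoin F ({g} : Set K) = ⊤ := by
    rw [eq_top_iff]
    intro y _
    have hy : y ∈ IntermediateField.adjoin k ((F : Set K) ∪ {g}) := by rw [hgen]; trivial
    have hle : IntermediateField.adjoin k ((F : Set K) ∪ {g}) ≤
        (IntermediateField.adjoin F ({g} : Set K)).restrictScalars k := by
      rw [IntermediateField.adjoin_le_iff]
      rintro x (hx | hx)
      · exact (IntermediateField.adjoin F ({g} : Set K)).algebraMap_mem ⟨x, hx⟩
      · exact IntermediateField.subset_adjoin F _ hx
    exact hle hy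
  have hsum := trdeg_add_eq k F (A := K)
  have h2 : Algebra.trdeg F K ≤ 1 := by
    have h3 := trdeg_adjoin_le (k := F) ({g} : Finset K)
    rw [Finset.coe_singleton, h1] at h3
    have h4 : Algebra.trdeg F (⊤ : IntermediateField F K) = Algebra.trdeg F K :=
      (IntermediateField.topEquiv (F := F) (E := K)).trdeg_eq
    rw [h4] at h3
    simpa using h3
  have h5 : Algebra.trdeg F K ≠ 0 := by
    intro h0
    rw [h0, add_zero] at hsum
    rw [← hsum] at hK
    have := hK.trans hF
    rw [Nat.cast_le] at this
    omega
  constructor
  · intro halg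
    apply h5
    have : Algebra.IsAlgebraic F (IntermediateField.adjoin F ({g} : Set K)) :=
      IntermediateField.isAlgebraic_adjoin fun x hx => by
        rw [Set.mem_singleton_iff.mp hx]
        exact halg.isIntegral
    rw [h1] at this
    have h6 : Algebra.IsAlgebraic F K :=
      (IntermediateField.topEquiv (F := F) (E := K)).isAlgebraic
    exact trdeg_eq_zero
  · refine le_antisymm hF ?_
    by_contra hlt
    push Not at hlt
    have h7 : Algebra.trdeg k F < Cardinal.aleph0 := hF.trans_lt (Cardinal.natCast_lt_aleph0)
    obtain ⟨m, hm⟩ := Cardinal.lt_aleph0.mp h7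
    rw [hm, Nat.cast_lt] at hlt
    have h8 : Algebra.trdeg k K ≤ ((m + 1 : ℕ) : Cardinal) := by
      rw [← hsum, hm, Nat.cast_add, Nat.cast_one]
      exact add_le_add_right h2 _
    have := hK.trans h8
    rw [Nat.cast_le] at this
    omega

end

end Pool.Agent.TH142.Recip
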