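import Mathlib
import Pool.Agent.TH142.Recip.TrBound
import Pool.Agent.TH142.Recip.Resid

/-!
Points `(t, w)` of `V × L^⊥` with values in a field `K`, and their behaviour at a valuation ring
of `K`.
-/

namespace Pool.Agent.TH142.Recip

open Module

variable {k V E K : Type} [Field k] [AddCommGroup V] [Module k V] [FiniteDimensional k V]
  [Fintype E] [DecidableEq E] [Field K] [Algebra k K]

/-- A point `(t, w)` with values in `K`: the vector `t` is given by the evaluation `τ` of linear
forms at `t`, and `w` is a linear relation with coefficients in `K` between the forms `ℓ i`. -/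
structure Pt (ℓ : E → Dual k V) (K : Type) [Field K] [Algebra k K] where
  /-- evaluation of linear forms at `t` -/
  τ : Dual k V →ₗ[k] K
  /-- the coefficients of the relation -/
  w : E → K
  rel : ∀ v : V, ∑ i, ℓ i v • w i = 0

variable {ℓ : E → Dual k V}

namespace Pt

/-- `x i = ℓ i (t)`. -/
def x (P : Pt ℓ K) (i : E) : K := P.τ (ℓ i)

/-- `u i = ℓ i (t) ^ 2 w i`. -/
def u (P : Pt ℓ K) (i : E) : K := P.x i ^ 2 * P.w i

omit [DecidableEq E] in
lemma pair (P : Pt ℓ K) (θ : Dual k V →ₗ[k] K) : ∑ i, θ (ℓ i) * P.w i = 0 := by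
  classical
  let b := Module.finBasis k V
  have h1 : ∀ i, θ (ℓ i) = ∑ a, ℓ i (b a) • θ (b.coord a) := by
    intro i
    conv_lhs => rw [← b.sum_dual_apply_smul_coord (ℓ i)]
    rw [map_sum]
    exact Finset.sum_congr rfl fun a _ => map_smul _ _ _
  calc ∑ i, θ (ℓ i) * P.w i = ∑ i, ∑ a, θ (b.coord a) * (ℓ i (b a) • P.w i) := by
        refine Finset.sum_congr rfl fun i _ => ?_
        rw [h1, Finset.sum_mul]
        refine Finset.sum_congr rfl fun a _ => ?_
        rw [smul_mul_assoc, mul_smul_comm]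
    _ = ∑ a, θ (b.coord a) * ∑ i, ℓ i (b a) • P.w i := by
        rw [Finset.sum_comm]
        exact Finset.sum_congr rfl fun a _ => (Finset.mul_sum _ _ _).symm
    _ = 0 := by
        refine Finset.sum_eq_zero fun a _ => ?_
        rw [P.rel, mul_zero]

omit [DecidableEq E] [FiniteDimensional k V] in
/-- The sum over a subset is minus the sum over the complement. -/
lemma sum_split (P : Pt ℓ K) (G : Finset E) (v : V) [DecidableEq E] :
    ∑ i ∈ G, ℓ i v • P.w i = - ∑ i ∈ Gᶜ, ℓ i v • P.w i := by
  rw [eq_neg_iff_add_eq_zero, Finset.sum_add_sum_compl, P.rel]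

end Pt

omit [FiniteDimensional k V] [DecidableEq E] in
/-- The residues of the `u i`, `i ∈ G`, are algebraically dependent. -/
lemma key (P : Pt ℓ K) {O : ValuationSubring K} (hk : Over k O) (G : Finset E) (j : E)
    (hj : j ∈ G) (hxj : P.x j ≠ 0)
    (hG : ∀ i ∈ G, O.valuation (P.x i) = O.valuation (P.x j))
    (hw : ∀ i ∈ G, O.valuation (P.w i * P.x j ^ 2) ≤ 1)
    (V₁ : Submodule k V)
    (h2 : ∀ v ∈ V₁, O.valuation ((∑ i ∈ G, ℓ i v • P.w i) * P.x j ^ 2) < 1)
    (h3 : ∀ φ : Dual k V, φ ∈ Submodule.span k (Set.range ℓ) → (∀ v ∈ V₁, φ v = 0) →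
      O.valuation (P.τ φ) < O.valuation (P.x j)) :
    letI := resAlg hk
    ¬ AlgebraicIndependent k (fun i : G => rs O (P.u i)) := by
  let := resAlg hk
  have hvj : 0 < O.valuation (P.x j) := zero_lt_iff.mpr ((_root_.map_ne_zero _).mpr hxj)
  let y : G → RF O := fun i => rs O (P.x i / P.x j)
  let z : G → RF O := fun i => rs O (P.w i * P.x j ^ 2)
  have hym : ∀ i : G, P.x i / P.x j ∈ O := by
    intro i
    rw [mem_iff, map_div₀, hG i i.2, div_self hvj.ne']
  have hzm : ∀ i : G, P.w i * P.x j ^ 2 ∈ O := fun i => mem_iff.mpr (hw i i.2)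
  have hu : (fun i : G => rs O (P.u i)) = fun i => y i ^ 2 * z i := by
    funext i
    have h1 : P.u i = (P.x i / P.x j) ^ 2 * (P.w i * P.x j ^ 2) := by
      rw [Pt.u]
      field_simp
    rw [h1, rs_mul (pow_mem (hym i) 2) (hzm i), rs_pow (hym i)]
  rw [hu]
  let L : V →ₗ[k] (G → k) := LinearMap.pi (fun i : G => ℓ i)
  refine not_algInd (V₁.map L) y z ?_ ?_ ⟨j, hj⟩ ?_
  · rintro _ ⟨v, hv, rfl⟩
    have h4 : ∑ i : G, L v i • z i = rs O ((∑ i ∈ G, ℓ i v • P.w i) * P.x j ^ 2) := by
      rw [← Finset.sum_coe_sort G (fun i => ℓ i v • P.w i), Finset.sum_mul, rs_sum]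
      · refine Finset.sum_congr rfl fun i _ => ?_
        rw [smul_mul_assoc, rs_smul hk _ (hzm i)]
        rfl
      · intro i _
        rw [smul_mul_assoc]
        exact hk.smul_mem _ (hzm i)
    rw [h4, rs_eq_zero (mem_iff.mpr (h2 v hv).le)]
    exact h2 v hv
  · intro c hc
    let φ : Dual k V := ∑ i : G, c i • ℓ i
    have hφ : ∀ v ∈ V₁, φ v = 0 := by
      intro v hv
      have h5 := hc (L v) ⟨v, hv, rfl⟩
      rw [← h5]
      simp only [φ, LinearMap.sum_apply, LinearMap.smul_apply, smul_eq_mul]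
      refine Finset.sum_congr rfl fun i _ => ?_
      rw [mul_comm]
      rfl
    have hφs : φ ∈ Submodule.span k (Set.range ℓ) :=
      Submodule.sum_mem _ fun i _ => Submodule.smul_mem _ _ (Submodule.subset_span ⟨i, rfl⟩)
    have h6 := h3 φ hφs hφ
    have h7 : ∑ i : G, c i • y i = rs O (P.τ φ / P.x j) := by
      have h8 : P.τ φ / P.x j = ∑ i : G, c i • (P.x i / P.x j) := by
        simp only [φ, map_sum, map_smul, Finset.sum_div]
        refine Finset.sum_congr rfl fun i _ => ?_
        rw [smul_div_assoc]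
        rfl
      rw [h8, rs_sum]
      · refine Finset.sum_congr rfl fun i _ => ?_
        rw [rs_smul hk _ (hym i)]
      · intro i _
        exact hk.smul_mem _ (hym i)
    have h9 : O.valuation (P.τ φ / P.x j) < 1 := by
      rw [map_div₀]
      exact (div_lt_one₀ hvj).mpr h6
    rw [h7, rs_eq_zero (mem_iff.mpr h9.le)]
    exact h9
  · change rs O (P.x j / P.x j) = 1
    rw [div_self hxj, rs_one]

/-- Integrality of `u e`: if all `u i`, `i ≠ e`, lie in `O`, so does `w e` (here `x e = 1`). -/
lemma int_e (P : Pt ℓ K) {O : ValuationSubring K} (hk : Over k O) {e : E}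
    (h1 : P.τ (ℓ e) = 1) (hu : ∀ i, i ≠ e → O.valuation (P.u i) ≤ 1) :
    O.valuation (P.w e) ≤ 1 := by
  classical
  -- the forms with small value at `t`
  let U : Submodule k (Dual k V) :=
    { carrier := {φ | O.valuation (P.τ φ) < 1}
      add_mem' := by
        intro a b ha hb
        simp only [Set.mem_ofPred_eq, map_add] at ha hb ⊢
        exact (O.valuation.map_add _ _).trans_lt (max_lt ha hb)
      zero_mem' := by simp
      smul_mem' := by
        intro c a ha
        simp only [Set.mem_ofPred_eq, map_smul] at ha ⊢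
        exact (hk.val_smul_le c _).trans_lt ha }
  have he : ℓ e ∉ U := by
    intro h
    have h2 : O.valuation (P.τ (ℓ e)) < 1 := h
    rw [h1, map_one] at h2
    exact lt_irrefl _ h2
  obtain ⟨v₁, hv₁, hv₁e⟩ : ∃ v₁ : V, (∀ φ ∈ U, φ v₁ = 0) ∧ ℓ e v₁ ≠ 0 := by
    by_contra hcon
    push Not at hcon
    apply he
    have h2 : U.dualCoannihilator.dualAnnihilator = U :=
      Subspace.dualCoannihilator_dualAnnihilator_eq
    rw [← h2, Submodule.mem_dualAnnihilator]
    intro v hv
    exact hcon v fun φ hφ => (Submodule.mem_dualCoannihilator v).mp hv φ hφ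
  have h3 : ℓ e v₁ • P.w e = - ∑ i ∈ Finset.univ.erase e, ℓ i v₁ • P.w i := by
    rw [eq_neg_iff_add_eq_zero, Finset.add_sum_erase _ (fun i => ℓ i v₁ • P.w i)
      (Finset.mem_univ e), P.rel]
  rw [← hk.val_smul hv₁e, h3, Valuation.map_neg]
  refine Valuation.map_sum_le _ fun i hi => ?_
  have hie : i ≠ e := Finset.ne_of_mem_erase hi
  by_cases hiU : ℓ i ∈ U
  · rw [hv₁ _ hiU, zero_smul, map_zero]
    exact zero_le
  · refine (hk.val_smul_le _ _).trans ?_
    have h4 : 1 ≤ O.valuation (P.x i) := not_lt.mp hiU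
    have h5 := hu i hie
    rw [Pt.u, map_mul, map_pow] at h5
    have h6 : 1 ≤ O.valuation (P.x i) ^ 2 := one_le_pow₀ h4
    calc O.valuation (P.w i) ≤ O.valuation (P.x i) ^ 2 * O.valuation (P.w i) :=
          le_mul_of_one_le_left' h6
      _ ≤ 1 := h5

/-- The hypotheses for the study of the places above `u f = 0`. -/
structure Hyp (P : Pt ℓ K) (e f : E) (O : ValuationSubring K) : Prop where
  hk : Over k O
  one : P.τ (ℓ e) = 1
  hfe : f ≠ e
  loop : ℓ f ≠ 0
  coloop : ℓ f ∈ Submodule.span k (ℓ '' {i | i ≠ f})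
  span : Submodule.span k (Set.range ℓ) = ⊤
  u1 : ∀ i, i ≠ e → i ≠ f → O.valuation (P.u i) = 1
  uf0 : P.u f ≠ 0
  uf : O.valuation (P.u f) < 1
  res : letI := resAlg hk
    AlgebraicIndependent k (fun i : {i : E // i ≠ e ∧ i ≠ f} => rs O (P.u i))

namespace Hyp

variable {P : Pt ℓ K} {e f : E} {O : ValuationSubring K}

include P

omit [DecidableEq E] [FiniteDimensional k V] in
lemma xe (h : Hyp P e f O) : O.valuation (P.x e) = 1 := by
  rw [Pt.x, h.one, map_one]

omit [DecidableEq E] [FiniteDimensional k V] in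
lemma mulu (h : Hyp P e f O) (i : E) (hie : i ≠ e) (hif : i ≠ f) :
    O.valuation (P.x i) ^ 2 * O.valuation (P.w i) = 1 := by
  rw [← map_pow, ← map_mul]
  exact h.u1 i hie hif

omit [DecidableEq E] [FiniteDimensional k V] in
lemma xpos (h : Hyp P e f O) (i : E) : 0 < O.valuation (P.x i) := by
  rw [zero_lt_iff]
  by_cases hie : i = e
  · rw [hie, h.xe]; exact one_ne_zero
  by_cases hif : i = f
  · subst hif
    intro h0
    rw [_root_.map_eq_zero] at h0
    apply h.uf0
    rw [Pt.u, h0]
    simp
  · intro h0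
    have := h.mulu i hie hif
    rw [h0] at this
    simp at this

lemma we (h : Hyp P e f O) : O.valuation (P.w e) ≤ 1 := by
  refine int_e P h.hk h.one fun i hi => ?_
  by_cases hif : i = f
  · subst hif; exact h.uf.le
  · exact (h.u1 i hi hif).le

omit [DecidableEq E] [FiniteDimensional k V] in
lemma dep (h : Hyp P e f O) (G : Finset E) (hG : ∀ i ∈ G, i ≠ e ∧ i ≠ f) :
    letI := resAlg h.hk
    AlgebraicIndependent k (fun i : G => rs O (P.u i)) := by
  let := resAlg h.hk
  have h1 := h.res
  let g : G → {i : E // i ≠ e ∧ i ≠ f} := fun i => ⟨i, hG i i.2⟩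
  have hg : Function.Injective g := by
    intro a b hab
    simp only [g, Subtype.mk.injEq] at hab
    exact Subtype.ext hab
  exact h1.comp g hg

omit [FiniteDimensional k V] in
/-- A relation between the forms in which `ℓ f` has the dominating coefficient is impossible. -/
lemma dom (h : Hyp P e f O) (W : E → K) (hW : ∀ v : V, ∑ i, ℓ i v • W i = 0)
    (hlt : ∀ i, i ≠ f → O.valuation (W i) < O.valuation (W f)) : False := by
  apply h.loop
  ext v
  by_contra hv
  rw [LinearMap.zero_apply] at hv
  have h1 : ℓ f v • W f = - ∑ i ∈ Finset.univ.erase f, ℓ i v • W i := by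
    rw [eq_neg_iff_add_eq_zero, Finset.add_sum_erase _ (fun i => ℓ i v • W i)
      (Finset.mem_univ f), hW]
  have hWf : O.valuation (W f) ≠ 0 := by
    have := hlt e h.hfe.symm
    exact (lt_of_le_of_lt zero_le this).ne'
  have h2 : O.valuation (W f) < O.valuation (W f) := by
    conv_lhs => rw [← h.hk.val_smul hv, h1, Valuation.map_neg]
    refine Valuation.map_sum_lt _ hWf fun i hi => ?_
    exact (h.hk.val_smul_le _ _).trans_lt (hlt i (Finset.ne_of_mem_erase hi))
  exact lt_irrefl _ h2

/-- No `x i`, `i ≠ e, f`, lies in the maximal ideal. -/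
lemma stepB (h : Hyp P e f O) (i : E) (hie : i ≠ e) (hif : i ≠ f) :
    1 ≤ O.valuation (P.x i) := by
  classical
  by_contra hlt
  push Not at hlt
  let S : Finset E := Finset.univ.filter (fun i => i ≠ e ∧ i ≠ f)
  have hS : S.Nonempty := ⟨i, by simp [S, hie, hif]⟩
  obtain ⟨j, hjS, hj⟩ := S.exists_min_image (fun i => O.valuation (P.x i)) hS
  have hje : j ≠ e := (Finset.mem_filter.mp hjS).2.1
  have hjf : j ≠ f := (Finset.mem_filter.mp hjS).2.2
  have hj1 : O.valuation (P.x j) < 1 := (hj i (by simp [S, hie, hif])).trans_lt hlt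
  have hmin : ∀ i, i ≠ e → i ≠ f → O.valuation (P.x j) ≤ O.valuation (P.x i) :=
    fun i h1 h2 => hj i (by simp [S, h1, h2])
  have hpos := h.xpos j
  have hxj : P.x j ≠ 0 := fun h0 => by rw [h0, map_zero] at hpos; exact lt_irrefl _ hpos
  let G : Finset E := S.filter (fun i => O.valuation (P.x i) = O.valuation (P.x j))
  have hjG : j ∈ G := by simp [G, hjS]
  have hGS : ∀ i ∈ G, i ≠ e ∧ i ≠ f := fun i hi =>
    (Finset.mem_filter.mp (Finset.mem_filter.mp hi).1).2
  -- the scaled relation
  let W : E → K := fun i => P.w i * P.x j ^ 2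
  have hWrel : ∀ v : V, ∑ i, ℓ i v • W i = 0 := by
    intro v
    have : ∑ i, ℓ i v • W i = (∑ i, ℓ i v • P.w i) * P.x j ^ 2 := by
      rw [Finset.sum_mul]
      exact Finset.sum_congr rfl fun i _ => (smul_mul_assoc _ _ _).symm
    rw [this, P.rel, zero_mul]
  have hWv : ∀ i, O.valuation (W i) = O.valuation (P.w i) * O.valuation (P.x j) ^ 2 := by
    intro i
    rw [map_mul, map_pow]
  have hj2 : O.valuation (P.x j) ^ 2 < 1 := pow_lt_one₀ zero_le hj1 two_ne_zero
  have hWe : O.valuation (W e) < 1 := by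
    rw [hWv]
    exact (mul_le_of_le_one_left' h.we).trans_lt hj2
  have hWi : ∀ i, i ≠ e → i ≠ f → O.valuation (W i) ≤ 1 ∧
      (O.valuation (P.x i) ≠ O.valuation (P.x j) → O.valuation (W i) < 1) := by
    intro i h1 h2
    have h3 := h.mulu i h1 h2
    have h4 := hmin i h1 h2
    have h5 : O.valuation (P.w i) ≠ 0 := by
      intro h0; rw [h0, mul_zero] at h3; exact zero_ne_one h3
    rw [hWv, ← h3, mul_comm (O.valuation (P.x i) ^ 2)]
    constructor
    · exact mul_le_mul_right (pow_le_pow_left₀ zero_le h4 2) _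
    · intro hne
      have h6 : O.valuation (P.x j) < O.valuation (P.x i) := lt_of_le_of_ne h4 (Ne.symm hne)
      have h7 : O.valuation (P.x j) ^ 2 < O.valuation (P.x i) ^ 2 :=
        pow_lt_pow_left₀ h6 zero_le two_ne_zero
      exact (mul_lt_mul_iff_right₀ (zero_lt_iff.mpr h5)).mpr h7
  have hWf : O.valuation (W f) ≤ 1 := by
    by_contra hcon
    push Not at hcon
    apply h.dom W hWrel
    intro i hi
    by_cases hie' : i = e
    · rw [hie']; exact hWe.trans hcon
    · exact (hWi i hie' hi).1.trans_lt hcon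
  -- the subspace
  let V₁ : Submodule k V := if O.valuation (W f) = 1 then LinearMap.ker (ℓ f) else ⊤
  have hV₁ : ∀ v ∈ V₁, O.valuation (ℓ f v • W f) < 1 := by
    intro v hv
    by_cases hc : O.valuation (W f) = 1
    · simp only [V₁, if_pos hc, LinearMap.mem_ker] at hv
      rw [hv, zero_smul, map_zero]
      exact zero_lt_one
    · exact (h.hk.val_smul_le _ _).trans_lt (lt_of_le_of_ne hWf hc)
  have h2 : ∀ v ∈ V₁, O.valuation ((∑ i ∈ G, ℓ i v • P.w i) * P.x j ^ 2) < 1 := by
    intro v hv
    have h3 : (∑ i ∈ G, ℓ i v • P.w i) * P.x j ^ 2 = - ∑ i ∈ Gᶜ, ℓ i v • W i := by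
      rw [P.sum_split, neg_mul, Finset.sum_mul]
      congr 1
      exact Finset.sum_congr rfl fun i _ => smul_mul_assoc _ _ _
    rw [h3, Valuation.map_neg]
    refine Valuation.map_sum_lt _ one_ne_zero fun i hi => ?_
    rw [Finset.mem_compl] at hi
    by_cases hif' : i = f
    · rw [hif']; exact hV₁ v hv
    refine (h.hk.val_smul_le _ _).trans_lt ?_
    by_cases hie' : i = e
    · rw [hie']; exact hWe
    · refine (hWi i hie' hif').2 fun heq => hi ?_
      simp [G, S, hie', hif', heq]
  have h3 : ∀ φ : Dual k V, φ ∈ Submodule.span k (Set.range ℓ) → (∀ v ∈ V₁, φ v = 0) →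
      O.valuation (P.τ φ) < O.valuation (P.x j) := by
    intro φ _ hφ
    by_cases hc : O.valuation (W f) = 1
    · simp only [V₁, if_pos hc, LinearMap.mem_ker] at hφ
      have h4 : φ ∈ Submodule.span k (Set.range (fun _ : Unit => ℓ f)) := by
        apply mem_span_of_iInf_ker_le_ker
        intro v hv
        simp only [ciInf_unique, LinearMap.mem_ker] at hv
        exact hφ v hv
      rw [Set.range_const, Submodule.mem_span_singleton] at h4
      obtain ⟨a, rfl⟩ := h4
      rw [map_smul]
      refine (h.hk.val_smul_le _ _).trans_lt ?_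
      have h5 : O.valuation (P.x f) ^ 2 * O.valuation (P.w f) = O.valuation (P.u f) := by
        rw [← map_pow, ← map_mul]; rfl
      rw [hWv] at hc
      have h6 : O.valuation (P.w f) ≠ 0 := by
        intro h0; rw [h0, zero_mul] at hc; exact zero_ne_one hc
      have h7 : O.valuation (P.x f) ^ 2 < O.valuation (P.x j) ^ 2 := by
        have h8 : O.valuation (P.x f) ^ 2 * O.valuation (P.w f) <
            O.valuation (P.x j) ^ 2 * O.valuation (P.w f) := by
          rw [h5, mul_comm (O.valuation (P.x j) ^ 2), hc]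
          exact h.uf
        exact (mul_lt_mul_iff_left₀ (zero_lt_iff.mpr h6)).mp h8
      exact lt_of_pow_lt_pow_left₀ 2 zero_le h7
    · simp only [V₁, if_neg hc] at hφ
      have h4 : φ = 0 := by
        ext v
        exact hφ v trivial
      rw [h4, map_zero, map_zero]
      exact hpos
  refine key P h.hk G j hjG hxj ?_ ?_ V₁ h2 h3 (h.dep G hGS)
  · intro i hi
    exact (Finset.mem_filter.mp hi).2
  · intro i hi
    exact (hWi i (hGS i hi).1 (hGS i hi).2).1

/-- No `x i`, `i ≠ e, f`, lies outside `O`. -/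
lemma stepC (h : Hyp P e f O) (i : E) (hie : i ≠ e) (hif : i ≠ f) :
    O.valuation (P.x i) ≤ 1 := by
  classical
  by_contra hlt
  push Not at hlt
  let S : Finset E := Finset.univ.filter (fun i => i ≠ e ∧ i ≠ f)
  have hS : S.Nonempty := ⟨i, by simp [S, hie, hif]⟩
  obtain ⟨j, hjS, hj⟩ := S.exists_max_image (fun i => O.valuation (P.x i)) hS
  have hje : j ≠ e := (Finset.mem_filter.mp hjS).2.1
  have hjf : j ≠ f := (Finset.mem_filter.mp hjS).2.2
  have hj1 : 1 < O.valuation (P.x j) := hlt.trans_le (hj i (by simp [S, hie, hif]))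
  have hmax' : ∀ i, i ≠ f → O.valuation (P.x i) ≤ O.valuation (P.x j) := by
    intro i h1
    by_cases h2 : i = e
    · rw [h2, h.xe]; exact hj1.le
    · exact hj i (by simp [S, h1, h2])
  have hpos := h.xpos j
  have hxj : P.x j ≠ 0 := fun h0 => by rw [h0, map_zero] at hpos; exact lt_irrefl _ hpos
  -- the value at `f`
  let T : Submodule k (Dual k V) :=
    { carrier := {φ | O.valuation (P.τ φ) ≤ O.valuation (P.x j)}
      add_mem' := by
        intro a b ha hb
        simp only [Set.mem_ofPred_eq, map_add] at ha hb ⊢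
        exact (O.valuation.map_add _ _).trans (max_le ha hb)
      zero_mem' := by simp
      smul_mem' := by
        intro c a ha
        simp only [Set.mem_ofPred_eq, map_smul] at ha ⊢
        exact (h.hk.val_smul_le c _).trans ha }
  have hxf : O.valuation (P.x f) ≤ O.valuation (P.x j) := by
    have h1 : Submodule.span k (ℓ '' {i | i ≠ f}) ≤ T := by
      rw [Submodule.span_le]
      rintro _ ⟨i, hi, rfl⟩
      exact hmax' i hi
    exact h1 h.coloop
  have hmax : ∀ i, O.valuation (P.x i) ≤ O.valuation (P.x j) := by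
    intro i
    by_cases h1 : i = f
    · rw [h1]; exact hxf
    · exact hmax' i h1
  let G : Finset E := S.filter (fun i => O.valuation (P.x i) = O.valuation (P.x j))
  have hjG : j ∈ G := by simp [G, hjS]
  have hGS : ∀ i ∈ G, i ≠ e ∧ i ≠ f := fun i hi =>
    (Finset.mem_filter.mp (Finset.mem_filter.mp hi).1).2
  have hGx : ∀ i ∈ G, O.valuation (P.x i) = O.valuation (P.x j) := fun i hi =>
    (Finset.mem_filter.mp hi).2
  let V₁ : Submodule k V :=
    ⨅ i : {i // O.valuation (P.x i) < O.valuation (P.x j)}, LinearMap.ker (ℓ i)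
  have h2 : ∀ v ∈ V₁, O.valuation ((∑ i ∈ G, ℓ i v • P.w i) * P.x j ^ 2) < 1 := by
    intro v hv
    have hv' : ∀ i, O.valuation (P.x i) < O.valuation (P.x j) → ℓ i v = 0 := by
      intro i hi
      exact (Submodule.mem_iInf _).mp hv ⟨i, hi⟩
    have h3 : (∑ i ∈ G, ℓ i v • P.w i) * P.x j ^ 2 =
        - ∑ i ∈ Gᶜ, ℓ i v • (P.w i * P.x j ^ 2) := by
      rw [P.sum_split, neg_mul, Finset.sum_mul]
      congr 1
      exact Finset.sum_congr rfl fun i _ => smul_mul_assoc _ _ _
    rw [h3, Valuation.map_neg]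
    refine Valuation.map_sum_lt _ one_ne_zero fun i hi => ?_
    rw [Finset.mem_compl] at hi
    rcases lt_or_eq_of_le (hmax i) with h4 | h4
    · rw [hv' i h4, zero_smul, map_zero]
      exact zero_lt_one
    · have hie' : i ≠ e := by
        rintro rfl
        rw [h.xe] at h4
        rw [← h4] at hj1
        exact lt_irrefl _ hj1
      have hif' : i = f := by
        by_contra h5
        exact hi (by simp [G, S, hie', h5, h4])
      subst hif'
      refine (h.hk.val_smul_le _ _).trans_lt ?_
      rw [map_mul, map_pow, ← h4, mul_comm, ← map_pow, ← map_mul]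
      exact h.uf
  have h3 : ∀ φ : Dual k V, φ ∈ Submodule.span k (Set.range ℓ) → (∀ v ∈ V₁, φ v = 0) →
      O.valuation (P.τ φ) < O.valuation (P.x j) := by
    intro φ _ hφ
    have h4 : φ ∈ Submodule.span k
        (Set.range (fun i : {i // O.valuation (P.x i) < O.valuation (P.x j)} => ℓ i)) := by
      apply mem_span_of_iInf_ker_le_ker
      intro v hv
      exact hφ v hv
    let T' : Submodule k (Dual k V) :=
      { carrier := {φ | O.valuation (P.τ φ) < O.valuation (P.x j)}
        add_mem' := by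
          intro a b ha hb
          simp only [Set.mem_ofPred_eq, map_add] at ha hb ⊢
          exact (O.valuation.map_add _ _).trans_lt (max_lt ha hb)
        zero_mem' := by simpa using hpos
        smul_mem' := by
          intro c a ha
          simp only [Set.mem_ofPred_eq, map_smul] at ha ⊢
          exact (h.hk.val_smul_le c _).trans_lt ha }
    have h5 : Submodule.span k
        (Set.range (fun i : {i // O.valuation (P.x i) < O.valuation (P.x j)} => ℓ i)) ≤ T' := by
      rw [Submodule.span_le]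
      rintro _ ⟨i, rfl⟩
      exact i.2
    exact h5 h4
  refine key P h.hk G j hjG hxj hGx ?_ V₁ h2 h3 (h.dep G hGS)
  intro i hi
  rw [map_mul, map_pow, ← hGx i hi, mul_comm, h.mulu i (hGS i hi).1 (hGS i hi).2]

lemma x1 (h : Hyp P e f O) (i : E) (hif : i ≠ f) : O.valuation (P.x i) = 1 := by
  by_cases hie : i = e
  · rw [hie, h.xe]
  · exact le_antisymm (h.stepC i hie hif) (h.stepB i hie hif)

lemma xf (h : Hyp P e f O) : O.valuation (P.x f) ≤ 1 := by
  let T : Submodule k (Dual k V) :=
    { carrier := {φ | O.valuation (P.τ φ) ≤ 1}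
      add_mem' := by
        intro a b ha hb
        simp only [Set.mem_ofPred_eq, map_add] at ha hb ⊢
        exact (O.valuation.map_add _ _).trans (max_le ha hb)
      zero_mem' := by simp
      smul_mem' := by
        intro c a ha
        simp only [Set.mem_ofPred_eq, map_smul] at ha ⊢
        exact (h.hk.val_smul_le c _).trans ha }
  have h1 : Submodule.span k (ℓ '' {i | i ≠ f}) ≤ T := by
    rw [Submodule.span_le]
    rintro _ ⟨i, hi, rfl⟩
    exact (h.x1 i hi).le
  exact h1 h.coloop

lemma w1 (h : Hyp P e f O) (i : E) (hie : i ≠ e) (hif : i ≠ f) : O.valuation (P.w i) = 1 := by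
  have h1 := h.mulu i hie hif
  rwa [h.x1 i hif, one_pow, one_mul] at h1

lemma wf (h : Hyp P e f O) : O.valuation (P.w f) ≤ 1 := by
  by_contra hcon
  push Not at hcon
  apply h.dom P.w P.rel
  intro i hi
  by_cases hie : i = e
  · rw [hie]; exact h.we.trans_lt hcon
  · rw [h.w1 i hie hi]; exact hcon

lemma x_mem (h : Hyp P e f O) (i : E) : P.x i ∈ O := by
  rw [mem_iff]
  by_cases hif : i = f
  · rw [hif]; exact h.xf
  · exact (h.x1 i hif).le

lemma w_mem (h : Hyp P e f O) (i : E) : P.w i ∈ O := by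
  rw [mem_iff]
  by_cases hif : i = f
  · rw [hif]; exact h.wf
  by_cases hie : i = e
  · rw [hie]; exact h.we
  · exact (h.w1 i hie hif).le

lemma or (h : Hyp P e f O) : O.valuation (P.w f) < 1 ∨ O.valuation (P.x f) < 1 := by
  by_contra hcon
  push Not at hcon
  have h1 := h.uf
  rw [Pt.u, map_mul, map_pow, le_antisymm h.wf hcon.1, le_antisymm h.xf hcon.2] at h1
  simp at h1

end Hyp

end Pool.Agent.TH142.Recip
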