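import Mathlib
import Pool.Agent.TH142.Recip.Gen
import Pool.Agent.TH142.Recip.Fields
import Pool.Agent.TH142.Recip.Count

/-!
The recursion for the degree.
-/

set_option linter.unusedSectionVars false

namespace Pool.Agent.TH142.Recip

open Module

variable {k V E K : Type} [Field k] [AddCommGroup V] [Module k V] [FiniteDimensional k V]
  [Fintype E] [DecidableEq E] [Field K] [Algebra k K]

variable {ℓ : E → Dual k V}

/-- The point `(t, w)` is generic in the chart `ℓ e (t) = 1`, and `K` is its field of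
definition. -/
structure IsGen (P : Pt ℓ K) (e : E) : Prop where
  one : P.τ (ℓ e) = 1
  gen : IntermediateField.adjoin k (Set.range P.x ∪ Set.range P.w) = ⊤
  tr : Algebra.trdeg k K = ((Fintype.card E - 1 : ℕ) : Cardinal)

/-- The degree of `K` over the field generated by the `u i`, `i ≠ e`. -/
noncomputable def dg (P : Pt ℓ K) (e : E) : ℕ :=
  finrank (IntermediateField.adjoin k (Set.range (fun i : {i : E // i ≠ e} => P.u i))) K

omit [FiniteDimensional k V] in
lemma card_sub (e : E) : Fintype.card {i : E // i ≠ e} = Fintype.card E - 1 := by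
  simp [Fintype.card_subtype_compl]

lemma IsGen.algInd {P : Pt ℓ K} {e : E} (h : IsGen P e) (h0 : dg P e ≠ 0) :
    AlgebraicIndependent k (fun i : {i : E // i ≠ e} => P.u i) := by
  apply algInd_of_finrank _ _ h0
  rw [h.tr, Cardinal.mk_fintype, card_sub]

lemma IsGen.isAlgebraic {P : Pt ℓ K} {e : E} (h : IsGen P e)
    (hind : AlgebraicIndependent k (fun i : {i : E // i ≠ e} => P.u i)) :
    Algebra.IsAlgebraic
      (IntermediateField.adjoin k (Set.range (fun i : {i : E // i ≠ e} => P.u i))) K := by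
  apply isAlgebraic_of_algInd hind
  rw [h.tr, Cardinal.mk_fintype, card_sub]

lemma IsGen.finite {P : Pt ℓ K} {e : E} (h : IsGen P e)
    (hind : AlgebraicIndependent k (fun i : {i : E // i ≠ e} => P.u i)) :
    FiniteDimensional
      (IntermediateField.adjoin k (Set.range (fun i : {i : E // i ≠ e} => P.u i))) K := by
  have := h.isAlgebraic hind
  exact finite_of_isAlgebraic _ ((Set.finite_range P.x).union (Set.finite_range P.w)) h.gen

lemma IsGen.dg_ne_zero {P : Pt ℓ K} {e : E} (h : IsGen P e)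
    (hind : AlgebraicIndependent k (fun i : {i : E // i ≠ e} => P.u i)) : dg P e ≠ 0 := by
  have := h.finite hind
  exact (Module.finrank_pos).ne'

/-- The field generated by a point. -/
def fld (Q : Pt ℓ K) : IntermediateField k K :=
  IntermediateField.adjoin k (Set.range Q.x ∪ Set.range Q.w)

lemma fld_x (Q : Pt ℓ K) (i : E) : Q.x i ∈ fld Q :=
  IntermediateField.subset_adjoin k _ (Or.inl ⟨i, rfl⟩)

lemma fld_w (Q : Pt ℓ K) (i : E) : Q.w i ∈ fld Q :=
  IntermediateField.subset_adjoin k _ (Or.inr ⟨i, rfl⟩)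

lemma fld_τ (Q : Pt ℓ K) (hs : Submodule.span k (Set.range ℓ) = ⊤) (φ : Dual k V) :
    Q.τ φ ∈ fld Q := by
  have h : φ ∈ Submodule.span k (Set.range ℓ) := by rw [hs]; trivial
  induction h using Submodule.span_induction with
  | mem x hx => obtain ⟨i, rfl⟩ := hx; exact fld_x Q i
  | zero => rw [map_zero]; exact zero_mem _
  | add x y _ _ hx hy => rw [map_add]; exact add_mem hx hy
  | smul a x _ hx => rw [map_smul]; exact (fld Q).smul_mem hx

/-- The point over its field of definition. -/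
def Pt.low (Q : Pt ℓ K) (hs : Submodule.span k (Set.range ℓ) = ⊤) : Pt ℓ (fld Q) where
  τ :=
    { toFun := fun φ => ⟨Q.τ φ, fld_τ Q hs φ⟩
      map_add' := fun a b => Subtype.ext (map_add _ _ _)
      map_smul' := fun c a => Subtype.ext (map_smul _ _ _) }
  w := fun i => ⟨Q.w i, fld_w Q i⟩
  rel := by
    intro v
    apply Subtype.ext
    have h := Q.rel v
    rw [IntermediateField.coe_sum]
    exact h

lemma Pt.low_x (Q : Pt ℓ K) (hs : Submodule.span k (Set.range ℓ) = ⊤) (i : E) :
    (((Q.low hs).x i : fld Q) : K) = Q.x i := rfl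

lemma Pt.low_w (Q : Pt ℓ K) (hs : Submodule.span k (Set.range ℓ) = ⊤) (i : E) :
    (((Q.low hs).w i : fld Q) : K) = Q.w i := rfl

lemma Pt.low_u (Q : Pt ℓ K) (hs : Submodule.span k (Set.range ℓ) = ⊤) (i : E) :
    (((Q.low hs).u i : fld Q) : K) = Q.u i := rfl

lemma trdeg_fld_le (Q : Pt ℓ K) (e : E) (h1 : Q.τ (ℓ e) = 1) :
    Algebra.trdeg k (fld Q) ≤ ((Fintype.card E - 1 : ℕ) : Cardinal) := by
  let L : V →ₗ[k] (E → k) := LinearMap.pi ℓ
  refine trdeg_bound (LinearMap.range L) Q.x Q.w ?_ ?_ e h1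
  · rintro _ ⟨v, rfl⟩
    exact Q.rel v
  · intro c hc
    have h2 : ∑ i, c i • ℓ i = 0 := by
      ext v
      have h3 := hc (L v) ⟨v, rfl⟩
      rw [LinearMap.zero_apply, ← h3]
      simp only [LinearMap.sum_apply, LinearMap.smul_apply, smul_eq_mul]
      exact Finset.sum_congr rfl fun i _ => mul_comm _ _
    have h4 : ∑ i, c i • Q.x i = Q.τ (∑ i, c i • ℓ i) := by
      rw [map_sum]
      exact Finset.sum_congr rfl fun i _ => (map_smul _ _ _).symm
    rw [h4, h2, map_zero]

/-- The adjunction of one element `g` to the field of definition of `Q` gives `K`. -/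
structure Ext (Q : Pt ℓ K) (e : E) (g : K) : Prop where
  span : Submodule.span k (Set.range ℓ) = ⊤
  one : Q.τ (ℓ e) = 1
  gen : IntermediateField.adjoin k ((fld Q : Set K) ∪ {g}) = ⊤
  tr : ((Fintype.card E : ℕ) : Cardinal) ≤ Algebra.trdeg k K

lemma Ext.step {Q : Pt ℓ K} {e : E} {g : K} (h : Ext Q e g) :
    Transcendental (fld Q) g ∧
      Algebra.trdeg k (fld Q) = ((Fintype.card E - 1 : ℕ) : Cardinal) := by
  have hpos : 0 < Fintype.card E := Fintype.card_pos_iff.mpr ⟨e⟩
  refine trdeg_step (fld Q) g h.gen _ ?_ (trdeg_fld_le Q e h.one)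
  rw [Nat.sub_add_cancel hpos]
  exact h.tr

lemma Ext.isGen {Q : Pt ℓ K} {e : E} {g : K} (h : Ext Q e g) : IsGen (Q.low h.span) e where
  one := Subtype.ext h.one
  gen := by
    apply IntermediateField.map_injective (fld Q).val
    rw [IntermediateField.adjoin_map]
    have h2 : (fld Q).val '' (Set.range (Q.low h.span).x ∪ Set.range (Q.low h.span).w) =
        Set.range Q.x ∪ Set.range Q.w := by
      rw [Set.image_union, ← Set.range_comp, ← Set.range_comp]
      rfl
    rw [h2]
    change fld Q = _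
    ext x
    simp
  tr := h.step.2

lemma Ext.g_ne {Q : Pt ℓ K} {e : E} {g : K} (h : Ext Q e g) : g ≠ 0 := by
  rintro rfl
  exact h.step.1 isAlgebraic_zero

lemma Ext.Gen {Q : Pt ℓ K} {e : E} {g : K} (h : Ext Q e g) : Gen (fld Q).toSubfield g := by
  have h1 : IntermediateField.adjoin (fld Q) ({g} : Set K) = ⊤ := by
    rw [eq_top_iff]
    intro y _
    have hy : y ∈ IntermediateField.adjoin k ((fld Q : Set K) ∪ {g}) := by rw [h.gen]; trivial
    have hle : IntermediateField.adjoin k ((fld Q : Set K) ∪ {g}) ≤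
        (IntermediateField.adjoin (fld Q) ({g} : Set K)).restrictScalars k := by
      rw [IntermediateField.adjoin_le_iff]
      rintro x (hx | hx)
      · exact (IntermediateField.adjoin (fld Q) ({g} : Set K)).algebraMap_mem ⟨x, hx⟩
      · exact IntermediateField.subset_adjoin (fld Q) _ hx
    exact hle hy
  intro y
  have hy : y ∈ IntermediateField.adjoin (fld Q) ({g} : Set K) := by rw [h1]; trivial
  obtain ⟨P, R, hPR⟩ := (IntermediateField.mem_adjoin_simple_iff (fld Q) y).mp hy
  by_cases hR : Polynomial.aeval g R = 0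
  · refine ⟨0, 1, by simp, ?_⟩
    rw [hPR, hR, div_zero, map_zero, zero_div]
  · exact ⟨P, R, hR, hPR⟩

/-- Deletion of `f`: `r` is a linear relation over `k` with `r f = 1`. -/
def Pt.del (P : Pt ℓ K) (f : E) (r : E → k) (hr : ∑ i, r i • ℓ i = 0) (hrf : r f = 1) :
    Pt (fun i : {i : E // i ≠ f} => ℓ i) K where
  τ := P.τ
  w := fun i => P.w i - r i • P.w f
  rel := by
    intro v
    have h1 : ∑ i : {i : E // i ≠ f}, ℓ i v • (P.w i - r i • P.w f) =
        ∑ i ∈ Finset.univ.erase f, ℓ i v • (P.w i - r i • P.w f) := by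
      rw [Finset.sum_subtype (Finset.univ.erase f) (p := fun i => i ≠ f) (by simp)]
    have h2 : ∑ i, ℓ i v • (P.w i - r i • P.w f) = 0 := by
      simp only [smul_sub, Finset.sum_sub_distrib]
      rw [P.rel, zero_sub, neg_eq_zero]
      have h3 := congrArg (fun φ : Dual k V => φ v) hr
      simp only [LinearMap.sum_apply, LinearMap.smul_apply, LinearMap.zero_apply,
        smul_eq_mul] at h3
      calc ∑ i, ℓ i v • r i • P.w f = (∑ i, r i * ℓ i v) • P.w f := by
            rw [Finset.sum_smul]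
            exact Finset.sum_congr rfl fun i _ => by rw [smul_smul, mul_comm]
        _ = 0 := by rw [h3, zero_smul]
    rw [h1]
    rw [← Finset.add_sum_erase _ _ (Finset.mem_univ f), hrf, one_smul, sub_self, smul_zero,
      zero_add] at h2
    exact h2

/-- The restriction of the forms to the hyperplane `ℓ f = 0`. -/
abbrev ctr (ℓ : E → Dual k V) (f : E) :
    {i : E // i ≠ f} → Dual k (LinearMap.ker (ℓ f)) :=
  fun i => (ℓ i).comp (LinearMap.ker (ℓ f)).subtype

/-- The projection of `V` onto the hyperplane `ℓ f = 0` along `v₀`. -/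
def prj (φ : Dual k V) (v₀ : V) (h : φ v₀ = 1) : V →ₗ[k] LinearMap.ker φ :=
  LinearMap.codRestrict _ (LinearMap.id - (LinearMap.toSpanSingleton k V v₀).comp φ) (by
    intro v
    simp [h])

lemma prj_apply (φ : Dual k V) (v₀ : V) (h : φ v₀ = 1) (v : V) :
    ((prj φ v₀ h v : LinearMap.ker φ) : V) = v - φ v • v₀ := rfl

/-- Contraction of `f`: `v₀` is a vector with `ℓ f v₀ = 1`. -/
def Pt.con (P : Pt ℓ K) (f : E) (v₀ : V) (h : ℓ f v₀ = 1) : Pt (ctr ℓ f) K where
  τ := P.τ.comp (prj (ℓ f) v₀ h).dualMap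
  w := fun i => P.w i
  rel := by
    intro v
    have h1 : ∑ i : {i : E // i ≠ f}, ctr ℓ f i v • P.w i =
        ∑ i ∈ Finset.univ.erase f, ℓ i (v : V) • P.w i := by
      rw [Finset.sum_subtype (Finset.univ.erase f) (p := fun i => i ≠ f) (by simp)]
      rfl
    rw [h1]
    have h2 := P.rel (v : V)
    rw [← Finset.add_sum_erase _ _ (Finset.mem_univ f)] at h2
    have h3 : ℓ f (v : V) = 0 := v.2
    rwa [h3, zero_smul, zero_add] at h2

lemma Pt.con_x (P : Pt ℓ K) (f : E) (v₀ : V) (h : ℓ f v₀ = 1) (i : {i : E // i ≠ f}) :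
    (P.con f v₀ h).x i = P.x i - ℓ i v₀ • P.x f := by
  have h1 : (prj (ℓ f) v₀ h).dualMap (ctr ℓ f i) = ℓ i - ℓ i v₀ • ℓ f := by
    ext v
    simp only [LinearMap.dualMap_apply, LinearMap.comp_apply, Submodule.subtype_apply, prj_apply,
      map_sub, map_smul, LinearMap.sub_apply, LinearMap.smul_apply, smul_eq_mul]
    rw [mul_comm]
  change P.τ ((prj (ℓ f) v₀ h).dualMap (ctr ℓ f i)) = _
  rw [h1, map_sub, map_smul]
  rfl

lemma span_del {f : E} (hs : Submodule.span k (Set.range ℓ) = ⊤)
    (hc : ℓ f ∈ Submodule.span k (ℓ '' {i | i ≠ f})) :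
    Submodule.span k (Set.range (fun i : {i : E // i ≠ f} => ℓ i)) = ⊤ := by
  rw [← hs]
  apply le_antisymm
  · apply Submodule.span_mono
    rintro _ ⟨i, rfl⟩
    exact ⟨i, rfl⟩
  · rw [Submodule.span_le]
    rintro _ ⟨i, rfl⟩
    have h1 : (ℓ '' {i | i ≠ f}) = Set.range (fun i : {i : E // i ≠ f} => ℓ i) := by
      ext φ
      constructor
      · rintro ⟨i, hi, rfl⟩
        exact ⟨⟨i, hi⟩, rfl⟩
      · rintro ⟨i, rfl⟩
        exact ⟨i, i.2, rfl⟩
    by_cases hi : i = f
    · rw [hi]
      rw [h1] at hc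
      exact hc
    · exact Submodule.subset_span ⟨⟨i, hi⟩, rfl⟩

lemma span_con {f : E} (hs : Submodule.span k (Set.range ℓ) = ⊤) :
    Submodule.span k (Set.range (ctr ℓ f)) = ⊤ := by
  rw [eq_top_iff]
  intro ψ _
  -- extend `ψ` to `V`
  obtain ⟨φ, hφ⟩ := LinearMap.dualMap_surjective_of_injective
    (Submodule.subtype_injective (LinearMap.ker (ℓ f))) ψ
  have h1 : φ ∈ Submodule.span k (Set.range ℓ) := by rw [hs]; trivial
  have h2 : Submodule.span k (Set.range ℓ) ≤
      (Submodule.span k (Set.range (ctr ℓ f))).comap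
        (LinearMap.ker (ℓ f)).subtype.dualMap := by
    rw [Submodule.span_le]
    rintro _ ⟨i, rfl⟩
    by_cases hi : i = f
    · have h3 : (LinearMap.ker (ℓ f)).subtype.dualMap (ℓ i) = 0 := by
        subst hi
        ext v
        exact v.2
      simp only [Submodule.comap_coe, Set.mem_preimage, h3]
      exact zero_mem _
    · exact Submodule.subset_span ⟨⟨i, hi⟩, rfl⟩
  have h4 := h2 h1
  rw [Submodule.mem_comap, hφ] at h4
  exact h4

end Pool.Agent.TH142.Recip
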