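import Mathlib
import Pool.Agent.TH142.Recip.Rec

/-!
The elements `u i` generate the function field.
-/

set_option linter.unusedSectionVars false
set_option maxHeartbeats 1000000

namespace Pool.Agent.TH142.Recip

open Module

section

open scoped IntermediateField.algebraAdjoinAdjoin TensorProduct

variable {k K : Type} [Field k] [Field K] [Algebra k K]

/-- Extension of derivations along formally etale algebras. -/
lemma ext_der {S : Type} [CommRing S] [Algebra k S] [Algebra S K] [IsScalarTower k S K]
    [Algebra.FormallyEtale S K] (d : Derivation k S K) :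
    ∃ δ : Derivation k K K, ∀ s : S, δ (algebraMap S K s) = d s := by
  let L : K ⊗[S] KaehlerDifferential k S →ₗ[K] K :=
    LinearMap.liftBaseChange K d.liftKaehlerDifferential
  let ε := KaehlerDifferential.tensorKaehlerEquivOfFormallyEtale k S K
  let M : KaehlerDifferential k K →ₗ[K] K := L.comp ε.symm.toLinearMap
  refine ⟨M.compDer (KaehlerDifferential.D k K), fun s => ?_⟩
  change M (KaehlerDifferential.D k K (algebraMap S K s)) = d s
  change L (ε.symm (KaehlerDifferential.D k K (algebraMap S K s))) = d s
  rw [KaehlerDifferential.tensorKaehlerEquivOfFormallyEtale_symm_D_algebraMap]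
  simp [L]

lemma exists_der [CharZero k] {ι : Type} {a : ι → K} (hind : AlgebraicIndependent k a)
    (halg : Algebra.IsAlgebraic (IntermediateField.adjoin k (Set.range a)) K) (j : ι) :
    ∃ δ : Derivation k K K, δ (a j) = 1 ∧ ∀ i, i ≠ j → δ (a i) = 0 := by
  classical
  let S := Algebra.adjoin k (Set.range a)
  have h1 : Algebra.FormallyEtale S (IntermediateField.adjoin k (Set.range a)) :=
    .of_isLocalization (nonZeroDivisors _)
  have h2 : Algebra.FormallyEtale (IntermediateField.adjoin k (Set.range a)) K :=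
    Algebra.FormallyEtale.of_isSeparable _ K
  have h3 : Algebra.FormallyEtale S K :=
    .comp _ (IntermediateField.adjoin k (Set.range a)) _
  let ε := hind.aevalEquiv
  let φ : S →ₗ[k] K :=
    { toFun := fun x => MvPolynomial.aeval a (MvPolynomial.pderiv j (ε.symm x))
      map_add' := fun x y => by rw [map_add, map_add, map_add]
      map_smul' := fun c x => by rw [map_smul, Derivation.map_smul, map_smul, RingHom.id_apply] }
  have hx : ∀ x : S, (MvPolynomial.aeval a) (ε.symm x) = (x : K) := by
    intro x
    rw [← hind.algebraMap_aevalEquiv]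
    change ((ε (ε.symm x) : S) : K) = x
    rw [ε.apply_symm_apply]
  let d : Derivation k S K := Derivation.mk' φ (by
      intro x y
      change MvPolynomial.aeval a (MvPolynomial.pderiv j (ε.symm (x * y))) =
        (x : K) * MvPolynomial.aeval a (MvPolynomial.pderiv j (ε.symm y)) +
        (y : K) * MvPolynomial.aeval a (MvPolynomial.pderiv j (ε.symm x))
      rw [map_mul, Derivation.leibniz, map_add, smul_eq_mul, smul_eq_mul, map_mul, map_mul,
        hx, hx])
  obtain ⟨δ, hδ⟩ := ext_der d
  have hs : ∀ i, ε.symm ⟨a i, Algebra.subset_adjoin ⟨i, rfl⟩⟩ = MvPolynomial.X i := by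
    intro i
    rw [AlgEquiv.symm_apply_eq]
    apply Subtype.ext
    change a i = algebraMap S K (ε (MvPolynomial.X i))
    rw [hind.algebraMap_aevalEquiv, MvPolynomial.aeval_X]
  have hd : ∀ i, δ (a i) =
      MvPolynomial.aeval a (MvPolynomial.pderiv j (MvPolynomial.X i : MvPolynomial ι k)) := by
    intro i
    have h4 := hδ ⟨a i, Algebra.subset_adjoin ⟨i, rfl⟩⟩
    rw [← hs i]
    exact h4
  refine ⟨δ, ?_, fun i hi => ?_⟩
  · rw [hd, MvPolynomial.pderiv_X_self, map_one]
  · rw [hd, MvPolynomial.pderiv_X_of_ne hi, map_zero]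

/-- A derivation that preserves `F` maps `y`, algebraic over `F`, into `F(y)`. -/
lemma der_mem [CharZero k] (δ : Derivation k K K) (F G : IntermediateField k K)
    (hF : ∀ y ∈ F, δ y ∈ F) (hFG : F ≤ G) {y : K} (hy : y ∈ G) (halg : IsAlgebraic F y) :
    δ y ∈ G := by
  have key : ∀ p : Polynomial F, ∃ z ∈ G, δ (Polynomial.aeval y p) =
      z + Polynomial.aeval y (Polynomial.derivative p) * δ y := by
    intro p
    induction p using Polynomial.induction_on' with
    | add p q hp hq =>
      obtain ⟨z, hz, h1⟩ := hp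
      obtain ⟨z', hz', h2⟩ := hq
      refine ⟨z + z', add_mem hz hz', ?_⟩
      rw [map_add, map_add, h1, h2, Polynomial.derivative_add, map_add]
      ring
    | monomial n c =>
      refine ⟨y ^ n * δ (c : K), G.mul_mem (pow_mem hy n) (hFG (hF _ c.2)), ?_⟩
      rw [Polynomial.aeval_monomial, Polynomial.derivative_monomial, Polynomial.aeval_monomial,
        Derivation.leibniz, Derivation.leibniz_pow]
      simp only [smul_eq_mul, nsmul_eq_mul, map_mul, map_natCast]
      change (c : K) * _ + y ^ n * δ (c : K) = y ^ n * δ (c : K) + (c : K) * _ * _ * _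
      ring
  have hint : IsIntegral F y := halg.isIntegral
  obtain ⟨z, hz, h1⟩ := key (minpoly F y)
  rw [minpoly.aeval, map_zero] at h1
  have hsep : Polynomial.aeval y (Polynomial.derivative (minpoly F y)) ≠ 0 :=
    Polynomial.Separable.aeval_derivative_ne_zero (minpoly.irreducible hint).separable
      (minpoly.aeval F y)
  have h2 : δ y = -z / Polynomial.aeval y (Polynomial.derivative (minpoly F y)) := by
    rw [eq_div_iff hsep, mul_comm]
    linear_combination -h1
  rw [h2]
  refine G.div_mem (neg_mem hz) ?_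
  rw [Polynomial.aeval_eq_sum_range]
  refine sum_mem fun i _ => ?_
  rw [Algebra.smul_def]
  exact G.mul_mem (hFG (SetLike.coe_mem _)) (pow_mem hy i)

end

variable {k V E K : Type} [Field k] [AddCommGroup V] [Module k V] [FiniteDimensional k V]
  [Fintype E] [DecidableEq E] [Field K] [Algebra k K]

variable {ℓ : E → Dual k V}

/-- The relation between a derivation and the elements `u i`. -/
lemma der_u (P : Pt ℓ K) (δ : Derivation k K K) (hx : ∀ i, P.x i ≠ 0) :
    ∑ i, δ (P.u i) / P.x i = 0 := by
  have h1 : ∑ i, P.x i * P.w i = 0 := P.pair P.τ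
  have h2 : ∑ i, δ (P.x i) * P.w i = 0 := P.pair ((δ : K →ₗ[k] K).comp P.τ)
  have h3 := congrArg δ h1
  rw [map_sum, map_zero] at h3
  have h4 : ∀ i, δ (P.u i) / P.x i = δ (P.x i * P.w i) + δ (P.x i) * P.w i := by
    intro i
    rw [Pt.u, Derivation.leibniz, Derivation.leibniz, Derivation.leibniz_pow]
    simp only [smul_eq_mul, nsmul_eq_mul]
    have := hx i
    field_simp
    push_cast
    ring
  rw [Finset.sum_congr rfl fun i _ => h4 i, Finset.sum_add_distrib, h3, h2, add_zero]

theorem adjoin_u_eq_top [CharZero k] (P : Pt ℓ K) {e : E} (hP : IsGen P e)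
    (hind : AlgebraicIndependent k (fun i : {i : E // i ≠ e} => P.u i)) :
    IntermediateField.adjoin k (Set.range P.u) = ⊤ := by
  have halg := hP.isAlgebraic hind
  set F := IntermediateField.adjoin k (Set.range (fun i : {i : E // i ≠ e} => P.u i)) with hF
  set G := IntermediateField.adjoin k (Set.range P.u) with hG
  have hFG : F ≤ G := by
    apply IntermediateField.adjoin.mono
    rintro _ ⟨i, rfl⟩
    exact ⟨i, rfl⟩
  have hu : ∀ i, P.u i ∈ G := fun i => IntermediateField.subset_adjoin k _ ⟨i, rfl⟩
  have hxe : P.x e = 1 := hP.one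
  have hx : ∀ i, P.x i ≠ 0 := by
    intro i
    by_cases hi : i = e
    · rw [hi, hxe]; exact one_ne_zero
    · intro h0
      apply hind.ne_zero ⟨i, hi⟩
      change P.x i ^ 2 * P.w i = 0
      rw [h0]; ring
  have hxG : ∀ i, P.x i ∈ G := by
    intro i
    by_cases hi : i = e
    · rw [hi, hxe]; exact one_mem _
    obtain ⟨δ, hδ1, hδ2⟩ := exists_der hind halg ⟨i, hi⟩
    have h1 := der_u P δ hx
    have h2 : δ (P.u e) = - (P.x i)⁻¹ := by
      rw [← Finset.add_sum_erase _ _ (Finset.mem_univ e), hxe, div_one,
        Finset.sum_eq_single_of_mem i (Finset.mem_erase.mpr ⟨hi, Finset.mem_univ i⟩)] at h1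
      · have h3 : δ (P.u i) = 1 := hδ1
        rw [h3, one_div] at h1
        exact eq_neg_of_add_eq_zero_left h1
      · intro j hj hji
        have h3 : δ (P.u j) = 0 := hδ2 ⟨j, Finset.ne_of_mem_erase hj⟩
          (fun h => hji (congrArg Subtype.val h))
        rw [h3, zero_div]
    have hδF : ∀ y ∈ F, δ y ∈ F := by
      intro y hy
      rw [hF] at hy
      induction hy using IntermediateField.adjoin_induction with
      | mem x hx =>
        obtain ⟨j, rfl⟩ := hx
        by_cases hj : j = ⟨i, hi⟩
        · rw [hj, hδ1]; exact one_mem _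
        · rw [hδ2 j hj]; exact zero_mem _
      | algebraMap c => rw [Derivation.map_algebraMap]; exact zero_mem _
      | add x y _ _ hx hy => rw [map_add]; exact add_mem hx hy
      | inv x hx' hx =>
        rw [Derivation.leibniz_inv, smul_eq_mul]
        exact F.mul_mem (neg_mem (pow_mem (F.inv_mem hx') 2)) hx
      | mul x y hx' hy' hx hy =>
        rw [Derivation.leibniz, smul_eq_mul, smul_eq_mul]
        exact add_mem (F.mul_mem hx' hy) (F.mul_mem hy' hx)
    have h4 : δ (P.u e) ∈ G := der_mem δ F G hδF hFG (hu e) (halg.isAlgebraic _)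
    rw [h2] at h4
    have h5 := G.inv_mem (neg_mem h4)
    rwa [neg_neg, inv_inv] at h5
  rw [eq_top_iff, ← hP.gen, IntermediateField.adjoin_le_iff]
  rintro _ (⟨i, rfl⟩ | ⟨i, rfl⟩)
  · exact hxG i
  · have h1 : P.w i = P.u i / P.x i ^ 2 := by
      rw [Pt.u, mul_div_cancel_left₀ _ (pow_ne_zero 2 (hx i))]
    rw [h1]
    exact G.div_mem (hu i) (pow_mem (hxG i) 2)

end Pool.Agent.TH142.Recip
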