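import Mathlib
import Pool.Agent.TH142.Recip.Bir

/-!
The equation satisfied by the elements `u i`.
-/

set_option linter.unusedSectionVars false
set_option maxHeartbeats 1000000

namespace Pool.Agent.TH142.Recip

open Module

open scoped IntermediateField.algebraAdjoinAdjoin

variable {k V E K : Type} [Field k] [AddCommGroup V] [Module k V] [FiniteDimensional k V]
  [Fintype E] [DecidableEq E] [Field K] [Algebra k K]

variable {ℓ : E → Dual k V}

/-- `u e` is integral over the algebra generated by the other `u i`. -/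
lemma u_integral (P : Pt ℓ K) {e : E} (h1 : P.τ (ℓ e) = 1) :
    IsIntegral (Algebra.adjoin k (Set.range (fun i : {i : E // i ≠ e} => P.u i))) (P.u e) := by
  set A := Algebra.adjoin k (Set.range (fun i : {i : E // i ≠ e} => P.u i)) with hA
  have h2 : P.u e = P.w e := by
    have : P.x e = 1 := h1
    rw [Pt.u, this, one_pow, one_mul]
  rw [h2]
  have h3 : P.w e ∈ (⨅ O : {O : ValuationSubring K // (A : Set K) ⊆ O.toSubring},
      O.1.toSubring) := by
    rw [Subring.mem_iInf]
    rintro ⟨O, hO⟩
    have hk : Over k O := fun c => hO (A.algebraMap_mem c)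
    have h4 := int_e P hk h1 (fun i hi =>
      mem_iff.mp (hO (Algebra.subset_adjoin ⟨⟨i, hi⟩, rfl⟩)))
    exact mem_iff.mpr h4
  rw [iInf_valuationSubring_superset] at h3
  have h4 : IsIntegral (Subring.closure (A : Set K)) (P.w e) := h3
  obtain ⟨p, hp, hp2⟩ := h4
  have h5 : ∀ x : Subring.closure (A : Set K), (x : K) ∈ A.toSubring := by
    intro x
    have h6 : Subring.closure (A : Set K) ≤ A.toSubring := Subring.closure_le.mpr (fun y hy => hy)
    exact h6 x.2
  let φ : Subring.closure (A : Set K) →+* A :=
    (Subring.closure (A : Set K)).subtype.codRestrict A.toSubring h5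
  refine ⟨p.map φ, hp.map φ, ?_⟩
  rw [Polynomial.eval₂_map]
  exact hp2

theorem exists_delta [CharZero k] (P : Pt ℓ K) {e : E} (hP : IsGen P e)
    (hind : AlgebraicIndependent k (fun i : {i : E // i ≠ e} => P.u i)) :
    ∃ Δ : MvPolynomial E k, Prime Δ ∧
      (∀ Q : MvPolynomial E k, MvPolynomial.aeval P.u Q = 0 ↔ Δ ∣ Q) ∧
      (MvPolynomial.aeval (fun i : E => if i = e then (Polynomial.X : Polynomial k) else 0) Δ).Monic
      ∧ (MvPolynomial.aeval (fun i : E => if i = e then (Polynomial.X : Polynomial k) else 0)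
        Δ).natDegree = dg P e := by
  set a := fun i : {i : E // i ≠ e} => P.u i with ha
  let A := Algebra.adjoin k (Set.range a)
  let K₀ := IntermediateField.adjoin k (Set.range a)
  have hic : IsIntegrallyClosed A := IsIntegrallyClosed.of_equiv hind.aevalEquiv.toRingEquiv
  have hint : IsIntegral A (P.u e) := u_integral P hP.one
  have hdvd : ∀ p : Polynomial A, Polynomial.aeval (P.u e) p = 0 ↔ minpoly A (P.u e) ∣ p :=
    minpoly.isIntegrallyClosed_dvd_iff hint
  have hmin : minpoly K₀ (P.u e) = (minpoly A (P.u e)).map (algebraMap A K₀) :=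
    minpoly.isIntegrallyClosed_eq_field_fractions' K₀ hint
  have hfin : FiniteDimensional K₀ K := hP.finite hind
  -- the degree
  have htop : IntermediateField.adjoin K₀ {P.u e} = ⊤ := by
    rw [eq_top_iff]
    intro y _
    have h1 : y ∈ IntermediateField.adjoin k (Set.range P.u) := by
      rw [adjoin_u_eq_top P hP hind]; trivial
    have hle : IntermediateField.adjoin k (Set.range P.u) ≤
        (IntermediateField.adjoin K₀ {P.u e}).restrictScalars k := by
      rw [IntermediateField.adjoin_le_iff]
      rintro _ ⟨i, rfl⟩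
      by_cases hi : i = e
      · rw [hi]
        exact IntermediateField.subset_adjoin K₀ _ rfl
      · exact (IntermediateField.adjoin K₀ {P.u e}).algebraMap_mem
          ⟨P.u i, IntermediateField.subset_adjoin k _ ⟨⟨i, hi⟩, rfl⟩⟩
    exact hle h1
  have hdeg : (minpoly A (P.u e)).natDegree = dg P e := by
    have h1 := IntermediateField.adjoin.finrank (K := K₀) (x := P.u e)
      (Algebra.IsIntegral.isIntegral (R := K₀) _)
    rw [htop, IntermediateField.finrank_top', hmin,
      (minpoly.monic hint).natDegree_map] at h1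
    exact h1.symm
  -- the isomorphism
  let Ψ : MvPolynomial E k ≃ₐ[k] Polynomial A :=
    (MvPolynomial.renameEquiv k (Equiv.optionSubtypeNe e).symm).trans
      ((MvPolynomial.optionEquivLeft k {i : E // i ≠ e}).trans
        (Polynomial.mapAlgEquiv hind.aevalEquiv))
  have hΨe : Ψ (MvPolynomial.X e) = Polynomial.X := by
    simp [Ψ, MvPolynomial.optionEquivLeft_X_none]
  have hΨi : ∀ i (hi : i ≠ e), Ψ (MvPolynomial.X i) =
      Polynomial.C (hind.aevalEquiv (MvPolynomial.X ⟨i, hi⟩)) := by
    intro i hi
    simp [Ψ, Equiv.optionSubtypeNe_symm_of_ne hi, MvPolynomial.optionEquivLeft_X_some]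
  have hcomp : ∀ Q : MvPolynomial E k,
      Polynomial.aeval (P.u e) (Ψ Q) = MvPolynomial.aeval P.u Q := by
    intro Q
    have h1 : ((Polynomial.aeval (R := A) (P.u e)).restrictScalars k).comp
        (Ψ : MvPolynomial E k →ₐ[k] Polynomial A) = MvPolynomial.aeval P.u := by
      apply MvPolynomial.algHom_ext
      intro i
      rw [MvPolynomial.aeval_X]
      change Polynomial.aeval (P.u e) (Ψ (MvPolynomial.X i)) = P.u i
      by_cases hi : i = e
      · rw [hi, hΨe, Polynomial.aeval_X]
      · rw [hΨi i hi, Polynomial.aeval_C, hind.algebraMap_aevalEquiv, MvPolynomial.aeval_X]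
    exact DFunLike.congr_fun h1 Q
  let κ : A →ₐ[k] k := (MvPolynomial.aeval (fun _ : {i : E // i ≠ e} => (0 : k))).comp
    (hind.aevalEquiv.symm : A →ₐ[k] MvPolynomial {i : E // i ≠ e} k)
  have hspec : ∀ Q : MvPolynomial E k,
      MvPolynomial.aeval (fun i : E => if i = e then (Polynomial.X : Polynomial k) else 0) Q =
        (Ψ Q).map κ.toRingHom := by
    intro Q
    have h1 : (Polynomial.mapAlgHom κ).comp (Ψ : MvPolynomial E k →ₐ[k] Polynomial A) =
        MvPolynomial.aeval (fun i : E => if i = e then (Polynomial.X : Polynomial k) else 0) := by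
      apply MvPolynomial.algHom_ext
      intro i
      rw [MvPolynomial.aeval_X]
      change Polynomial.map κ.toRingHom (Ψ (MvPolynomial.X i)) = _
      by_cases hi : i = e
      · rw [if_pos hi, hi, hΨe, Polynomial.map_X]
      · rw [if_neg hi, hΨi i hi, Polynomial.map_C]
        change Polynomial.C ((MvPolynomial.aeval (fun _ : {i : E // i ≠ e} => (0 : k)))
          (hind.aevalEquiv.symm (hind.aevalEquiv (MvPolynomial.X ⟨i, hi⟩)))) = 0
        rw [AlgEquiv.symm_apply_apply, MvPolynomial.aeval_X, Polynomial.C_0]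
    exact (DFunLike.congr_fun h1 Q).symm
  refine ⟨Ψ.symm (minpoly A (P.u e)), ?_, ?_, ?_, ?_⟩
  · exact (MulEquiv.prime_iff Ψ.symm.toMulEquiv).mpr (minpoly.prime_of_isIntegrallyClosed hint)
  · intro Q
    rw [← hcomp, hdvd]
    constructor
    · intro h
      have h1 := map_dvd Ψ.symm h
      rwa [AlgEquiv.symm_apply_apply] at h1
    · intro h
      have h1 := map_dvd Ψ h
      rwa [AlgEquiv.apply_symm_apply] at h1
  · rw [hspec, AlgEquiv.apply_symm_apply]
    exact (minpoly.monic hint).map _
  · rw [hspec, AlgEquiv.apply_symm_apply, (minpoly.monic hint).natDegree_map, hdeg]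

end Pool.Agent.TH142.Recip
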