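import Mathlib
import Pool.Agent.TH142.Recip.Rec

/-!
The beta invariant of a family of linear forms.
-/

set_option linter.unusedSectionVars false

namespace Pool.Agent.TH142.Recip

open Module

variable {k V E : Type} [Field k] [AddCommGroup V] [Module k V] [FiniteDimensional k V]
  [Fintype E] [DecidableEq E]

/-- The rank of a set of forms. -/
noncomputable def rk (ℓ : E → Dual k V) (S : Finset E) : ℕ :=
  finrank k (Submodule.span k (ℓ '' (S : Set E)))

/-- The beta invariant. -/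
noncomputable def beta (ℓ : E → Dual k V) : ℤ :=
  (-1) ^ (rk ℓ Finset.univ) * ∑ S : Finset E, (-1) ^ S.card * (rk ℓ S : ℤ)

/-- The matroid of the forms is connected. -/
def Conn (ℓ : E → Dual k V) : Prop :=
  ∀ S : Finset E, S.Nonempty → Sᶜ.Nonempty → rk ℓ S + rk ℓ Sᶜ ≠ rk ℓ Finset.univ

/-- The inclusion of finsets of `E \ f` into finsets of `E`. -/
abbrev up {f : E} (S : Finset {i : E // i ≠ f}) : Finset E :=
  S.map (Function.Embedding.subtype _)

lemma up_card {f : E} (S : Finset {i : E // i ≠ f}) : (up S).card = S.card :=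
  Finset.card_map _

lemma notMem_up {f : E} (S : Finset {i : E // i ≠ f}) : f ∉ up S := by
  simp [up]

lemma up_univ (f : E) : up (Finset.univ : Finset {i : E // i ≠ f}) = Finset.univ.erase f := by
  ext i
  simp [up]

lemma insert_up_univ (f : E) :
    insert f (up (Finset.univ : Finset {i : E // i ≠ f})) = Finset.univ := by
  rw [up_univ, Finset.insert_erase (Finset.mem_univ f)]

lemma sum_split_finset (f : E) (F : Finset E → ℤ) :
    ∑ S : Finset E, F S =
      ∑ S : Finset {i : E // i ≠ f}, (F (up S) + F (insert f (up S))) := by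
  have h1 : (Finset.univ : Finset (Finset E)) = (insert f (Finset.univ.erase f)).powerset := by
    rw [Finset.insert_erase (Finset.mem_univ f), Finset.powerset_univ]
  rw [h1, Finset.sum_powerset_insert (Finset.notMem_erase f _), Finset.sum_add_distrib]
  have h2 : ∀ G : Finset E → ℤ, ∑ S ∈ (Finset.univ.erase f).powerset, G S =
      ∑ S : Finset {i : E // i ≠ f}, G (up S) := by
    intro G
    refine (Finset.sum_bij (fun S _ => up S) ?_ ?_ ?_ ?_).symm
    · intro S _
      rw [Finset.mem_powerset, ← up_univ]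
      exact Finset.map_subset_map.mpr (Finset.subset_univ S)
    · intro S _ T _ h
      exact Finset.map_injective _ h
    · intro T hT
      refine ⟨T.subtype (fun i => i ≠ f), Finset.mem_univ _, ?_⟩
      ext i
      simp only [up, Finset.subtype_map, Finset.mem_filter]
      constructor
      · exact fun h => h.1
      · intro h
        refine ⟨h, ?_⟩
        rintro rfl
        exact Finset.notMem_erase i _ (Finset.mem_powerset.mp hT h)
    · intro S _
      rfl
  rw [h2, h2]

lemma sum_sign {F : Type} [Fintype F] [DecidableEq F] [Nonempty F] :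
    ∑ S : Finset F, (-1 : ℤ) ^ S.card = 0 := by
  rw [← Finset.powerset_univ]
  exact Finset.sum_powerset_neg_one_pow_card_of_nonempty Finset.univ_nonempty

lemma rk_del (ℓ : E → Dual k V) (f : E) (S : Finset {i : E // i ≠ f}) :
    rk (fun i : {i : E // i ≠ f} => ℓ i) S = rk ℓ (up S) := by
  refine congrArg (fun U : Submodule k (Dual k V) => finrank k U) (congrArg _ ?_)
  ext φ
  simp [up]

lemma rk_insert_loop (ℓ : E → Dual k V) {f : E} (S : Finset E)
    (h : ℓ f ∈ Submodule.span k (ℓ '' (S : Set E))) : rk ℓ (insert f S) = rk ℓ S := by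
  refine congrArg (fun U : Submodule k (Dual k V) => finrank k U) ?_
  rw [Finset.coe_insert, Set.image_insert_eq, Submodule.span_insert_eq_span h]

lemma rk_insert_coloop (ℓ : E → Dual k V) {f : E} (S : Finset E)
    (h : ℓ f ∉ Submodule.span k (ℓ '' (S : Set E))) : rk ℓ (insert f S) = rk ℓ S + 1 := by
  rw [rk, rk, Finset.coe_insert, Set.image_insert_eq, Submodule.span_insert]
  have h1 := Submodule.finrank_sup_add_finrank_inf_eq (Submodule.span k {ℓ f})
    (Submodule.span k (ℓ '' (S : Set E)))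
  have h0 : ℓ f ≠ 0 := fun h0 => h (h0 ▸ zero_mem _)
  have h2 : Submodule.span k {ℓ f} ⊓ Submodule.span k (ℓ '' (S : Set E)) = ⊥ := by
    rw [eq_bot_iff]
    rintro x ⟨hx1, hx2⟩
    obtain ⟨c, rfl⟩ := Submodule.mem_span_singleton.mp hx1
    by_cases hc : c = 0
    · simp [hc]
    · exfalso
      apply h
      have h3 := Submodule.smul_mem _ c⁻¹ hx2
      rwa [smul_smul, inv_mul_cancel₀ hc, one_smul] at h3
  rw [h2, finrank_bot, add_zero, finrank_span_singleton h0] at h1
  rw [h1, add_comm]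

lemma rk_ctr (ℓ : E → Dual k V) {f : E} (hf : ℓ f ≠ 0) (S : Finset {i : E // i ≠ f}) :
    rk (ctr ℓ f) S + 1 = rk ℓ (insert f (up S)) := by
  set ρ := (LinearMap.ker (ℓ f)).subtype.dualMap with hρ
  set U := Submodule.span k (ℓ '' (insert f (up S) : Finset E)) with hU
  have hρf : ρ (ℓ f) = 0 := by
    ext v
    exact v.2
  have h1 : Submodule.span k (ctr ℓ f '' (S : Set {i : E // i ≠ f})) = U.map ρ := by
    rw [hU, Submodule.map_span, Finset.coe_insert, Set.image_insert_eq, Set.image_insert_eq,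
      hρf, Submodule.span_insert_zero]
    congr 1
    ext φ
    constructor
    · rintro ⟨i, hi, rfl⟩
      exact ⟨ℓ i, ⟨i, by simpa [up, i.2] using hi, rfl⟩, rfl⟩
    · rintro ⟨_, ⟨i, hi, rfl⟩, rfl⟩
      simp only [up, Finset.coe_map, Set.mem_image] at hi
      obtain ⟨j, hj, rfl⟩ := hi
      exact ⟨j, hj, rfl⟩
  have hker : LinearMap.ker ρ = Submodule.span k {ℓ f} := by
    apply le_antisymm
    · intro φ hφ
      have h2 : ∀ v, ℓ f v = 0 → φ v = 0 := by
        intro v hv
        have h3 := LinearMap.congr_fun (LinearMap.mem_ker.mp hφ) ⟨v, hv⟩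
        exact h3
      have h4 : φ ∈ Submodule.span k (Set.range (fun _ : Unit => ℓ f)) := by
        apply mem_span_of_iInf_ker_le_ker
        intro v hv
        simp only [ciInf_unique, LinearMap.mem_ker] at hv
        exact h2 v hv
      rwa [Set.range_const] at h4
    · rw [Submodule.span_singleton_le_iff_mem, LinearMap.mem_ker]
      exact hρf
  have hle : LinearMap.ker ρ ≤ U := by
    rw [hker, Submodule.span_singleton_le_iff_mem]
    exact Submodule.subset_span ⟨f, by simp, rfl⟩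
  have h2 := LinearMap.finrank_range_add_finrank_ker (K := k) (V := U)
    (V₂ := Dual k (LinearMap.ker (ℓ f))) (ρ.domRestrict U)
  rw [LinearMap.range_domRestrict, LinearMap.ker_domRestrict,
    (Submodule.comapSubtypeEquivOfLe hle).finrank_eq, hker, finrank_span_singleton hf] at h2
  rw [rk, rk, h1, h2]

lemma beta_loop (ℓ : E → Dual k V) {f : E} (hf : ℓ f = 0) : beta ℓ = 0 := by
  rw [beta, sum_split_finset f]
  rw [Finset.sum_eq_zero, mul_zero]
  intro S _
  rw [rk_insert_loop ℓ (up S) (hf ▸ zero_mem _), Finset.card_insert_of_notMem (notMem_up S),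
    pow_succ]
  ring

lemma beta_coloop (ℓ : E → Dual k V) {e f : E} (hef : e ≠ f)
    (hf : ℓ f ∉ Submodule.span k (ℓ '' {i | i ≠ f})) : beta ℓ = 0 := by
  have : Nonempty {i : E // i ≠ f} := ⟨⟨e, hef⟩⟩
  rw [beta, sum_split_finset f]
  have h1 : ∀ S : Finset {i : E // i ≠ f}, (-1 : ℤ) ^ (up S).card * (rk ℓ (up S) : ℤ) +
      (-1) ^ (insert f (up S)).card * (rk ℓ (insert f (up S)) : ℤ) = - (-1) ^ S.card := by
    intro S
    rw [rk_insert_coloop ℓ (up S), Finset.card_insert_of_notMem (notMem_up S), up_card,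
      pow_succ]
    · push_cast
      ring
    · intro h
      apply hf
      refine Submodule.span_mono (Set.image_mono ?_) h
      intro i hi
      rintro rfl
      exact notMem_up S hi
  rw [Finset.sum_congr rfl fun S _ => h1 S, Finset.sum_neg_distrib, sum_sign, neg_zero, mul_zero]

lemma rk_del_univ (ℓ : E → Dual k V) {f : E}
    (hc : ℓ f ∈ Submodule.span k (ℓ '' {i | i ≠ f})) :
    rk (fun i : {i : E // i ≠ f} => ℓ i) Finset.univ = rk ℓ Finset.univ := by
  rw [rk_del, ← insert_up_univ f, rk_insert_loop]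
  have h1 : ((up (Finset.univ : Finset {i : E // i ≠ f}) : Finset E) : Set E) =
      {i | i ≠ f} := by
    ext i
    simp [up]
  rw [h1]
  exact hc

lemma rk_ctr_univ (ℓ : E → Dual k V) {f : E} (hf : ℓ f ≠ 0) :
    rk (ctr ℓ f) Finset.univ + 1 = rk ℓ Finset.univ := by
  rw [rk_ctr ℓ hf, insert_up_univ]

lemma beta_rec (ℓ : E → Dual k V) {e f : E} (hef : e ≠ f) (hf : ℓ f ≠ 0)
    (hc : ℓ f ∈ Submodule.span k (ℓ '' {i | i ≠ f})) :
    beta ℓ = beta (fun i : {i : E // i ≠ f} => ℓ i) + beta (ctr ℓ f) := by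
  have : Nonempty {i : E // i ≠ f} := ⟨⟨e, hef⟩⟩
  rw [beta, beta, beta, rk_del_univ ℓ hc, sum_split_finset f]
  have h1 : ∀ S : Finset {i : E // i ≠ f}, (-1 : ℤ) ^ (up S).card * (rk ℓ (up S) : ℤ) +
      (-1) ^ (insert f (up S)).card * (rk ℓ (insert f (up S)) : ℤ) =
      (-1) ^ S.card * (rk (fun i : {i : E // i ≠ f} => ℓ i) S : ℤ) -
        (-1) ^ S.card * (rk (ctr ℓ f) S : ℤ) - (-1) ^ S.card := by
    intro S
    rw [rk_del, ← rk_ctr ℓ hf, Finset.card_insert_of_notMem (notMem_up S), up_card, pow_succ]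
    push_cast
    ring
  rw [Finset.sum_congr rfl fun S _ => h1 S, Finset.sum_sub_distrib, Finset.sum_sub_distrib,
    sum_sign, ← rk_ctr_univ ℓ hf, pow_succ]
  ring

lemma card_sub_lt (f : E) : Fintype.card {i : E // i ≠ f} < Fintype.card E := by
  rw [card_sub]
  have : 0 < Fintype.card E := Fintype.card_pos_iff.mpr ⟨f⟩
  omega

theorem beta_nonneg_aux (n : ℕ) : ∀ (E V : Type) [AddCommGroup V] [Module k V]
    [FiniteDimensional k V] [Fintype E] [DecidableEq E] (ℓ : E → Dual k V),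
    Fintype.card E = n → 0 ≤ beta ℓ := by
  induction n using Nat.strong_induction_on with
  | _ n ih =>
  intro E V _ _ _ _ _ ℓ hn
  by_cases hE : IsEmpty E
  · have h1 : ∀ S : Finset E, rk ℓ S = 0 := by
      intro S
      have : S = ∅ := Finset.eq_empty_of_isEmpty S
      rw [this, rk]
      simp
    simp [beta, h1]
  rw [not_isEmpty_iff] at hE
  obtain ⟨f⟩ := hE
  by_cases hf : ℓ f = 0
  · rw [beta_loop ℓ hf]
  by_cases h1 : ∃ e, e ≠ f
  · obtain ⟨e, hef⟩ := h1
    by_cases hc : ℓ f ∈ Submodule.span k (ℓ '' {i | i ≠ f})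
    · rw [beta_rec ℓ hef hf hc]
      exact add_nonneg (ih _ (hn ▸ card_sub_lt f) _ _ _ rfl) (ih _ (hn ▸ card_sub_lt f) _ _ _ rfl)
    · rw [beta_coloop ℓ hef hc]
  · push Not at h1
    have h2 : IsEmpty {i : E // i ≠ f} := ⟨fun i => i.2 (h1 i)⟩
    rw [beta, sum_split_finset f]
    have h3 : ∀ S : Finset {i : E // i ≠ f}, up S = ∅ := by
      intro S
      rw [Finset.eq_empty_of_isEmpty S]
      rfl
    have h4 : rk ℓ ∅ = 0 := by simp [rk]
    have h5 : rk ℓ {f} = 1 := by
      rw [rk, Finset.coe_singleton, Set.image_singleton, finrank_span_singleton hf]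
    have h6 : (Finset.univ : Finset E) = {f} := by
      ext i; simp [h1 i]
    simp only [h3, h4, h6, h5, LawfulSingleton.insert_empty_eq]
    simp

lemma beta_nonneg (ℓ : E → Dual k V) : 0 ≤ beta ℓ :=
  beta_nonneg_aux _ E V ℓ rfl

lemma beta_single (ℓ : E → Dual k V) {f : E} (hf : ℓ f ≠ 0) (h1 : ∀ e, e = f) : beta ℓ = 1 := by
  have h2 : IsEmpty {i : E // i ≠ f} := ⟨fun i => i.2 (h1 i)⟩
  rw [beta, sum_split_finset f]
  have h3 : ∀ S : Finset {i : E // i ≠ f}, up S = ∅ := by
    intro S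
    rw [Finset.eq_empty_of_isEmpty S]
    rfl
  have h4 : rk ℓ ∅ = 0 := by simp [rk]
  have h5 : rk ℓ {f} = 1 := by
    rw [rk, Finset.coe_singleton, Set.image_singleton, finrank_span_singleton hf]
  have h6 : (Finset.univ : Finset E) = {f} := by
    ext i; simp [h1 i]
  simp only [h3, h4, h6, h5, LawfulSingleton.insert_empty_eq]
  simp

/-- Submodularity of the rank. -/
lemma rk_submod (ℓ : E → Dual k V) (S T : Finset E) :
    rk ℓ (S ∪ T) + rk ℓ (S ∩ T) ≤ rk ℓ S + rk ℓ T := by
  have h0 := Submodule.finrank_sup_add_finrank_inf_eq (Submodule.span k (ℓ '' (S : Set E)))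
    (Submodule.span k (ℓ '' (T : Set E)))
  rw [rk, rk, rk, rk, ← h0]
  apply Nat.add_le_add
  · rw [Finset.coe_union, Set.image_union, Submodule.span_union]
  · apply Submodule.finrank_mono
    apply le_inf
    · exact Submodule.span_mono (Set.image_mono (by simp))
    · exact Submodule.span_mono (Set.image_mono (by simp))

lemma rk_ge (ℓ : E → Dual k V) (S : Finset E) :
    rk ℓ Finset.univ ≤ rk ℓ S + rk ℓ Sᶜ := by
  have h := rk_submod ℓ S Sᶜ
  rw [Finset.union_compl] at h
  omega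

lemma Conn.lt {ℓ : E → Dual k V} (h : Conn ℓ) {S : Finset E} (h1 : S.Nonempty)
    (h2 : Sᶜ.Nonempty) : rk ℓ Finset.univ + 1 ≤ rk ℓ S + rk ℓ Sᶜ := by
  have := h S h1 h2
  have := rk_ge ℓ S
  omega

lemma Conn.no_loop {ℓ : E → Dual k V} (h : Conn ℓ) {e f : E} (hef : e ≠ f) : ℓ f ≠ 0 := by
  intro hf
  have h1 := h.lt (S := {f}) ⟨f, by simp⟩ ⟨e, by simp [hef]⟩
  have h2 : rk ℓ {f} = 0 := by
    rw [rk, Finset.coe_singleton, Set.image_singleton, hf]
    simp
  have h3 : rk ℓ ({f} : Finset E)ᶜ ≤ rk ℓ Finset.univ := by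
    apply Submodule.finrank_mono
    exact Submodule.span_mono (Set.image_mono (by simp))
  omega

lemma Conn.no_coloop {ℓ : E → Dual k V} (h : Conn ℓ) {e f : E} (hef : e ≠ f) :
    ℓ f ∈ Submodule.span k (ℓ '' {i | i ≠ f}) := by
  by_contra hf
  have h1 := h.lt (S := {f}) ⟨f, by simp⟩ ⟨e, by simp [hef]⟩
  have h2 : rk ℓ {f} ≤ 1 := by
    rw [rk, Finset.coe_singleton, Set.image_singleton]
    exact finrank_span_le_card _ |>.trans (by simp)
  have h3 : rk ℓ (insert f ({f} : Finset E)ᶜ) = rk ℓ ({f} : Finset E)ᶜ + 1 := by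
    apply rk_insert_coloop
    have h4 : ((({f} : Finset E)ᶜ : Finset E) : Set E) = {i | i ≠ f} := by
      ext i; simp
    rw [h4]
    exact hf
  have h4 : insert f ({f} : Finset E)ᶜ = Finset.univ := by
    ext i
    by_cases hi : i = f <;> simp [hi]
  rw [h4] at h3
  omega

/-- Tutte: a connected matroid stays connected after deletion or contraction of `f`. -/
lemma Conn.tutte {ℓ : E → Dual k V} (h : Conn ℓ) {e f : E} (hef : e ≠ f) :
    Conn (fun i : {i : E // i ≠ f} => ℓ i) ∨ Conn (ctr ℓ f) := by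
  have hloop := h.no_loop hef
  have hcoloop := h.no_coloop hef
  by_contra hcon
  rw [not_or, Conn, Conn] at hcon
  push Not at hcon
  obtain ⟨⟨A, hA, hA', hA1⟩, ⟨C, hC, hC', hC1⟩⟩ := hcon
  rw [rk_del, rk_del, rk_del_univ ℓ hcoloop] at hA1
  have hC2 := rk_ctr ℓ hloop C
  have hC3 := rk_ctr ℓ hloop Cᶜ
  have hC4 := rk_ctr_univ ℓ hloop
  -- the complements
  have hcompl : ∀ X Y : Finset {i : E // i ≠ f}, (up (X ∩ Y))ᶜ = insert f (up Xᶜ ∪ up Yᶜ) := by
    intro X Y
    ext i
    by_cases hi : i = f <;> simp [up, hi, or_iff_not_imp_left]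
  have key : ∀ X Y : Finset {i : E // i ≠ f},
      (X = A ∨ X = Aᶜ) → (Y = C ∨ Y = Cᶜ) → X ∩ Y = ∅ ∨ Xᶜ ∩ Yᶜ = ∅ := by
    intro X Y hX hY
    by_contra hne
    rw [not_or] at hne
    have h1 := rk_submod ℓ (up X) (insert f (up Y))
    have h2 := rk_submod ℓ (up Xᶜ) (insert f (up Yᶜ))
    have e1 : up X ∩ insert f (up Y) = up (X ∩ Y) := by
      rw [Finset.inter_insert_of_notMem (notMem_up X), up, up, up, Finset.map_inter]
    have e2 : up Xᶜ ∩ insert f (up Yᶜ) = up (Xᶜ ∩ Yᶜ) := by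
      rw [Finset.inter_insert_of_notMem (notMem_up _), up, up, up, Finset.map_inter]
    have e3 : up X ∪ insert f (up Y) = (up (Xᶜ ∩ Yᶜ))ᶜ := by
      rw [hcompl, compl_compl, compl_compl, Finset.union_insert]
    have e4 : up Xᶜ ∪ insert f (up Yᶜ) = (up (X ∩ Y))ᶜ := by
      rw [hcompl, Finset.union_insert]
    rw [e1, e3] at h1
    rw [e2, e4] at h2
    have n1 : (up (X ∩ Y)).Nonempty := by
      rw [up, Finset.map_nonempty, Finset.nonempty_iff_ne_empty]; exact hne.1
    have n2 : (up (Xᶜ ∩ Yᶜ)).Nonempty := by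
      rw [up, Finset.map_nonempty, Finset.nonempty_iff_ne_empty]; exact hne.2
    have n3 : (up (X ∩ Y))ᶜ.Nonempty := ⟨f, by simp [up]⟩
    have n4 : (up (Xᶜ ∩ Yᶜ))ᶜ.Nonempty := ⟨f, by simp [up]⟩
    have l1 := h.lt n1 n3
    have l2 := h.lt n2 n4
    have s1 : rk ℓ (up X) + rk ℓ (up Xᶜ) = rk ℓ Finset.univ := by
      rcases hX with rfl | rfl
      · exact hA1
      · rw [compl_compl, add_comm]; exact hA1
    have s2 : rk ℓ (insert f (up Y)) + rk ℓ (insert f (up Yᶜ)) = rk ℓ Finset.univ + 1 := by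
      rcases hY with rfl | rfl
      · omega
      · rw [compl_compl]; omega
    omega
  have k1 := key A C (Or.inl rfl) (Or.inl rfl)
  have k2 := key A Cᶜ (Or.inl rfl) (Or.inr rfl)
  rw [compl_compl] at k2
  have u1 : A ∩ C ∪ A ∩ Cᶜ = A := by
    rw [← Finset.inter_union_distrib_left, Finset.union_compl, Finset.inter_univ]
  have u2 : Aᶜ ∩ C ∪ Aᶜ ∩ Cᶜ = Aᶜ := by
    rw [← Finset.inter_union_distrib_left, Finset.union_compl, Finset.inter_univ]
  have u3 : A ∩ C ∪ Aᶜ ∩ C = C := by
    rw [← Finset.union_inter_distrib_right, Finset.union_compl, Finset.univ_inter]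
  have u4 : A ∩ Cᶜ ∪ Aᶜ ∩ Cᶜ = Cᶜ := by
    rw [← Finset.union_inter_distrib_right, Finset.union_compl, Finset.univ_inter]
  rw [Finset.nonempty_iff_ne_empty] at hA hA' hC hC'
  rcases k1 with k1 | k1 <;> rcases k2 with k2 | k2
  · exact hA (by rw [← u1, k1, k2, Finset.empty_union])
  · exact hC (by rw [← u3, k1, k2, Finset.empty_union])
  · exact hC' (by rw [← u4, k1, k2, Finset.empty_union])
  · exact hA' (by rw [← u2, k1, k2, Finset.empty_union])

theorem beta_pos_aux (n : ℕ) : ∀ (E V : Type) [AddCommGroup V] [Module k V]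
    [FiniteDimensional k V] [Fintype E] [DecidableEq E] (ℓ : E → Dual k V),
    Fintype.card E = n → Conn ℓ → (∀ f, ℓ f ≠ 0) → Nonempty E → 1 ≤ beta ℓ := by
  induction n using Nat.strong_induction_on with
  | _ n ih =>
  intro E V _ _ _ _ _ ℓ hn hconn hloop hE
  obtain ⟨f⟩ := hE
  by_cases h1 : ∃ e, e ≠ f
  · obtain ⟨e, hef⟩ := h1
    rw [beta_rec ℓ hef (hloop f) (hconn.no_coloop hef)]
    have hne : Nonempty {i : E // i ≠ f} := ⟨⟨e, hef⟩⟩
    by_cases h2 : ∃ e', e' ≠ f ∧ e' ≠ e
    · obtain ⟨e', he'f, he'e⟩ := h2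
      rcases hconn.tutte hef with h3 | h3
      · have h4 := ih _ (hn ▸ card_sub_lt f) {i : E // i ≠ f} V (fun i => ℓ i) rfl h3
          (fun i => hloop i) hne
        have h5 := beta_nonneg (ctr ℓ f)
        omega
      · have h4 := ih _ (hn ▸ card_sub_lt f) {i : E // i ≠ f} _ (ctr ℓ f) rfl h3 (fun i => by
            by_cases hi : i = ⟨e, hef⟩
            · rw [hi]
              exact h3.no_loop (e := ⟨e', he'f⟩) (fun h => he'e (congrArg Subtype.val h))
            · exact h3.no_loop (e := ⟨e, hef⟩) (Ne.symm hi)) hne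
        have h5 := beta_nonneg (fun i : {i : E // i ≠ f} => ℓ i)
        omega
    · push Not at h2
      have h3 : beta (fun i : {i : E // i ≠ f} => ℓ i) = 1 := by
        apply beta_single _ (f := ⟨e, hef⟩) (hloop e)
        intro i
        exact Subtype.ext (h2 i i.2)
      have h5 := beta_nonneg (ctr ℓ f)
      omega
  · push Not at h1
    rw [beta_single ℓ (hloop f) h1]

lemma beta_pos {ℓ : E → Dual k V} (h : Conn ℓ) (hloop : ∀ f, ℓ f ≠ 0) (e : E) :
    1 ≤ beta ℓ :=
  beta_pos_aux _ E V ℓ rfl h hloop ⟨e⟩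

end Pool.Agent.TH142.Recip
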