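import Mathlib
import Pool.Agent.TH142.Recip.Rec

/-!
The recursion for the degree: bookkeeping for subfields, residue fields and index sets.
-/

set_option linter.unusedSectionVars false

namespace Pool.Agent.TH142.Recip

open Module

section

variable {k E K : Type} [Field k] [Field K] [Algebra k K]

lemma split_ind (x : E → K) {e f : E} (hfe : f ≠ e) :
    AlgebraicIndependent k (fun i : {i : E // i ≠ e} => x i) ↔
      AlgebraicIndependent k (fun i : {i : E // i ≠ e ∧ i ≠ f} => x i) ∧
      Transcendental
        (Algebra.adjoin k (Set.range (fun i : {i : E // i ≠ e ∧ i ≠ f} => x i))) (x f) := by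
  let f' : {i : E // i ≠ e} := ⟨f, hfe⟩
  rw [AlgebraicIndependent.iff_transcendental_adjoin_image f']
  let σ : {j : {i : E // i ≠ e} // j ≠ f'} ≃ {i : E // i ≠ e ∧ i ≠ f} :=
    { toFun := fun j => ⟨j.1.1, j.1.2, fun h => j.2 (Subtype.ext h)⟩
      invFun := fun i => ⟨⟨i.1, i.2.1⟩, fun h => i.2.2 (congrArg Subtype.val h)⟩
      left_inv := fun _ => rfl
      right_inv := fun _ => rfl }
  have h1 : AlgebraicIndependent k (fun j : {j : {i : E // i ≠ e} // j ≠ f'} => x j.1) ↔
      AlgebraicIndependent k (fun i : {i : E // i ≠ e ∧ i ≠ f} => x i) :=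
    algebraicIndependent_equiv' σ rfl
  have h2 : (fun i : {i : E // i ≠ e} => x i) '' {f'}ᶜ =
      Set.range (fun i : {i : E // i ≠ e ∧ i ≠ f} => x i) := by
    ext y
    constructor
    · rintro ⟨i, hi, rfl⟩
      exact ⟨⟨i.1, i.2, fun h => hi (Subtype.ext h)⟩, rfl⟩
    · rintro ⟨i, rfl⟩
      exact ⟨⟨i.1, i.2.1⟩, fun h => i.2.2 (congrArg Subtype.val h), rfl⟩
  rw [h1, h2]

/-- Degrees over equal subfields agree. -/
lemma finrank_congr {F₁ F₂ : Type} [Field F₁] [Field F₂] [Algebra F₁ K] [Algebra F₂ K]
    (A : IntermediateField F₁ K) (B : IntermediateField F₂ K)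
    (h : ∀ y : K, y ∈ A ↔ y ∈ B) : finrank A K = finrank B K := by
  let ε : A ≃+* B :=
    { toFun := fun y => ⟨y, (h y).mp y.2⟩
      invFun := fun y => ⟨y, (h y).mpr y.2⟩
      left_inv := fun _ => rfl
      right_inv := fun _ => rfl
      map_mul' := fun _ _ => rfl
      map_add' := fun _ _ => rfl }
  refine Algebra.finrank_eq_of_equiv_equiv ε (RingEquiv.refl K) ?_
  ext y
  rfl

/-- Degrees are preserved by isomorphisms. -/
lemma finrank_adjoin_equiv {L : Type} [Field L] [Algebra k L] (ε : K ≃ₐ[k] L) (S : Set K) :
    finrank (IntermediateField.adjoin k S) K = finrank (IntermediateField.adjoin k (ε '' S)) L := by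
  have h1 : (IntermediateField.adjoin k S).map (ε : K →ₐ[k] L) =
      IntermediateField.adjoin k (ε '' S) := IntermediateField.adjoin_map k S (ε : K →ₐ[k] L)
  rw [← h1]
  refine Algebra.finrank_eq_of_equiv_equiv
    (IntermediateField.intermediateFieldMap ε (IntermediateField.adjoin k S)).toRingEquiv
    ε.toRingEquiv ?_
  ext y
  rfl

lemma adjoin_subfield_mem (S : Set K) (u : K) (y : K) :
    y ∈ IntermediateField.adjoin (IntermediateField.adjoin k S).toSubfield ({u} : Set K) ↔
      y ∈ IntermediateField.adjoin k (insert u S) := by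
  constructor
  · intro hy
    have hle : (IntermediateField.adjoin (IntermediateField.adjoin k S).toSubfield
        ({u} : Set K)).toSubfield ≤ (IntermediateField.adjoin k (insert u S)).toSubfield := by
      rw [IntermediateField.adjoin_toSubfield, Subfield.closure_le]
      rintro x (⟨z, rfl⟩ | hx)
      · have h1 : IntermediateField.adjoin k S ≤ IntermediateField.adjoin k (insert u S) :=
          IntermediateField.adjoin.mono k _ _ (Set.subset_insert _ _)
        exact h1 z.2
      · rw [Set.mem_singleton_iff.mp hx]
        exact IntermediateField.subset_adjoin k _ (Set.mem_insert _ _)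
    exact hle hy
  · intro hy
    have hle : (IntermediateField.adjoin k (insert u S)).toSubfield ≤
        (IntermediateField.adjoin (IntermediateField.adjoin k S).toSubfield
          ({u} : Set K)).toSubfield := by
      rw [IntermediateField.adjoin_toSubfield, Subfield.closure_le]
      rintro x (⟨z, rfl⟩ | hx | hx)
      · exact (IntermediateField.adjoin (IntermediateField.adjoin k S).toSubfield
          ({u} : Set K)).algebraMap_mem
            ⟨algebraMap k K z, (IntermediateField.adjoin k S).algebraMap_mem z⟩
      · rw [hx]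
        exact IntermediateField.subset_adjoin _ _ (Set.mem_singleton _)
      · exact (IntermediateField.adjoin (IntermediateField.adjoin k S).toSubfield
          ({u} : Set K)).algebraMap_mem ⟨x, IntermediateField.subset_adjoin k _ hx⟩
    exact hle hy

/-- The residue field as an algebra over a subfield of `O`. -/
@[reducible]
noncomputable def resAlgF {O : ValuationSubring K} (F : Subfield K) (hF : ∀ y ∈ F, y ∈ O) :
    Algebra F (RF O) :=
  ((IsLocalRing.residue O).comp (F.subtype.codRestrict O.toSubring (fun x => hF x x.2))).toAlgebra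

lemma finrank_resAlgF {O : ValuationSubring K} (hk : Over k O) (S : Set K)
    (hF : ∀ y ∈ IntermediateField.adjoin k S, y ∈ O) :
    letI := resAlg hk
    letI := resAlgF (IntermediateField.adjoin k S).toSubfield hF
    finrank (IntermediateField.adjoin k S).toSubfield (RF O) =
      finrank (IntermediateField.adjoin k (rs O '' S)) (RF O) := by
  let := resAlg hk
  let := resAlgF (IntermediateField.adjoin k S).toSubfield hF
  let F := IntermediateField.adjoin k S
  let φ : F →ₐ[k] RF O :=
    { toFun := fun y => rs O (y : K)
      map_one' := rs_one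
      map_mul' := fun x y => rs_mul (hF _ x.2) (hF _ y.2)
      map_zero' := rs_zero
      map_add' := fun x y => rs_add (hF _ x.2) (hF _ y.2)
      commutes' := fun c => by
        change rs O (algebraMap k K c) = _
        rw [rs_of_mem (hk c)]
        rfl }
  have h1 : φ.fieldRange = IntermediateField.adjoin k (rs O '' S) := by
    have h2 : IntermediateField.adjoin k (F.val ⁻¹' S) = ⊤ := by
      apply IntermediateField.map_injective F.val
      rw [IntermediateField.adjoin_map]
      have h3 : F.val '' (F.val ⁻¹' S) = S := by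
        apply Set.image_preimage_eq_of_subset
        intro x hx
        exact ⟨⟨x, IntermediateField.subset_adjoin k _ hx⟩, rfl⟩
      rw [h3]
      change F = _
      ext x
      simp
    have h4 : φ '' (F.val ⁻¹' S) = rs O '' S := by
      ext y
      constructor
      · rintro ⟨z, hz, rfl⟩
        exact ⟨z, hz, rfl⟩
      · rintro ⟨z, hz, rfl⟩
        exact ⟨⟨z, IntermediateField.subset_adjoin k _ hz⟩, hz, rfl⟩
    rw [← h4, ← IntermediateField.adjoin_map, h2, ← AlgHom.fieldRange_eq_map]
  rw [← h1]
  let ε : F.toSubfield ≃+* φ.fieldRange :=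
    RingEquiv.ofBijective (φ.rangeRestrict.toRingHom : F →+* φ.fieldRange)
      ⟨fun a b hab => φ.toRingHom.injective (congrArg Subtype.val hab), fun y => by
        obtain ⟨z, hz⟩ := y.2
        exact ⟨z, Subtype.ext hz⟩⟩
  refine Algebra.finrank_eq_of_equiv_equiv ε (RingEquiv.refl (RF O)) ?_
  ext y
  change rs O (y : K) = IsLocalRing.residue O _
  rw [rs_of_mem (hF _ y.2)]
  rfl

end

end Pool.Agent.TH142.Recip
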