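import Mathlib
import Pool.Agent.TH142.Recip.Rec2

/-!
The recursion for the degree: the sum over the places above `u f = 0`.
-/

set_option linter.unusedSectionVars false
set_option maxHeartbeats 1000000

namespace Pool.Agent.TH142.Recip

open Module

open scoped IntermediateField.algebraAdjoinAdjoin

variable {k V E K : Type} [Field k] [AddCommGroup V] [Module k V] [FiniteDimensional k V]
  [Fintype E] [DecidableEq E] [Field K] [Algebra k K]

variable {ℓ : E → Dual k V}

/-- The `u i` with `i ≠ e, f`. -/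
def uu (P : Pt ℓ K) (e f : E) : {i : E // i ≠ e ∧ i ≠ f} → K := fun i => P.u i

lemma range_insert (P : Pt ℓ K) {e f : E} (hfe : f ≠ e) :
    Set.range (fun i : {i : E // i ≠ e} => P.u i) = insert (P.u f) (Set.range (uu P e f)) := by
  ext y
  constructor
  · rintro ⟨i, rfl⟩
    by_cases hi : (i : E) = f
    · left; simp only [hi]
    · right; exact ⟨⟨i, i.2, hi⟩, rfl⟩
  · rintro (rfl | ⟨i, rfl⟩)
    · exact ⟨⟨f, hfe⟩, rfl⟩
    · exact ⟨⟨i.1, i.2.1⟩, rfl⟩

lemma dg_eq (P : Pt ℓ K) {e f : E} (hfe : f ≠ e) :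
    dg P e = finrank (IntermediateField.adjoin
      (IntermediateField.adjoin k (Set.range (uu P e f))).toSubfield ({P.u f} : Set K)) K := by
  rw [dg, range_insert P hfe]
  apply finrank_congr
  intro y
  exact (adjoin_subfield_mem _ _ _).symm

lemma transcendental_up {S : Set K} {y : K} (h : Transcendental (Algebra.adjoin k S) y) :
    Transcendental (IntermediateField.adjoin k S).toSubfield y := by
  intro halg
  apply h
  have h1 : IsAlgebraic (IntermediateField.adjoin k S) y := halg
  exact h1.restrictScalars (Algebra.adjoin k S)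

lemma transcendental_down {S : Set K} {y : K}
    (h : Transcendental (IntermediateField.adjoin k S).toSubfield y) :
    Transcendental (Algebra.adjoin k S) y := by
  intro halg
  apply h
  have h1 : IsAlgebraic (IntermediateField.adjoin k S) y :=
    halg.extendScalars (FaithfulSMul.algebraMap_injective _ _)
  exact h1

theorem assemble [CharZero K] (P : Pt ℓ K) {e f : E} (hP : IsGen P e)
    (hs : Submodule.span k (Set.range ℓ) = ⊤) (hfe : f ≠ e) (loop : ℓ f ≠ 0)
    (coloop : ℓ f ∈ Submodule.span k (ℓ '' {i | i ≠ f})) (huf0 : P.u f ≠ 0)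
    (𝒞 : Finset (ValuationSubring K)) (ee ff : ValuationSubring K → ℕ)
    (hk : ∀ O ∈ 𝒞, Over k O)
    (hlt : ∀ O ∈ 𝒞, O.valuation (P.u f) < 1)
    (hmem : ∀ O ∈ 𝒞, ∀ i, uu P e f i ∈ O)
    (hind : ∀ (O) (hO : O ∈ 𝒞), ff O ≠ 0 →
      letI := resAlg (hk O hO)
      AlgebraicIndependent k (fun i => rs O (uu P e f i)))
    (hdeg : ∀ (O) (_ : O ∈ 𝒞)
      (hF : ∀ y ∈ IntermediateField.adjoin k (Set.range (uu P e f)), y ∈ O),
      letI := resAlgF (IntermediateField.adjoin k (Set.range (uu P e f))).toSubfield hF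
      finrank (IntermediateField.adjoin k (Set.range (uu P e f))).toSubfield (RF O) = ff O)
    (hunif : ∀ O ∈ 𝒞, ∃ g : K, O.valuation g < 1 ∧
      (∀ y, O.valuation y < 1 → O.valuation y ≤ O.valuation g) ∧
      O.valuation (P.u f) = O.valuation g ^ (ee O))
    (hall : ∀ O, Hyp P e f O → O ∈ 𝒞) :
    dg P e = ∑ O ∈ 𝒞, ee O * ff O := by
  classical
  set F₀ := IntermediateField.adjoin k (Set.range (uu P e f)) with hF₀
  have hsub : ∀ (O) (hO : O ∈ 𝒞), ff O ≠ 0 → ∀ y ∈ F₀, y ∈ O := by
    intro O hO hff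
    exact adjoin_le_of_res (hk O hO) (hmem O hO) (hind O hO hff)
  by_cases hI : AlgebraicIndependent k (fun i : {i : E // i ≠ e} => P.u i)
  · obtain ⟨hI1, hI2⟩ := (split_ind P.u hfe).mp hI
    have hfin := hP.finite hI
    have hdg := hP.dg_ne_zero hI
    rw [dg_eq P hfe] at hdg ⊢
    have hfin' : FiniteDimensional (IntermediateField.adjoin F₀.toSubfield ({P.u f} : Set K)) K :=
      Module.finite_of_finrank_pos (Nat.pos_of_ne_zero hdg)
    have htr : Transcendental F₀.toSubfield (P.u f) := transcendental_up hI2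
    have hcent : ∀ O, Cent F₀.toSubfield (P.u f) O → Hyp P e f O := by
      intro O hO
      have hkO : Over k O := fun c => hO.mem _ (F₀.algebraMap_mem c)
      refine ⟨hkO, hP.one, hfe, loop, coloop, hs, ?_, huf0, hO.lt, ?_⟩
      · intro i hie hif
        have h1 : P.u i ∈ F₀ := IntermediateField.subset_adjoin k _ ⟨⟨i, hie, hif⟩, rfl⟩
        have h2 : P.u i ≠ 0 := hI1.ne_zero ⟨i, hie, hif⟩
        exact hO.val_eq_one h1 h2
      · exact res_algInd hkO hI1 hO.mem
    let 𝒱 := 𝒞.filter (fun O => Cent F₀.toSubfield (P.u f) O)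
    have h𝒱 : ∀ O, O ∈ 𝒱 ↔ Cent F₀.toSubfield (P.u f) O := by
      intro O
      rw [Finset.mem_filter]
      exact ⟨fun h => h.2, fun h => ⟨hall O (hcent O h), h⟩⟩
    rw [count F₀.toSubfield (P.u f) htr 𝒱 h𝒱 ee ff]
    · apply Finset.sum_subset (Finset.filter_subset _ _)
      intro O hO hO'
      have : ff O = 0 := by
        by_contra hff
        apply hO'
        rw [h𝒱]
        exact ⟨hsub O hO hff, hlt O hO⟩
      rw [this, mul_zero]
    · intro O hO
      exact hunif O (Finset.mem_filter.mp hO).1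
    · intro O hO
      have hc := (h𝒱 O).mp hO
      have hO' := (Finset.mem_filter.mp hO).1
      refine ⟨RF O, inferInstance, resAlgF F₀.toSubfield hc.mem, IsLocalRing.residue O,
        IsLocalRing.residue_surjective, ?_, hdeg O hO' hc.mem⟩
      intro x hx
      rfl
  · have h0 : dg P e = 0 := by
      by_contra h
      exact hI (hP.algInd h)
    rw [h0, eq_comm]
    apply Finset.sum_eq_zero
    intro O hO
    have : ff O = 0 := by
      by_contra hff
      apply hI
      rw [split_ind P.u hfe]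
      refine ⟨algInd_of_res (hk O hO) (hmem O hO) (hind O hO hff), ?_⟩
      apply transcendental_down
      intro halg
      -- `u f` algebraic over `F₀ ⊆ O`, so its inverse lies in `O`
      have h1 : IsAlgebraic F₀.toSubfield (P.u f)⁻¹ := halg.inv
      have h2 := mem_of_isAlgebraic F₀.toSubfield (hsub O hO hff) h1
      rw [mem_iff, map_inv₀, inv_le_one₀ (zero_lt_iff.mpr ((_root_.map_ne_zero _).mpr huf0))] at h2
      exact absurd (hlt O hO) (not_lt.mpr h2)
    rw [this, mul_zero]

/-- A candidate for a place above `u f = 0`. -/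
structure Cand (P : Pt ℓ K) (e f : E) {V' E' : Type} [AddCommGroup V'] [Module k V']
    [FiniteDimensional k V'] [Fintype E'] [DecidableEq E'] {ℓ' : E' → Dual k V'}
    (Q : Pt ℓ' K) (e' : E') (g : K) (O : ValuationSubring K)
    (σ : {i : E // i ≠ e ∧ i ≠ f} ≃ {i : E' // i ≠ e'}) : Prop where
  ext : Ext Q e' g
  cent : Cent (fld Q).toSubfield g O
  comp : ∀ i, uu P e f i ∈ O ∧ rs O (uu P e f i) = rs O (Q.u (σ i))

section Cand

variable {P : Pt ℓ K} {e f : E} {V' E' : Type} [AddCommGroup V'] [Module k V']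
    [FiniteDimensional k V'] [Fintype E'] [DecidableEq E'] {ℓ' : E' → Dual k V'}
    {Q : Pt ℓ' K} {e' : E'} {g : K} {O : ValuationSubring K}
    {σ : {i : E // i ≠ e ∧ i ≠ f} ≃ {i : E' // i ≠ e'}}

lemma Cand.over (h : Cand P e f Q e' g O σ) : Over k O :=
  fun c => h.cent.mem _ ((fld Q).algebraMap_mem c)

lemma Cand.equiv (h : Cand P e f Q e' g O σ) :
    letI := resAlg h.over
    ∃ ε : fld Q ≃ₐ[k] RF O, ∀ y : fld Q, ε y = rs O (y : K) := by
  let := resAlg h.over
  have hF : ∀ y ∈ fld Q, y ∈ O := h.cent.mem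
  let φ : fld Q →ₐ[k] RF O :=
    { toFun := fun y => rs O (y : K)
      map_one' := rs_one
      map_mul' := fun x y => rs_mul (hF _ x.2) (hF _ y.2)
      map_zero' := rs_zero
      map_add' := fun x y => rs_add (hF _ x.2) (hF _ y.2)
      commutes' := fun c => by
        change rs O (algebraMap k K c) = _
        rw [rs_of_mem (h.over c)]
        rfl }
  have hb : Function.Bijective φ := by
    refine ⟨φ.toRingHom.injective, ?_⟩
    intro z
    obtain ⟨y, rfl⟩ := IsLocalRing.residue_surjective z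
    obtain ⟨a, ha, hay⟩ := h.cent.exists_res h.ext.g_ne h.ext.Gen y.2
    refine ⟨⟨a, ha⟩, ?_⟩
    have h1 : (y : K) = a + ((y : K) - a) := by ring
    have h2 : (y : K) - a ∈ O := mem_iff.mpr hay.le
    have h3 : rs O (y : K) = rs O a := by
      rw [h1, rs_add (hF a ha) h2, (rs_eq_zero h2).mpr hay, add_zero]
    change rs O a = IsLocalRing.residue O y
    rw [← h3, rs_of_mem y.2]
  exact ⟨AlgEquiv.ofBijective φ hb, fun y => rfl⟩

lemma Cand.rangeEq (h : Cand P e f Q e' g O σ) :
    rs O '' Set.range (uu P e f) = Set.range (fun i : {i : E' // i ≠ e'} => rs O (Q.u i)) := by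
  ext y
  constructor
  · rintro ⟨_, ⟨i, rfl⟩, rfl⟩
    exact ⟨σ i, (h.comp i).2.symm⟩
  · rintro ⟨i, rfl⟩
    refine ⟨_, ⟨σ.symm i, rfl⟩, ?_⟩
    rw [(h.comp _).2, Equiv.apply_symm_apply]

lemma Cand.deg (h : Cand P e f Q e' g O σ)
    (hF : ∀ y ∈ IntermediateField.adjoin k (Set.range (uu P e f)), y ∈ O) :
    letI := resAlgF (IntermediateField.adjoin k (Set.range (uu P e f))).toSubfield hF
    finrank (IntermediateField.adjoin k (Set.range (uu P e f))).toSubfield (RF O) =
      dg (Q.low h.ext.span) e' := by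
  let := resAlg h.over
  rw [finrank_resAlgF h.over _ hF, h.rangeEq]
  obtain ⟨ε, hε⟩ := h.equiv
  rw [dg, finrank_adjoin_equiv ε]
  have h1 : ε '' Set.range (fun i : {i : E' // i ≠ e'} => (Q.low h.ext.span).u i) =
      Set.range (fun i : {i : E' // i ≠ e'} => rs O (Q.u i)) := by
    rw [← Set.range_comp]
    congr 1
    funext i
    exact hε _
  rw [h1]

lemma Cand.ind (h : Cand P e f Q e' g O σ) (h0 : dg (Q.low h.ext.span) e' ≠ 0) :
    letI := resAlg h.over
    AlgebraicIndependent k (fun i => rs O (uu P e f i)) := by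
  let := resAlg h.over
  obtain ⟨ε, hε⟩ := h.equiv
  have h1 := h.ext.isGen.algInd h0
  have h2 := h1.map' (f := (ε : fld Q →ₐ[k] RF O)) ε.injective
  have h3 := h2.comp σ σ.injective
  have h4 : (fun i => rs O (uu P e f i)) =
      ((ε : fld Q →ₐ[k] RF O) ∘ fun i : {i : E' // i ≠ e'} => (Q.low h.ext.span).u i) ∘ σ := by
    funext i
    rw [(h.comp i).2]
    exact (hε ((Q.low h.ext.span).u (σ i))).symm
  rw [h4]
  exact h3

end Cand

end Pool.Agent.TH142.Recip
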