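import Mathlib
import Pool.Agent.TH142.Recip.Rec3

/-!
The recursion for the degree: the two places above `u f = 0`.
-/

set_option linter.unusedSectionVars false
set_option maxHeartbeats 1000000

namespace Pool.Agent.TH142.Recip

open Module

open scoped IntermediateField.algebraAdjoinAdjoin

variable {k V E K : Type} [Field k] [AddCommGroup V] [Module k V] [FiniteDimensional k V]
  [Fintype E] [DecidableEq E] [Field K] [Algebra k K]

variable {ℓ : E → Dual k V}

lemma exists_cent (F : Subfield K) (g : K) (h : Transcendental F g) :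
    ∃ O : ValuationSubring K, Cent F g O := by
  let A : Subring K := (Algebra.adjoin F {g}).toSubring
  let gg : A := ⟨g, Algebra.subset_adjoin rfl⟩
  have hI : Ideal.span {gg} ≠ ⊤ := by
    intro htop
    rw [Ideal.span_singleton_eq_top] at htop
    obtain ⟨b, hb⟩ := isUnit_iff_exists_inv.mp htop
    have hb2 : (b : K) ∈ Algebra.adjoin F {g} := b.2
    rw [Algebra.adjoin_singleton_eq_range_aeval] at hb2
    obtain ⟨p, hp⟩ := hb2
    have hp' : Polynomial.aeval g p = (b : K) := hp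
    have hb3 : g * (b : K) = 1 := congrArg Subtype.val hb
    apply h
    refine ⟨Polynomial.X * p - 1, ?_, ?_⟩
    · intro h0
      have := congrArg (fun q => Polynomial.coeff q 0) h0
      simp at this
    · rw [map_sub, map_mul, Polynomial.aeval_X, hp', map_one, hb3, sub_self]
  obtain ⟨O, hO1, hO2⟩ := Ideal.image_subset_nonunits_valuationSubring _ hI
  refine ⟨O, fun x hx => hO1 ((Algebra.adjoin F {g}).algebraMap_mem ⟨x, hx⟩), ?_⟩
  have h1 : g ∈ O.nonunits := hO2 ⟨gg, Ideal.subset_span rfl, rfl⟩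
  exact h1

section

variable {V' E' : Type} [AddCommGroup V'] [Module k V']
    [FiniteDimensional k V'] [Fintype E'] [DecidableEq E'] {ℓ' : E' → Dual k V'}
    {Q : Pt ℓ' K} {e' : E'} {g : K} {O : ValuationSubring K}

lemma cent_of (hext : Ext Q e' g) (hk : Over k O) (hlt : O.valuation g < 1)
    (hmem : ∀ i : {i // i ≠ e'}, Q.u i ∈ O)
    (hind : letI := resAlg hk;
      AlgebraicIndependent k (fun i : {i : E' // i ≠ e'} => rs O (Q.u i))) :
    Cent (fld Q).toSubfield g O := by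
  refine ⟨?_, hlt⟩
  have h1 := adjoin_le_of_res hk hmem hind
  have h2 := algInd_of_res hk hmem hind
  have h3 : AlgebraicIndependent k
      (fun i : {i : E' // i ≠ e'} => (Q.low hext.span).u i) := by
    have h4 : (fun i : {i : E' // i ≠ e'} => Q.u i) =
        (fld Q).val ∘ (fun i : {i : E' // i ≠ e'} => (Q.low hext.span).u i) := rfl
    rw [h4] at h2
    exact h2.of_comp _
  have h4 := hext.isGen.isAlgebraic h3
  intro y hy
  have h5 : (⟨y, hy⟩ : fld Q) ∈ O.comap (fld Q).val.toRingHom := by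
    refine mem_of_isAlgebraic (IntermediateField.adjoin k
      (Set.range (fun i : {i : E' // i ≠ e'} => (Q.low hext.span).u i))).toSubfield ?_
      (h4.isAlgebraic _)
    intro x hx
    rw [ValuationSubring.mem_comap]
    apply h1
    have h6 : (IntermediateField.adjoin k
      (Set.range (fun i : {i : E' // i ≠ e'} => (Q.low hext.span).u i))).map (fld Q).val =
      IntermediateField.adjoin k (Set.range (fun i : {i : E' // i ≠ e'} => Q.u i)) := by
      rw [IntermediateField.adjoin_map, ← Set.range_comp]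
      rfl
    rw [← h6]
    exact ⟨x, hx, rfl⟩
  exact h5

end

/-- The index bijection. -/
def sg {e f : E} (hfe : f ≠ e) :
    {i : E // i ≠ e ∧ i ≠ f} ≃ {i : {i : E // i ≠ f} // i ≠ ⟨e, hfe.symm⟩} where
  toFun := fun i => ⟨⟨i.1, i.2.2⟩, fun h => i.2.1 (congrArg Subtype.val h)⟩
  invFun := fun i => ⟨i.1.1, fun h => i.2 (Subtype.ext h), i.1.2⟩
  left_inv := fun _ => rfl
  right_inv := fun _ => rfl

section TypeI

lemma extI (P : Pt ℓ K) {e f : E} (hP : IsGen P e)
    (hs : Submodule.span k (Set.range ℓ) = ⊤) (hfe : f ≠ e)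
    (coloop : ℓ f ∈ Submodule.span k (ℓ '' {i | i ≠ f}))
    (r : E → k) (hr : ∑ i, r i • ℓ i = 0) (hrf : r f = 1) :
    Ext (P.del f r hr hrf) (⟨e, hfe.symm⟩ : {i : E // i ≠ f}) (P.w f) where
  span := span_del hs coloop
  one := hP.one
  gen := by
    rw [eq_top_iff, ← hP.gen, IntermediateField.adjoin_le_iff]
    set A := IntermediateField.adjoin k ((fld (P.del f r hr hrf) : Set K) ∪ {P.w f}) with hA
    have h1 : ∀ y ∈ fld (P.del f r hr hrf), y ∈ A := fun y hy =>
      IntermediateField.subset_adjoin k _ (Or.inl hy)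
    have h2 : P.w f ∈ A := IntermediateField.subset_adjoin k _ (Or.inr rfl)
    rintro _ (⟨i, rfl⟩ | ⟨i, rfl⟩)
    · exact h1 _ (fld_τ (P.del f r hr hrf) (span_del hs coloop) (ℓ i))
    · by_cases hi : i = f
      · rw [hi]; exact h2
      · have h3 : P.w i = (P.del f r hr hrf).w ⟨i, hi⟩ + r i • P.w f := by
          simp [Pt.del]
        rw [h3]
        exact add_mem (h1 _ (fld_w _ _)) (A.smul_mem h2)
  tr := by
    rw [hP.tr, card_sub]

variable {P : Pt ℓ K} {e f : E} {hfe : f ≠ e} {r : E → k} {hr : ∑ i, r i • ℓ i = 0}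
  {hrf : r f = 1} {O : ValuationSubring K}

/-- Congruence of the `u i`. -/
lemma compI (hk : Over k O) (hx : ∀ i, i ≠ f → P.x i ∈ O) (hw : O.valuation (P.w f) < 1)
    (i : {i : E // i ≠ e ∧ i ≠ f}) :
    (uu P e f i ∈ O ↔ (P.del f r hr hrf).u (sg hfe i) ∈ O) ∧
      (uu P e f i ∈ O → rs O (uu P e f i) = rs O ((P.del f r hr hrf).u (sg hfe i))) := by
  have h1 : uu P e f i = (P.del f r hr hrf).u (sg hfe i) + P.x i ^ 2 * (r i • P.w f) := by
    change P.x i ^ 2 * P.w i = P.x i ^ 2 * (P.w i - r i • P.w f) + _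
    ring
  have h2 : O.valuation (P.x i ^ 2 * (r i • P.w f)) < 1 := by
    rw [map_mul, map_pow]
    have h3 : O.valuation (P.x i) ^ 2 ≤ 1 := pow_le_one' (mem_iff.mp (hx i i.2.2)) 2
    exact (mul_le_of_le_one_left' h3).trans_lt ((hk.val_smul_le _ _).trans_lt hw)
  have h4 : P.x i ^ 2 * (r i • P.w f) ∈ O := mem_iff.mpr h2.le
  have h5 : uu P e f i ∈ O ↔ (P.del f r hr hrf).u (sg hfe i) ∈ O := by
    rw [h1]
    constructor
    · intro h
      have := sub_mem h h4
      rwa [add_sub_cancel_right] at this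
    · intro h
      exact O.add_mem _ _ h h4
  refine ⟨h5, fun h => ?_⟩
  rw [h1, rs_add (h5.mp h) h4, (rs_eq_zero h4).mpr h2, add_zero]

lemma candI (hext : Ext (P.del f r hr hrf) (⟨e, hfe.symm⟩ : {i : E // i ≠ f}) (P.w f))
    (hc : Cent (fld (P.del f r hr hrf)).toSubfield (P.w f) O) :
    Cand P e f (P.del f r hr hrf) ⟨e, hfe.symm⟩ (P.w f) O (sg hfe) := by
  refine ⟨hext, hc, fun i => ?_⟩
  have hk : Over k O := fun c => hc.mem _ ((fld _).algebraMap_mem c)
  have hx : ∀ i, i ≠ f → P.x i ∈ O := fun i hi =>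
    hc.mem _ (fld_x (P.del f r hr hrf) ⟨i, hi⟩)
  obtain ⟨h1, h2⟩ := compI (hfe := hfe) (r := r) (hr := hr) (hrf := hrf) hk hx hc.lt i
  have h3 : uu P e f i ∈ O := h1.mpr (hc.mem _ (by
    exact (fld (P.del f r hr hrf)).mul_mem (pow_mem (fld_x _ _) 2) (fld_w _ _)))
  exact ⟨h3, h2 h3⟩

lemma centI (hext : Ext (P.del f r hr hrf) (⟨e, hfe.symm⟩ : {i : E // i ≠ f}) (P.w f))
    (h : Hyp P e f O) (hw : O.valuation (P.w f) < 1) :
    Cent (fld (P.del f r hr hrf)).toSubfield (P.w f) O := by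
  have h0 := fun i => compI (hfe := hfe) (r := r) (hr := hr) (hrf := hrf) h.hk
    (fun i _ => h.x_mem i) hw i
  have hmem : ∀ i, uu P e f i ∈ O := fun i => mem_iff.mpr (h.u1 i i.2.1 i.2.2).le
  refine cent_of hext h.hk hw ?_ ?_
  · intro i
    obtain ⟨j, rfl⟩ := (sg hfe).surjective i
    exact (h0 j).1.mp (hmem j)
  · have h1 := h.res
    let := resAlg h.hk
    have h2 : (fun i : {i : E // i ≠ e ∧ i ≠ f} => rs O (P.u i)) =
        (fun i : {i : {i : E // i ≠ f} // i ≠ ⟨e, hfe.symm⟩} =>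
          rs O ((P.del f r hr hrf).u i)) ∘ (sg hfe) := by
      funext i
      exact (h0 i).2 (hmem i)
    rw [h2] at h1
    exact (algebraicIndependent_equiv (sg hfe)).mp h1

end TypeI

section TypeII

lemma extII (P : Pt ℓ K) {e f : E} (hP : IsGen P e)
    (hs : Submodule.span k (Set.range ℓ) = ⊤) (hfe : f ≠ e)
    (v₀ : V) (hv : ℓ f v₀ = 1) (hve : ℓ e v₀ = 0) :
    Ext (P.con f v₀ hv) (⟨e, hfe.symm⟩ : {i : E // i ≠ f}) (P.x f) where
  span := span_con hs
  one := by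
    have h1 := P.con_x f v₀ hv ⟨e, hfe.symm⟩
    rw [hve, zero_smul, sub_zero] at h1
    rw [← hP.one]
    exact h1
  gen := by
    rw [eq_top_iff, ← hP.gen, IntermediateField.adjoin_le_iff]
    set A := IntermediateField.adjoin k ((fld (P.con f v₀ hv) : Set K) ∪ {P.x f}) with hA
    have h1 : ∀ y ∈ fld (P.con f v₀ hv), y ∈ A := fun y hy =>
      IntermediateField.subset_adjoin k _ (Or.inl hy)
    have h2 : P.x f ∈ A := IntermediateField.subset_adjoin k _ (Or.inr rfl)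
    have hw : ∀ i, i ≠ f → P.w i ∈ A := fun i hi => h1 _ (fld_w (P.con f v₀ hv) ⟨i, hi⟩)
    rintro _ (⟨i, rfl⟩ | ⟨i, rfl⟩)
    · by_cases hi : i = f
      · rw [hi]; exact h2
      · have h3 := P.con_x f v₀ hv ⟨i, hi⟩
        rw [eq_sub_iff_add_eq] at h3
        rw [← h3]
        exact add_mem (h1 _ (fld_x _ _)) (A.smul_mem h2)
    · by_cases hi : i = f
      · rw [hi]
        have h3 := P.rel v₀
        rw [← Finset.add_sum_erase _ _ (Finset.mem_univ f), hv, one_smul,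
          ← eq_neg_iff_add_eq_zero] at h3
        rw [h3]
        exact neg_mem (sum_mem fun j hj => A.smul_mem (hw j (Finset.ne_of_mem_erase hj)))
      · exact hw i hi
  tr := by
    rw [hP.tr, card_sub]

variable {P : Pt ℓ K} {e f : E} {hfe : f ≠ e} {v₀ : V} {hv : ℓ f v₀ = 1}
  {O : ValuationSubring K}

lemma wf_mem : P.w f ∈ fld (P.con f v₀ hv) := by
  have h3 := P.rel v₀
  rw [← Finset.add_sum_erase _ _ (Finset.mem_univ f), hv, one_smul,
    ← eq_neg_iff_add_eq_zero] at h3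
  rw [h3]
  refine neg_mem (sum_mem fun j hj => IntermediateField.smul_mem _ ?_)
  exact fld_w (P.con f v₀ hv) ⟨j, Finset.ne_of_mem_erase hj⟩

/-- Congruence of the `u i`. -/
lemma compII (hk : Over k O) (hx : O.valuation (P.x f) < 1)
    (hxm : ∀ i, i ≠ f → P.x i ∈ O) (hwm : ∀ i, i ≠ f → i ≠ e → P.w i ∈ O)
    (i : {i : E // i ≠ e ∧ i ≠ f}) :
    uu P e f i ∈ O ∧ (P.con f v₀ hv).u (sg hfe i) ∈ O ∧
      rs O (uu P e f i) = rs O ((P.con f v₀ hv).u (sg hfe i)) := by
  have h1 : (P.con f v₀ hv).x (sg hfe i) = P.x i - ℓ i v₀ • P.x f :=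
    P.con_x f v₀ hv ⟨i, i.2.2⟩
  have h1' : P.x i = (P.con f v₀ hv).x (sg hfe i) + ℓ i v₀ • P.x f := by
    rw [h1]; ring
  have h2 : O.valuation (ℓ i v₀ • P.x f) < 1 := (hk.val_smul_le _ _).trans_lt hx
  have h3 : ℓ i v₀ • P.x f ∈ O := mem_iff.mpr h2.le
  have h4 : (P.con f v₀ hv).x (sg hfe i) ∈ O := by
    rw [h1]
    exact sub_mem (hxm i i.2.2) h3
  have h5 : rs O (P.x i) = rs O ((P.con f v₀ hv).x (sg hfe i)) := by
    rw [h1', rs_add h4 h3, (rs_eq_zero h3).mpr h2, add_zero]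
  have h6 : P.w i ∈ O := hwm i i.2.2 i.2.1
  refine ⟨O.mul_mem _ _ (pow_mem (hxm i i.2.2) 2) h6, O.mul_mem _ _ (pow_mem h4 2) h6, ?_⟩
  change rs O (P.x i ^ 2 * P.w i) = rs O ((P.con f v₀ hv).x (sg hfe i) ^ 2 * P.w i)
  rw [rs_mul (pow_mem (hxm i i.2.2) 2) h6, rs_mul (pow_mem h4 2) h6, rs_pow (hxm i i.2.2),
    rs_pow h4, h5]

lemma candII (hext : Ext (P.con f v₀ hv) (⟨e, hfe.symm⟩ : {i : E // i ≠ f}) (P.x f))
    (hc : Cent (fld (P.con f v₀ hv)).toSubfield (P.x f) O) :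
    Cand P e f (P.con f v₀ hv) ⟨e, hfe.symm⟩ (P.x f) O (sg hfe) := by
  refine ⟨hext, hc, fun i => ?_⟩
  have hk : Over k O := fun c => hc.mem _ ((fld _).algebraMap_mem c)
  have hx : ∀ i, i ≠ f → P.x i ∈ O := fun i hi => by
    have h3 := P.con_x f v₀ hv ⟨i, hi⟩
    rw [eq_sub_iff_add_eq] at h3
    rw [← h3]
    exact O.add_mem _ _ (hc.mem _ (fld_x _ _)) (hk.smul_mem _ (mem_iff.mpr hc.lt.le))
  have hw : ∀ i, i ≠ f → i ≠ e → P.w i ∈ O := fun i hi _ =>
    hc.mem _ (fld_w (P.con f v₀ hv) ⟨i, hi⟩)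
  obtain ⟨h1, h2, h3⟩ := compII (hfe := hfe) (v₀ := v₀) (hv := hv) hk hc.lt hx hw i
  exact ⟨h1, h3⟩

lemma centII (hext : Ext (P.con f v₀ hv) (⟨e, hfe.symm⟩ : {i : E // i ≠ f}) (P.x f))
    (h : Hyp P e f O) (hx : O.valuation (P.x f) < 1) :
    Cent (fld (P.con f v₀ hv)).toSubfield (P.x f) O := by
  have h0 := fun i => compII (hfe := hfe) (v₀ := v₀) (hv := hv) h.hk hx
    (fun i _ => h.x_mem i) (fun i _ _ => h.w_mem i) i
  refine cent_of hext h.hk hx ?_ ?_
  · intro i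
    obtain ⟨j, rfl⟩ := (sg hfe).surjective i
    exact (h0 j).2.1
  · have h1 := h.res
    let := resAlg h.hk
    have h2 : (fun i : {i : E // i ≠ e ∧ i ≠ f} => rs O (P.u i)) =
        (fun i : {i : {i : E // i ≠ f} // i ≠ ⟨e, hfe.symm⟩} =>
          rs O ((P.con f v₀ hv).u i)) ∘ (sg hfe) := by
      funext i
      exact (h0 i).2.2
    rw [h2] at h1
    exact (algebraicIndependent_equiv (sg hfe)).mp h1

end TypeII

end Pool.Agent.TH142.Recip
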