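import Mathlib
import Pool.Agent.TH142.Recip.Rec4
import Pool.Agent.TH142.Recip.Beta

/-!
The degree equals `2 ^ (dim V - 1) β`.
-/

set_option linter.unusedSectionVars false
set_option maxHeartbeats 1000000

namespace Pool.Agent.TH142.Recip

open Module

variable {k V E K : Type} [Field k] [AddCommGroup V] [Module k V] [FiniteDimensional k V]
  [Fintype E] [DecidableEq E] [Field K] [Algebra k K]

variable {ℓ : E → Dual k V}

lemma dg_zero_of_u {P : Pt ℓ K} {e f : E} (hP : IsGen P e) (hfe : f ≠ e) (hu : P.u f = 0) :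
    dg P e = 0 := by
  by_contra h
  exact (hP.algInd h).ne_zero ⟨f, hfe⟩ hu

lemma xf_mem_I {P : Pt ℓ K} {f : E} {r : E → k} {hr : ∑ i, r i • ℓ i = 0} {hrf : r f = 1}
    (hs : Submodule.span k (Set.range ℓ) = ⊤)
    (coloop : ℓ f ∈ Submodule.span k (ℓ '' {i | i ≠ f})) :
    P.x f ∈ fld (P.del f r hr hrf) :=
  fld_τ (P.del f r hr hrf) (span_del hs coloop) (ℓ f)

theorem rec_two [CharZero K] (P : Pt ℓ K) {e f : E} (hP : IsGen P e)
    (hs : Submodule.span k (Set.range ℓ) = ⊤) (hfe : f ≠ e) (loop : ℓ f ≠ 0)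
    (coloop : ℓ f ∈ Submodule.span k (ℓ '' {i | i ≠ f}))
    (r : E → k) (hr : ∑ i, r i • ℓ i = 0) (hrf : r f = 1)
    (v₀ : V) (hv : ℓ f v₀ = 1) (hve : ℓ e v₀ = 0) :
    dg P e = dg ((P.del f r hr hrf).low (span_del hs coloop)) ⟨e, hfe.symm⟩ +
      2 * dg ((P.con f v₀ hv).low (span_con hs)) ⟨e, hfe.symm⟩ := by
  classical
  have hI := extI P hP hs hfe coloop r hr hrf
  have hII := extII P hP hs hfe v₀ hv hve
  have hw0 := hI.g_ne
  have hx0 := hII.g_ne
  obtain ⟨O₁, hO₁⟩ := exists_cent (fld (P.del f r hr hrf)).toSubfield (P.w f) hI.step.1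
  obtain ⟨O₂, hO₂⟩ := exists_cent (fld (P.con f v₀ hv)).toSubfield (P.x f) hII.step.1
  have hx1 : O₁.valuation (P.x f) = 1 := hO₁.val_eq_one (xf_mem_I hs coloop) hx0
  have hw2 : O₂.valuation (P.w f) = 1 := hO₂.val_eq_one wf_mem hw0
  have hne : O₁ ≠ O₂ := by
    rintro rfl
    exact hO₂.lt.ne hx1
  have c1 := candI (hfe := hfe) hI hO₁
  have c2 := candII (hfe := hfe) hII hO₂
  have hu0 : P.u f ≠ 0 := mul_ne_zero (pow_ne_zero 2 hx0) hw0
  have hv1 : O₁.valuation (P.u f) = O₁.valuation (P.w f) ^ 1 := by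
    rw [Pt.u, map_mul, map_pow, hx1, one_pow, one_mul, pow_one]
  have hv2 : O₂.valuation (P.u f) = O₂.valuation (P.x f) ^ 2 := by
    rw [Pt.u, map_mul, map_pow, hw2, mul_one]
  have h := assemble P hP hs hfe loop coloop hu0 {O₁, O₂}
    (fun O => if O = O₁ then 1 else 2)
    (fun O => if O = O₁ then dg ((P.del f r hr hrf).low (span_del hs coloop)) ⟨e, hfe.symm⟩
      else dg ((P.con f v₀ hv).low (span_con hs)) ⟨e, hfe.symm⟩)
    ?_ ?_ ?_ ?_ ?_ ?_ ?_
  · rw [h, Finset.sum_pair hne]
    simp only [if_true, one_mul, if_neg hne.symm]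
  · intro O hO
    rw [Finset.mem_insert, Finset.mem_singleton] at hO
    rcases hO with rfl | rfl
    · exact c1.over
    · exact c2.over
  · intro O hO
    rw [Finset.mem_insert, Finset.mem_singleton] at hO
    rcases hO with rfl | rfl
    · rw [hv1, pow_one]; exact hO₁.lt
    · rw [hv2]; exact pow_lt_one₀ zero_le hO₂.lt two_ne_zero
  · intro O hO i
    rw [Finset.mem_insert, Finset.mem_singleton] at hO
    rcases hO with rfl | rfl
    · exact (c1.comp i).1
    · exact (c2.comp i).1
  · intro O hO hff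
    rw [Finset.mem_insert, Finset.mem_singleton] at hO
    rcases hO with rfl | rfl
    · rw [if_pos rfl] at hff
      exact c1.ind hff
    · rw [if_neg hne.symm] at hff
      exact c2.ind hff
  · intro O hO hF
    rw [Finset.mem_insert, Finset.mem_singleton] at hO
    rcases hO with rfl | rfl
    · rw [if_pos rfl]
      exact c1.deg hF
    · rw [if_neg hne.symm]
      exact c2.deg hF
  · intro O hO
    rw [Finset.mem_insert, Finset.mem_singleton] at hO
    rcases hO with rfl | rfl
    · refine ⟨P.w f, hO₁.lt, fun y hy => hO₁.le_of_lt_one hw0 hI.Gen hy, ?_⟩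
      rw [if_pos rfl]
      exact hv1
    · refine ⟨P.x f, hO₂.lt, fun y hy => hO₂.le_of_lt_one hx0 hII.Gen hy, ?_⟩
      rw [if_neg hne.symm]
      exact hv2
  · intro O hO
    rw [Finset.mem_insert, Finset.mem_singleton]
    rcases hO.or with hlt | hlt
    · left
      exact (centI (hfe := hfe) hI hO hlt).unique hw0 hI.Gen hO₁
    · right
      exact (centII (hfe := hfe) hII hO hlt).unique hx0 hII.Gen hO₂

theorem rec_one [CharZero K] (P : Pt ℓ K) {e f : E} (hP : IsGen P e)
    (hs : Submodule.span k (Set.range ℓ) = ⊤) (hfe : f ≠ e) (loop : ℓ f ≠ 0)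
    (coloop : ℓ f ∈ Submodule.span k (ℓ '' {i | i ≠ f}))
    (r : E → k) (hr : ∑ i, r i • ℓ i = 0) (hrf : r f = 1)
    (hpar : ∀ v, ℓ e v = 0 → ℓ f v = 0) :
    dg P e = dg ((P.del f r hr hrf).low (span_del hs coloop)) ⟨e, hfe.symm⟩ := by
  classical
  have hI := extI P hP hs hfe coloop r hr hrf
  have hw0 := hI.g_ne
  obtain ⟨O₁, hO₁⟩ := exists_cent (fld (P.del f r hr hrf)).toSubfield (P.w f) hI.step.1
  have c1 := candI (hfe := hfe) hI hO₁
  -- `x f` is a nonzero constant
  obtain ⟨c, hc, hxc⟩ : ∃ c : k, c ≠ 0 ∧ P.x f = algebraMap k K c := by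
    have h4 : ℓ f ∈ Submodule.span k (Set.range (fun _ : Unit => ℓ e)) := by
      apply mem_span_of_iInf_ker_le_ker
      intro v hv
      simp only [ciInf_unique, LinearMap.mem_ker] at hv
      exact hpar v hv
    rw [Set.range_const, Submodule.mem_span_singleton] at h4
    obtain ⟨a, ha⟩ := h4
    refine ⟨a, ?_, ?_⟩
    · rintro rfl
      rw [zero_smul] at ha
      exact loop ha.symm
    · rw [Pt.x, ← ha, map_smul, hP.one, Algebra.algebraMap_eq_smul_one]
  have hx1 : ∀ O : ValuationSubring K, Over k O → O.valuation (P.x f) = 1 := by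
    intro O hO
    rw [hxc]
    exact hO.val_eq hc
  have hu0 : P.u f ≠ 0 := by
    refine mul_ne_zero (pow_ne_zero 2 ?_) hw0
    rw [hxc]
    exact (_root_.map_ne_zero _).mpr hc
  have hv1 : O₁.valuation (P.u f) = O₁.valuation (P.w f) ^ 1 := by
    rw [Pt.u, map_mul, map_pow, hx1 _ c1.over, one_pow, one_mul, pow_one]
  have h := assemble P hP hs hfe loop coloop hu0 {O₁}
    (fun _ => 1)
    (fun _ => dg ((P.del f r hr hrf).low (span_del hs coloop)) ⟨e, hfe.symm⟩)
    ?_ ?_ ?_ ?_ ?_ ?_ ?_
  · rw [h, Finset.sum_singleton, one_mul]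
  · intro O hO
    rw [Finset.mem_singleton] at hO
    rw [hO]
    exact c1.over
  · intro O hO
    rw [Finset.mem_singleton] at hO
    rw [hO, hv1, pow_one]; exact hO₁.lt
  · intro O hO i
    rw [Finset.mem_singleton] at hO
    rw [hO]
    exact (c1.comp i).1
  · intro O hO hff
    rw [Finset.mem_singleton] at hO
    subst hO
    exact c1.ind hff
  · intro O hO hF
    rw [Finset.mem_singleton] at hO
    subst hO
    exact c1.deg hF
  · intro O hO
    rw [Finset.mem_singleton] at hO
    subst hO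
    exact ⟨P.w f, hO₁.lt, fun y hy => hO₁.le_of_lt_one hw0 hI.Gen hy, hv1⟩
  · intro O hO
    rw [Finset.mem_singleton]
    rcases hO.or with hlt | hlt
    · exact (centI (hfe := hfe) hI hO hlt).unique hw0 hI.Gen hO₁
    · exact absurd (hx1 O hO.hk) hlt.ne

theorem main_deg [CharZero k] (n : ℕ) : ∀ (E V K : Type) [AddCommGroup V] [Module k V]
    [FiniteDimensional k V] [Fintype E] [DecidableEq E] [Field K] [Algebra k K]
    (ℓ : E → Dual k V) (P : Pt ℓ K) (e : E), Fintype.card E = n →
    Submodule.span k (Set.range ℓ) = ⊤ → IsGen P e →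
    (dg P e : ℤ) * 2 = 2 ^ finrank k V * beta ℓ := by
  induction n using Nat.strong_induction_on with
  | _ n ih =>
  intro E V K _ _ _ _ _ _ _ ℓ P e hn hs hP
  have hK : CharZero K := charZero_of_injective_algebraMap (algebraMap k K).injective
  have he0 : ℓ e ≠ 0 := by
    intro h0
    have h1 := hP.one
    rw [h0, map_zero] at h1
    exact zero_ne_one h1
  by_cases hf : ∃ f, f ≠ e
  swap
  · -- one element
    push Not at hf
    have hrange : Set.range ℓ = {ℓ e} := by
      ext φ
      constructor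
      · rintro ⟨i, rfl⟩
        rw [hf i]; rfl
      · rintro rfl
        exact ⟨e, rfl⟩
    rw [beta_single ℓ he0 hf, mul_one]
    have h1 : finrank k V = 1 := by
      rw [← Subspace.dual_finrank_eq, ← finrank_top, ← hs, hrange, finrank_span_singleton he0]
    rw [h1, pow_one]
    have hw : P.w e = 0 := by
      obtain ⟨v, hv⟩ : ∃ v, ℓ e v ≠ 0 := by
        by_contra hcon
        push Not at hcon
        exact he0 (LinearMap.ext hcon)
      have h2 := P.rel v
      have h3 : (Finset.univ : Finset E) = {e} := by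
        ext i; simp [hf i]
      rw [h3, Finset.sum_singleton, smul_eq_zero] at h2
      exact h2.resolve_left hv
    have h2 : (⊥ : IntermediateField k K) = ⊤ := by
      rw [← hP.gen, eq_comm, eq_bot_iff, IntermediateField.adjoin_le_iff]
      rintro _ (⟨i, rfl⟩ | ⟨i, rfl⟩)
      · rw [hf i, Pt.x, hP.one]; exact one_mem _
      · rw [hf i, hw]; exact zero_mem _
    have h3 : dg P e = 1 := by
      have h4 : IntermediateField.adjoin k
          (Set.range (fun i : {i : E // i ≠ e} => P.u i)) = ⊤ := by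
        rw [eq_top_iff, ← h2]
        exact bot_le
      rw [dg, h4]
      exact IntermediateField.finrank_top
    rw [h3]
    norm_num
  obtain ⟨f, hfe⟩ := hf
  by_cases loop : ℓ f = 0
  · rw [beta_loop ℓ loop, mul_zero, dg_zero_of_u hP hfe]
    · simp
    · rw [Pt.u, Pt.x, loop, map_zero]; ring
  by_cases coloop : ℓ f ∈ Submodule.span k (ℓ '' {i | i ≠ f})
  swap
  · rw [beta_coloop ℓ hfe.symm coloop, mul_zero, dg_zero_of_u hP hfe]
    · simp
    · have hw : P.w f = 0 := by
        obtain ⟨v, hv1, hv2⟩ : ∃ v : V, ℓ f v ≠ 0 ∧ ∀ i, i ≠ f → ℓ i v = 0 := by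
          by_contra hcon
          push Not at hcon
          apply coloop
          have h3 : ℓ '' {i | i ≠ f} = Set.range (fun i : {i : E // i ≠ f} => ℓ i) := by
            ext φ
            constructor
            · rintro ⟨i, hi, rfl⟩
              exact ⟨⟨i, hi⟩, rfl⟩
            · rintro ⟨i, rfl⟩
              exact ⟨i, i.2, rfl⟩
          rw [h3]
          apply mem_span_of_iInf_ker_le_ker
          intro v hv
          rw [Submodule.mem_iInf] at hv
          rw [LinearMap.mem_ker]
          by_contra h0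
          obtain ⟨i, hi, hi2⟩ := hcon v h0
          exact hi2 (hv ⟨i, hi⟩)
        have h2 := P.rel v
        rw [← Finset.add_sum_erase _ _ (Finset.mem_univ f), Finset.sum_eq_zero, add_zero,
          smul_eq_zero] at h2
        · exact h2.resolve_left hv1
        · intro i hi
          rw [hv2 i (Finset.ne_of_mem_erase hi), zero_smul]
      rw [Pt.u, hw, mul_zero]
  -- a relation
  obtain ⟨r, hr, hrf⟩ : ∃ r : E → k, ∑ i, r i • ℓ i = 0 ∧ r f = 1 := by
    have h3 : ℓ '' {i | i ≠ f} = Set.range (fun i : {i : E // i ≠ f} => ℓ i) := by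
      ext φ
      constructor
      · rintro ⟨i, hi, rfl⟩
        exact ⟨⟨i, hi⟩, rfl⟩
      · rintro ⟨i, rfl⟩
        exact ⟨i, i.2, rfl⟩
    have h4 := coloop
    rw [h3, Submodule.mem_span_range_iff_exists_fun] at h4
    obtain ⟨c, hc⟩ := h4
    refine ⟨fun i => if h : i = f then 1 else - c ⟨i, h⟩, ?_, by simp⟩
    rw [← Finset.add_sum_erase _ _ (Finset.mem_univ f)]
    simp only [dif_pos, one_smul]
    rw [Finset.sum_subtype (Finset.univ.erase f) (p := fun i => i ≠ f) (by simp), ← hc,
      ← Finset.sum_add_distrib]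
    refine Finset.sum_eq_zero fun i _ => ?_
    rw [dif_neg i.2, ← add_smul, add_neg_cancel, zero_smul]
  have hcardlt : Fintype.card {i : E // i ≠ f} < n := hn ▸ card_sub_lt f
  have hI := extI P hP hs hfe coloop r hr hrf
  have ih1 := ih _ hcardlt {i : E // i ≠ f} V _ _ ((P.del f r hr hrf).low hI.span)
    ⟨e, hfe.symm⟩ rfl hI.span hI.isGen
  by_cases hpar : ∀ v, ℓ e v = 0 → ℓ f v = 0
  · rw [rec_one P hP hs hfe loop coloop r hr hrf hpar, ih1,
      beta_rec ℓ hfe.symm loop coloop]
    have h5 : beta (ctr ℓ f) = 0 := by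
      apply beta_loop (ctr ℓ f) (f := ⟨e, hfe.symm⟩)
      have h4 : ℓ f ∈ Submodule.span k (Set.range (fun _ : Unit => ℓ e)) := by
        apply mem_span_of_iInf_ker_le_ker
        intro v hv
        simp only [ciInf_unique, LinearMap.mem_ker] at hv
        exact hpar v hv
      rw [Set.range_const, Submodule.mem_span_singleton] at h4
      obtain ⟨a, ha⟩ := h4
      have ha0 : a ≠ 0 := by
        rintro rfl
        rw [zero_smul] at ha
        exact loop ha.symm
      ext v
      have hv : (a • ℓ e) (v : V) = 0 := (LinearMap.congr_fun ha (v : V)).trans v.2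
      rw [LinearMap.smul_apply, smul_eq_mul, mul_eq_zero] at hv
      exact hv.resolve_left ha0
    rw [h5, add_zero]
  · push Not at hpar
    obtain ⟨v₁, hv₁e, hv₁f⟩ := hpar
    obtain ⟨v₀, hv, hve⟩ : ∃ v₀ : V, ℓ f v₀ = 1 ∧ ℓ e v₀ = 0 := by
      refine ⟨(ℓ f v₁)⁻¹ • v₁, ?_, ?_⟩
      · rw [map_smul, smul_eq_mul, inv_mul_cancel₀ hv₁f]
      · rw [map_smul, hv₁e, smul_zero]
    have hII := extII P hP hs hfe v₀ hv hve
    have ih2 := ih _ hcardlt {i : E // i ≠ f} (LinearMap.ker (ℓ f)) _ (ctr ℓ f)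
      ((P.con f v₀ hv).low hII.span) ⟨e, hfe.symm⟩ rfl hII.span hII.isGen
    have hdim : finrank k (LinearMap.ker (ℓ f)) + 1 = finrank k V := by
      have h1 := LinearMap.finrank_range_add_finrank_ker (ℓ f)
      have h2 : LinearMap.range (ℓ f) = ⊤ := by
        rw [LinearMap.range_eq_top]
        exact LinearMap.surjective (fun h => loop h)
      rw [h2, finrank_top, finrank_self] at h1
      omega
    rw [rec_two P hP hs hfe loop coloop r hr hrf v₀ hv hve, beta_rec ℓ hfe.symm loop coloop]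
    push_cast
    rw [add_mul, ih1, mul_assoc, ih2, ← hdim, pow_succ]
    ring

end Pool.Agent.TH142.Recip
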