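import Mathlib
import Pool.Agent.TH142.Recip.Poly
import Pool.Agent.TH142.Recip.Rec5

/-!
The generic point, and the ideal of the conormal vectors.
-/

set_option linter.unusedSectionVars false
set_option maxHeartbeats 1000000

namespace Pool.Agent.TH142.Recip

open Module

variable {k V E K : Type} [Field k] [AddCommGroup V] [Module k V] [FiniteDimensional k V]
  [Fintype E] [DecidableEq E] [Field K] [Algebra k K]

variable {ℓ : E → Dual k V}

/-- Scaling in a homogeneous polynomial. -/
lemma aeval_scale {S : Type} [CommRing S] [Algebra k S] {φ : MvPolynomial E k} {n : ℕ}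
    (hφ : φ.IsHomogeneous n) (c : S) (u : E → S) :
    MvPolynomial.aeval (fun i => c * u i) φ = c ^ n * MvPolynomial.aeval u φ := by
  rw [MvPolynomial.aeval_def, MvPolynomial.aeval_def, MvPolynomial.eval₂_eq',
    MvPolynomial.eval₂_eq', Finset.mul_sum]
  refine Finset.sum_congr rfl fun d hd => ?_
  have h1 : ∏ i, (c * u i) ^ d i = c ^ n * ∏ i, u i ^ d i := by
    simp only [mul_pow, Finset.prod_mul_distrib]
    congr 1
    rw [Finset.prod_pow_eq_pow_sum]
    congr 1
    have h2 : d.degree = n := by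
      by_contra h3
      exact (MvPolynomial.mem_support_iff.mp hd) (hφ.coeff_eq_zero h3)
    rw [← h2, Finsupp.degree_eq_sum]
  rw [h1]
  ring

/-- The components of a polynomial vanishing on a cone vanish on the cone. -/
lemma comp_vanish [Infinite k] {Γ : Set (E → k)}
    (hΓ : ∀ u ∈ Γ, ∀ c : k, (fun i => c * u i) ∈ Γ) {Q : MvPolynomial E k}
    (hQ : ∀ u ∈ Γ, MvPolynomial.aeval u Q = 0) (n : ℕ) :
    ∀ u ∈ Γ, MvPolynomial.aeval u (MvPolynomial.homogeneousComponent n Q) = 0 := by
  intro u hu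
  let p : Polynomial k := ∑ j ∈ Finset.range (Q.totalDegree + 1),
    Polynomial.C (MvPolynomial.aeval u (MvPolynomial.homogeneousComponent j Q)) *
      Polynomial.X ^ j
  have hp : p = 0 := by
    apply Polynomial.funext
    intro c
    rw [Polynomial.eval_zero, ← hQ _ (hΓ u hu c)]
    conv_rhs => rw [← MvPolynomial.sum_homogeneousComponent Q]
    rw [map_sum, Polynomial.eval_finsetSum]
    refine Finset.sum_congr rfl fun j _ => ?_
    rw [aeval_scale (MvPolynomial.homogeneousComponent_isHomogeneous j Q), Polynomial.eval_mul,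
      Polynomial.eval_C, Polynomial.eval_pow, Polynomial.eval_X]
    exact mul_comm _ _
  by_cases hn : n ∈ Finset.range (Q.totalDegree + 1)
  · have h1 := congrArg (fun q => Polynomial.coeff q n) hp
    simp only [p, Polynomial.finsetSum_coeff, Polynomial.coeff_C_mul_X_pow,
      Polynomial.coeff_zero] at h1
    rw [Finset.sum_eq_single_of_mem n hn] at h1
    · simpa using h1
    · intro j _ hj
      rw [if_neg (Ne.symm hj)]
  · rw [Finset.mem_range, not_lt] at hn
    rw [MvPolynomial.homogeneousComponent_eq_zero _ _ (by omega), map_zero]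

/-- The conormal vectors at the points of the torus. -/
def Gam (ℓ : E → Dual k V) : Set (E → k) :=
  {u | ∃ (t : V) (w : E → k), (∀ i, ℓ i t ≠ 0) ∧ ∑ i, w i • ℓ i = 0 ∧
    ∀ i, u i = ℓ i t ^ 2 * w i}

lemma Gam_cone (u : E → k) (hu : u ∈ Gam ℓ) (c : k) : (fun i => c * u i) ∈ Gam ℓ := by
  obtain ⟨t, w, ht, hw, h⟩ := hu
  refine ⟨t, fun i => c * w i, ht, ?_, fun i => ?_⟩
  · simp only [mul_smul]
    rw [← Finset.smul_sum, hw, smul_zero]
  · change c * u i = ℓ i t ^ 2 * (c * w i)
    rw [h i]; ring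

/-- Rescaling of a point. -/
def Pt.scale (P : Pt ℓ K) (c : K) : Pt ℓ K where
  τ := (LinearMap.mulLeft k c⁻¹).comp P.τ
  w := fun i => c ^ 2 * P.w i
  rel := by
    intro v
    have h1 : ∑ i, ℓ i v • (c ^ 2 * P.w i) = c ^ 2 * ∑ i, ℓ i v • P.w i := by
      rw [Finset.mul_sum]
      exact Finset.sum_congr rfl fun i _ => (mul_smul_comm _ _ _).symm
    rw [h1, P.rel, mul_zero]

lemma Pt.scale_x (P : Pt ℓ K) (c : K) (i : E) : (P.scale c).x i = c⁻¹ * P.x i := rfl

lemma Pt.scale_u (P : Pt ℓ K) {c : K} (hc : c ≠ 0) (i : E) : (P.scale c).u i = P.u i := by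
  rw [Pt.u, Pt.scale_x]
  change (c⁻¹ * P.x i) ^ 2 * (c ^ 2 * P.w i) = P.x i ^ 2 * P.w i
  field_simp

section generic

variable (ℓ)

/-- The relations between the forms. -/
abbrev Rel : Submodule k (E → k) := LinearMap.ker (Fintype.linearCombination k ℓ)

lemma mem_Rel (w : E → k) : w ∈ Rel ℓ ↔ ∑ i, w i • ℓ i = 0 := by
  rw [LinearMap.mem_ker, Fintype.linearCombination_apply]

/-- The index type of the coordinates. -/
abbrev Ix : Type := Fin (finrank k V) ⊕ Fin (finrank k (Rel ℓ))

/-- The coordinate ring of `V × L^⊥`. -/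
abbrev CR : Type := MvPolynomial (Ix ℓ) k

/-- The generic value of a linear form. -/
noncomputable def gτ : Dual k V →ₗ[k] CR ℓ where
  toFun := fun φ => ∑ a, φ (finBasis k V a) • MvPolynomial.X (Sum.inl a)
  map_add' := by
    intro φ ψ
    rw [← Finset.sum_add_distrib]
    exact Finset.sum_congr rfl fun a _ => by rw [LinearMap.add_apply, add_smul]
  map_smul' := by
    intro c φ
    rw [Finset.smul_sum]
    exact Finset.sum_congr rfl fun a _ => by
      rw [LinearMap.smul_apply, smul_smul, smul_eq_mul, RingHom.id_apply]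

/-- The generic relation. -/
noncomputable def gw (i : E) : CR ℓ :=
  ∑ a, (finBasis k (Rel ℓ) a : E → k) i • MvPolynomial.X (Sum.inr a)

lemma gw_rel (v : V) : ∑ i, ℓ i v • gw ℓ i = 0 := by
  have h1 : ∑ i, ℓ i v • gw ℓ i = ∑ a, (∑ i, (finBasis k (Rel ℓ) a : E → k) i * ℓ i v) •
      (MvPolynomial.X (Sum.inr a) : CR ℓ) := by
    simp only [gw, Finset.smul_sum, Finset.sum_smul]
    rw [Finset.sum_comm]
    refine Finset.sum_congr rfl fun a _ => Finset.sum_congr rfl fun i _ => ?_
    rw [smul_smul, mul_comm]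
  rw [h1]
  refine Finset.sum_eq_zero fun a _ => ?_
  have h2 := (mem_Rel ℓ _).mp (finBasis k (Rel ℓ) a).2
  have h3 := LinearMap.congr_fun h2 v
  simp only [LinearMap.sum_apply, LinearMap.smul_apply, smul_eq_mul, LinearMap.zero_apply] at h3
  rw [h3, zero_smul]

/-- The point of evaluation. -/
noncomputable def evp (t : V) (w : Rel ℓ) : Ix ℓ → k :=
  Sum.elim (fun a => (finBasis k V).repr t a) (fun a => (finBasis k (Rel ℓ)).repr w a)

lemma ev_gτ (t : V) (w : Rel ℓ) (φ : Dual k V) :
    MvPolynomial.aeval (evp ℓ t w) (gτ ℓ φ) = φ t := by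
  change MvPolynomial.aeval (evp ℓ t w)
    (∑ a, φ (finBasis k V a) • (MvPolynomial.X (Sum.inl a) : CR ℓ)) = φ t
  rw [map_sum]
  conv_rhs => rw [← (finBasis k V).sum_repr t, map_sum]
  refine Finset.sum_congr rfl fun a _ => ?_
  rw [map_smul, map_smul, MvPolynomial.aeval_X, smul_eq_mul, smul_eq_mul, mul_comm]
  rfl

lemma ev_gw (t : V) (w : Rel ℓ) (i : E) :
    MvPolynomial.aeval (evp ℓ t w) (gw ℓ i) = (w : E → k) i := by
  rw [gw, map_sum]
  conv_rhs => rw [← (finBasis k (Rel ℓ)).sum_repr w]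
  rw [AddSubmonoidClass.coe_finsetSum, Finset.sum_apply]
  refine Finset.sum_congr rfl fun a _ => ?_
  rw [map_smul, MvPolynomial.aeval_X, smul_eq_mul, mul_comm]
  rfl

lemma exists_evp (p : Ix ℓ → k) : ∃ (t : V) (w : Rel ℓ), evp ℓ t w = p := by
  refine ⟨(finBasis k V).equivFun.symm (fun a => p (Sum.inl a)),
    (finBasis k (Rel ℓ)).equivFun.symm (fun a => p (Sum.inr a)), ?_⟩
  funext a
  rcases a with a | a
  · change (finBasis k V).equivFun ((finBasis k V).equivFun.symm (fun a => p (Sum.inl a))) a = _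
    rw [LinearEquiv.apply_symm_apply]
  · change (finBasis k (Rel ℓ)).equivFun
      ((finBasis k (Rel ℓ)).equivFun.symm (fun a => p (Sum.inr a))) a = _
    rw [LinearEquiv.apply_symm_apply]

/-- The generic conormal vector. -/
noncomputable def gu (i : E) : CR ℓ := gτ ℓ (ℓ i) ^ 2 * gw ℓ i

lemma gτ_ne {φ : Dual k V} (hφ : φ ≠ 0) : gτ ℓ φ ≠ 0 := by
  intro h
  apply hφ
  ext v
  have h1 := ev_gτ ℓ v 0 φ
  rw [h, map_zero] at h1
  rw [← h1, LinearMap.zero_apply]

lemma vanish_iff [Infinite k] (hℓ : ∀ i, ℓ i ≠ 0) (Q : MvPolynomial E k) :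
    (∀ u ∈ Gam ℓ, MvPolynomial.aeval u Q = 0) ↔ MvPolynomial.aeval (gu ℓ) Q = 0 := by
  have key : ∀ (t : V) (w : Rel ℓ), MvPolynomial.aeval (evp ℓ t w)
      (MvPolynomial.aeval (gu ℓ) Q) =
      MvPolynomial.aeval (fun i => ℓ i t ^ 2 * (w : E → k) i) Q := by
    intro t w
    rw [MvPolynomial.comp_aeval_apply]
    congr 2
    funext i
    rw [gu, map_mul, map_pow, ev_gτ, ev_gw]
  constructor
  · intro h
    have h1 : (∏ i, gτ ℓ (ℓ i)) * MvPolynomial.aeval (gu ℓ) Q = 0 := by
      apply MvPolynomial.funext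
      intro p
      obtain ⟨t, w, rfl⟩ := exists_evp ℓ p
      rw [map_zero]
      change MvPolynomial.eval (evp ℓ t w) _ = 0
      rw [← MvPolynomial.coe_aeval_eq_eval, RingHom.coe_coe, map_mul, map_prod]
      by_cases ht : ∀ i, ℓ i t ≠ 0
      · rw [key, h _ ⟨t, w, ht, (mem_Rel ℓ _).mp w.2, fun _ => rfl⟩, mul_zero]
      · push Not at ht
        obtain ⟨i, hi⟩ := ht
        rw [Finset.prod_eq_zero (Finset.mem_univ i), zero_mul]
        rw [ev_gτ, hi]
    rcases mul_eq_zero.mp h1 with h2 | h2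
    · exfalso
      obtain ⟨i, _, hi⟩ := Finset.prod_eq_zero_iff.mp h2
      exact gτ_ne ℓ (hℓ i) hi
    · exact h2
  · rintro h u ⟨t, w, ht, hw, hu⟩
    have h1 := key t ⟨w, (mem_Rel ℓ _).mpr hw⟩
    rw [h, map_zero] at h1
    rw [h1]
    congr 2
    funext i
    exact hu i

/-- The generic point over the fraction field. -/
noncomputable def gP : Pt ℓ (FractionRing (CR ℓ)) where
  τ := (Algebra.linearMap (CR ℓ) (FractionRing (CR ℓ))).restrictScalars k ∘ₗ gτ ℓ
  w := fun i => algebraMap (CR ℓ) _ (gw ℓ i)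
  rel := by
    intro v
    have h1 := congrArg (algebraMap (CR ℓ) (FractionRing (CR ℓ))) (gw_rel ℓ v)
    rw [map_sum, map_zero] at h1
    rw [← h1]
    refine Finset.sum_congr rfl fun i _ => ?_
    rw [Algebra.smul_def, Algebra.smul_def, map_mul]
    rfl

lemma gP_u (i : E) : (gP ℓ).u i = algebraMap (CR ℓ) _ (gu ℓ i) := by
  rw [gu, map_mul, map_pow]
  rfl

lemma gP_x (i : E) : (gP ℓ).x i = algebraMap (CR ℓ) _ (gτ ℓ (ℓ i)) := rfl

lemma card_Ix (hs : Submodule.span k (Set.range ℓ) = ⊤) :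
    Fintype.card (Ix ℓ) = Fintype.card E := by
  rw [Fintype.card_sum, Fintype.card_fin, Fintype.card_fin]
  have h1 := LinearMap.finrank_range_add_finrank_ker (K := k) (V := E → k)
    (V₂ := Dual k V) (Fintype.linearCombination k ℓ)
  rw [Fintype.range_linearCombination, hs, finrank_top, Subspace.dual_finrank_eq,
    Module.finrank_fintype_fun_eq_card] at h1
  exact h1

lemma frac_gen (A : IntermediateField k (FractionRing (CR ℓ)))
    (h : ∀ a, algebraMap (CR ℓ) (FractionRing (CR ℓ)) (MvPolynomial.X a) ∈ A) : A = ⊤ := by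
  rw [eq_top_iff]
  intro y _
  have h1 : ∀ p : CR ℓ, algebraMap (CR ℓ) (FractionRing (CR ℓ)) p ∈ A := by
    intro p
    induction p using MvPolynomial.induction_on with
    | C c =>
      have : algebraMap (CR ℓ) (FractionRing (CR ℓ)) (MvPolynomial.C c) =
          algebraMap k (FractionRing (CR ℓ)) c := by
        rw [← MvPolynomial.algebraMap_eq, ← IsScalarTower.algebraMap_apply]
      rw [this]
      exact A.algebraMap_mem c
    | add p q hp hq => rw [map_add]; exact add_mem hp hq
    | mul_X p i hp => rw [map_mul]; exact A.mul_mem hp (h i)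
  obtain ⟨p, q, hq, rfl⟩ := IsFractionRing.div_surjective (A := CR ℓ) y
  exact A.div_mem (h1 p) (h1 q)

lemma gP_ext (hs : Submodule.span k (Set.range ℓ) = ⊤) {e : E} (he : ℓ e ≠ 0) :
    Ext ((gP ℓ).scale ((gP ℓ).x e)) e ((gP ℓ).x e) := by
  have hxe : (gP ℓ).x e ≠ 0 := by
    rw [gP_x]
    exact (map_ne_zero_iff _ (IsFractionRing.injective (CR ℓ) _)).mpr (gτ_ne ℓ he)
  refine ⟨hs, ?_, ?_, ?_⟩
  · change ((gP ℓ).x e)⁻¹ * (gP ℓ).x e = 1
    exact inv_mul_cancel₀ hxe
  · set Q := (gP ℓ).scale ((gP ℓ).x e) with hQ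
    set A := IntermediateField.adjoin k ((fld Q : Set (FractionRing (CR ℓ))) ∪
      {(gP ℓ).x e}) with hA
    have h1 : ∀ y ∈ fld Q, y ∈ A := fun y hy =>
      IntermediateField.subset_adjoin k _ (Or.inl hy)
    have h2 : (gP ℓ).x e ∈ A := IntermediateField.subset_adjoin k _ (Or.inr rfl)
    have h3 : ∀ φ, algebraMap (CR ℓ) (FractionRing (CR ℓ)) (gτ ℓ φ) ∈ A := by
      intro φ
      have h4 : algebraMap (CR ℓ) (FractionRing (CR ℓ)) (gτ ℓ φ) = (gP ℓ).x e * Q.τ φ := by
        change _ = (gP ℓ).x e * (((gP ℓ).x e)⁻¹ * (gP ℓ).τ φ)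
        rw [mul_inv_cancel_left₀ hxe]
        rfl
      rw [h4]
      exact A.mul_mem h2 (h1 _ (fld_τ Q hs φ))
    have h5 : ∀ i, algebraMap (CR ℓ) (FractionRing (CR ℓ)) (gw ℓ i) ∈ A := by
      intro i
      have h6 : algebraMap (CR ℓ) (FractionRing (CR ℓ)) (gw ℓ i) =
          Q.w i / (gP ℓ).x e ^ 2 := by
        change _ = ((gP ℓ).x e ^ 2 * (gP ℓ).w i) / (gP ℓ).x e ^ 2
        rw [mul_div_cancel_left₀ _ (pow_ne_zero 2 hxe)]
        rfl
      rw [h6]
      exact A.div_mem (h1 _ (fld_w Q i)) (pow_mem h2 2)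
    apply frac_gen
    rintro (a | a)
    · have h7 : (MvPolynomial.X (Sum.inl a) : CR ℓ) = gτ ℓ ((finBasis k V).coord a) := by
        change _ = ∑ b, (finBasis k V).coord a (finBasis k V b) •
          (MvPolynomial.X (Sum.inl b) : CR ℓ)
        rw [Finset.sum_eq_single_of_mem a (Finset.mem_univ a)]
        · simp
        · intro b _ hb
          rw [Basis.coord_apply, Basis.repr_self, Finsupp.single_apply, if_neg hb, zero_smul]
      rw [h7]
      exact h3 _
    · -- a linear functional on `k^E` dual to the basis vector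
      obtain ⟨μ, hμ⟩ := LinearMap.dualMap_surjective_of_injective
        (Submodule.subtype_injective (Rel ℓ)) ((finBasis k (Rel ℓ)).coord a)
      have h8 : (MvPolynomial.X (Sum.inr a) : CR ℓ) = ∑ i, μ (Pi.single i 1) • gw ℓ i := by
        simp only [gw, Finset.smul_sum]
        rw [Finset.sum_comm]
        rw [Finset.sum_eq_single_of_mem a (Finset.mem_univ a)]
        all_goals
          have h9 : ∀ b, ∑ i, μ (Pi.single i 1) • ((finBasis k (Rel ℓ) b : E → k) i •
              (MvPolynomial.X (Sum.inr b) : CR ℓ)) =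
              (finBasis k (Rel ℓ)).coord a (finBasis k (Rel ℓ) b) •
                (MvPolynomial.X (Sum.inr b) : CR ℓ) := by
            intro b
            simp only [smul_smul]
            rw [← Finset.sum_smul]
            congr 1
            rw [← hμ]
            change _ = μ (finBasis k (Rel ℓ) b : E → k)
            conv_rhs => rw [pi_eq_sum_univ' (finBasis k (Rel ℓ) b : E → k), map_sum]
            refine Finset.sum_congr rfl fun i _ => ?_
            rw [map_smul, smul_eq_mul, mul_comm]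
        · rw [h9]; simp
        · intro b _ hb
          rw [h9, Basis.coord_apply, Basis.repr_self, Finsupp.single_apply, if_neg hb, zero_smul]
      rw [h8, map_sum]
      refine sum_mem fun i _ => ?_
      have h10 : algebraMap (CR ℓ) (FractionRing (CR ℓ)) (μ (Pi.single i 1) • gw ℓ i) =
          μ (Pi.single i 1) • algebraMap (CR ℓ) (FractionRing (CR ℓ)) (gw ℓ i) := by
        rw [Algebra.smul_def, Algebra.smul_def, map_mul]
        rfl
      rw [h10]
      exact A.smul_mem (h5 i)
  · have h1 : AlgebraicIndependent k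
        (fun a : Ix ℓ => algebraMap (CR ℓ) (FractionRing (CR ℓ)) (MvPolynomial.X a)) := by
      have h2 := (MvPolynomial.algebraicIndependent_X (Ix ℓ) k).map'
        (f := IsScalarTower.toAlgHom k (CR ℓ) (FractionRing (CR ℓ)))
        (IsFractionRing.injective (CR ℓ) (FractionRing (CR ℓ)))
      exact h2
    have h3 := h1.cardinalMk_le_trdeg
    rw [Cardinal.mk_fintype, card_Ix ℓ hs] at h3
    exact h3

end generic

/-- The ideal of the conormal vectors. -/
theorem gamma_ideal [CharZero k] (hs : Submodule.span k (Set.range ℓ) = ⊤)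
    (hℓ : ∀ i, ℓ i ≠ 0) (hβ : 1 ≤ beta ℓ) (e : E) :
    ∃ Δ : MvPolynomial E k, Irreducible Δ ∧ Δ.IsHomogeneous Δ.totalDegree ∧
      (Δ.totalDegree : ℤ) * 2 = 2 ^ finrank k V * beta ℓ ∧
      ∀ Q : MvPolynomial E k, (∀ u ∈ Gam ℓ, MvPolynomial.aeval u Q = 0) ↔ Δ ∣ Q := by
  have hE := gP_ext ℓ hs (hℓ e)
  set Q₀ := (gP ℓ).scale ((gP ℓ).x e) with hQ₀
  have hxe : (gP ℓ).x e ≠ 0 := hE.g_ne
  have hgen := hE.isGen
  have hdeg := main_deg (k := k) (Fintype.card E) E V (fld Q₀) ℓ (Q₀.low hE.span) e rfl hs hgen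
  have hdg0 : dg (Q₀.low hE.span) e ≠ 0 := by
    intro h0
    rw [h0] at hdeg
    have h1 : (0 : ℤ) < 2 ^ finrank k V * beta ℓ := by positivity
    rw [← hdeg] at h1
    simp at h1
  have hind := hgen.algInd hdg0
  obtain ⟨Δ, hΔp, hΔker, hmon, hnat⟩ := exists_delta (Q₀.low hE.span) hgen hind
  have hvan : ∀ Q : MvPolynomial E k, (∀ u ∈ Gam ℓ, MvPolynomial.aeval u Q = 0) ↔ Δ ∣ Q := by
    intro Q
    rw [vanish_iff ℓ hℓ, ← hΔker]
    have h1 : (fld Q₀).val (MvPolynomial.aeval (Q₀.low hE.span).u Q) =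
        algebraMap (CR ℓ) (FractionRing (CR ℓ)) (MvPolynomial.aeval (gu ℓ) Q) := by
      rw [MvPolynomial.comp_aeval_apply]
      have h2 : algebraMap (CR ℓ) (FractionRing (CR ℓ)) (MvPolynomial.aeval (gu ℓ) Q) =
          IsScalarTower.toAlgHom k (CR ℓ) (FractionRing (CR ℓ))
            (MvPolynomial.aeval (gu ℓ) Q) := rfl
      rw [h2, MvPolynomial.comp_aeval_apply]
      congr 2
      funext i
      change Q₀.u i = algebraMap (CR ℓ) (FractionRing (CR ℓ)) (gu ℓ i)
      rw [hQ₀, Pt.scale_u _ hxe, gP_u]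
    constructor
    · intro h
      rw [h, map_zero] at h1
      exact (map_eq_zero_iff _ (fld Q₀).val.toRingHom.injective).mp h1
    · intro h
      rw [h, map_zero] at h1
      exact (map_eq_zero_iff _ (IsFractionRing.injective (CR ℓ) (FractionRing (CR ℓ)))).mp h1.symm
  have hhom : Δ.IsHomogeneous Δ.totalDegree := by
    have h1 : ∀ n, n < Δ.totalDegree → MvPolynomial.homogeneousComponent n Δ = 0 := by
      intro n hn
      by_contra hne
      have h2 : Δ ∣ MvPolynomial.homogeneousComponent n Δ := by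
        rw [← hvan]
        exact comp_vanish (Gam_cone (ℓ := ℓ)) ((hvan Δ).mpr dvd_rfl) n
      have h3 := MvPolynomial.totalDegree_le_of_dvd_of_isDomain h2 hne
      have h4 := (MvPolynomial.homogeneousComponent_isHomogeneous n Δ).totalDegree_le
      omega
    have h2 := MvPolynomial.sum_homogeneousComponent Δ
    rw [Finset.sum_range_succ, Finset.sum_eq_zero, zero_add] at h2
    · rw [← h2]
      have h3 := MvPolynomial.homogeneousComponent_isHomogeneous Δ.totalDegree Δ
      rw [h2] at h3 ⊢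
      exact h3
    · intro n hn
      exact h1 n (Finset.mem_range.mp hn)
  refine ⟨Δ, hΔp.irreducible, hhom, ?_, hvan⟩
  -- the degree
  have h1 : (MvPolynomial.aeval
      (fun i : E => if i = e then (Polynomial.X : Polynomial k) else 0) Δ) =
      Polynomial.X ^ Δ.totalDegree * Polynomial.C
        (MvPolynomial.aeval (fun i : E => if i = e then (1 : k) else 0) Δ) := by
    have h2 : (fun i : E => if i = e then (Polynomial.X : Polynomial k) else 0) =
        fun i => Polynomial.X * (algebraMap k (Polynomial k)) (if i = e then (1 : k) else 0) := by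
      funext i
      by_cases hi : i = e
      · simp [hi]
      · simp [hi]
    rw [h2, aeval_scale hhom]
    congr 1
    exact MvPolynomial.aeval_algebraMap_apply (Polynomial k) (fun i : E => if i = e then (1 : k) else 0) Δ
  rw [h1] at hmon hnat
  have h2 : MvPolynomial.aeval (fun i : E => if i = e then (1 : k) else 0) Δ ≠ 0 := by
    intro h0
    rw [h0, Polynomial.C_0, mul_zero] at hmon
    exact Polynomial.not_monic_zero hmon
  rw [Polynomial.natDegree_mul_C h2, Polynomial.natDegree_X_pow] at hnat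
  rw [hnat]
  exact hdeg

end Pool.Agent.TH142.Recip
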