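import Mathlib
import Pool.Agent.TH142.Recip.Point

/-!
Tangent hyperplanes of the reciprocal linear space.
-/

set_option linter.unusedSectionVars false
set_option maxHeartbeats 1000000

namespace Pool.Agent.TH142.Recip

open Module

variable {V E : Type} [AddCommGroup V] [Module ℂ V] [FiniteDimensional ℂ V]
  [Fintype E] [DecidableEq E]

variable (ℓ : E → Dual ℂ V)

/-- The points with coordinates `1 / ℓ i (t)`. -/
def Rp : Set (E → ℂ) := {y | ∃ t : V, (∀ i, ℓ i t ≠ 0) ∧ ∀ i, y i = (ℓ i t)⁻¹}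

/-- The ideal of the reciprocal linear space. -/
noncomputable abbrev RI : Ideal (MvPolynomial E ℂ) := MvPolynomial.vanishingIdeal ℂ (Rp ℓ)

variable {ℓ}

/-- The differential of a polynomial at the point `y`. -/
noncomputable def gD (y : E → ℂ) : MvPolynomial E ℂ →ₗ[ℂ] Dual ℂ (E → ℂ) where
  toFun := fun P => ∑ i, MvPolynomial.aeval y (MvPolynomial.pderiv i P) • LinearMap.proj i
  map_add' := by
    intro P Q
    rw [← Finset.sum_add_distrib]
    exact Finset.sum_congr rfl fun i _ => by rw [map_add, map_add, add_smul]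
  map_smul' := by
    intro c P
    rw [Finset.smul_sum]
    exact Finset.sum_congr rfl fun i _ => by
      rw [Derivation.map_smul, map_smul, smul_smul, smul_eq_mul, RingHom.id_apply]

lemma gD_apply (y : E → ℂ) (P : MvPolynomial E ℂ) (v : E → ℂ) :
    gD y P v = ∑ i, MvPolynomial.aeval y (MvPolynomial.pderiv i P) * v i := by
  change (∑ i, MvPolynomial.aeval y (MvPolynomial.pderiv i P) •
    (LinearMap.proj i : (E → ℂ) →ₗ[ℂ] ℂ)) v = _
  rw [LinearMap.sum_apply]
  rfl

lemma gD_C (y : E → ℂ) (c : ℂ) (v : E → ℂ) : gD y (MvPolynomial.C c) v = 0 := by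
  rw [gD_apply]
  exact Finset.sum_eq_zero fun i _ => by rw [MvPolynomial.pderiv_C, map_zero, zero_mul]

lemma gD_X (y : E → ℂ) (j : E) (v : E → ℂ) : gD y (MvPolynomial.X j) v = v j := by
  rw [gD_apply, Finset.sum_eq_single_of_mem j (Finset.mem_univ j)]
  · rw [MvPolynomial.pderiv_X_self, map_one, one_mul]
  · intro i _ hi
    rw [MvPolynomial.pderiv_X_of_ne (Ne.symm hi), map_zero, zero_mul]

lemma gD_mul (y : E → ℂ) (P Q : MvPolynomial E ℂ) (v : E → ℂ) :
    gD y (P * Q) v = MvPolynomial.aeval y P * gD y Q v + MvPolynomial.aeval y Q * gD y P v := by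
  rw [gD_apply, gD_apply, gD_apply, Finset.mul_sum, Finset.mul_sum, ← Finset.sum_add_distrib]
  refine Finset.sum_congr rfl fun i _ => ?_
  rw [Derivation.leibniz, smul_eq_mul, smul_eq_mul, map_add, map_mul, map_mul]
  ring

lemma gD_prod (y : E → ℂ) (hy : ∀ i, y i ≠ 0) (s : Finset E) (v : E → ℂ) :
    gD y (∏ j ∈ s, MvPolynomial.X j) v = (∏ j ∈ s, y j) * ∑ j ∈ s, v j / y j := by
  induction s using Finset.induction_on with
  | empty =>
    rw [Finset.prod_empty, ← MvPolynomial.C_1, gD_C]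
    simp
  | insert a s ha ih =>
    rw [Finset.prod_insert ha, gD_mul, ih, gD_X, Finset.prod_insert ha, Finset.sum_insert ha,
      map_prod, MvPolynomial.aeval_X]
    simp only [MvPolynomial.aeval_X]
    have := hy a
    field_simp
    ring

/-- The derivative of a polynomial along a curve. -/
lemma hasDeriv (γ : ℂ → E → ℂ) (v : E → ℂ) (hγ : ∀ i, HasDerivAt (fun s => γ s i) (v i) 0)
    (P : MvPolynomial E ℂ) :
    HasDerivAt (fun s => MvPolynomial.aeval (γ s) P) (gD (γ 0) P v) 0 := by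
  induction P using MvPolynomial.induction_on with
  | C c =>
    rw [gD_C]
    simp only [MvPolynomial.aeval_C]
    exact hasDerivAt_const _ _
  | add P Q hP hQ =>
    rw [map_add, LinearMap.add_apply]
    simp only [map_add]
    exact hP.add hQ
  | mul_X P i hP =>
    rw [gD_mul, gD_X, MvPolynomial.aeval_X]
    simp only [map_mul, MvPolynomial.aeval_X]
    have h1 := hP.mul (hγ i)
    convert! h1 using 1
    ring

/-- The differentials of the equations at `y`. -/
noncomputable def WD (ℓ : E → Dual ℂ V) (y : E → ℂ) : Submodule ℂ (Dual ℂ (E → ℂ)) :=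
  ((RI ℓ).restrictScalars ℂ).map (gD y)

/-- The tangent space at `y`. -/
noncomputable def Tan (ℓ : E → Dual ℂ V) (y : E → ℂ) : Submodule ℂ (E → ℂ) :=
  (WD ℓ y).dualCoannihilator

lemma mem_Tan {y v : E → ℂ} : v ∈ Tan ℓ y ↔
    ∀ P ∈ RI ℓ, ∑ i, MvPolynomial.aeval y (MvPolynomial.pderiv i P) * v i = 0 := by
  rw [Tan, Submodule.mem_dualCoannihilator]
  constructor
  · intro h P hP
    rw [← gD_apply]
    exact h _ ⟨P, hP, rfl⟩
  · rintro h _ ⟨P, hP, rfl⟩
    rw [gD_apply]
    exact h P hP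

lemma finrank_Tan (y : E → ℂ) :
    finrank ℂ (WD ℓ y) + finrank ℂ (Tan ℓ y) = Fintype.card E := by
  rw [Tan, Subspace.finrank_add_finrank_dualCoannihilator_eq, Module.finrank_fintype_fun_eq_card]

/-- The linear parametrisation of the tangent space at a point of the torus. -/
noncomputable def par (ℓ : E → Dual ℂ V) (y : E → ℂ) : V →ₗ[ℂ] (E → ℂ) :=
  LinearMap.pi fun i => (y i ^ 2) • ℓ i

lemma par_apply (y : E → ℂ) (t : V) (i : E) : par ℓ y t i = y i ^ 2 * ℓ i t := rfl

lemma par_mem {y : E → ℂ} {t : V} (ht : ∀ i, ℓ i t ≠ 0) (hy : ∀ i, y i = (ℓ i t)⁻¹) (t' : V) :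
    par ℓ y t' ∈ Tan ℓ y := by
  rw [mem_Tan]
  intro P hP
  rw [← gD_apply]
  let γ : ℂ → E → ℂ := fun s i => (ℓ i (t - s • t'))⁻¹
  have hγ0 : γ 0 = y := by
    funext i
    simp only [γ, zero_smul, sub_zero]
    exact (hy i).symm
  have hγ : ∀ i, HasDerivAt (fun s => γ s i) (par ℓ y t' i) 0 := by
    intro i
    have h1 : HasDerivAt (fun s : ℂ => ℓ i (t - s • t')) (- ℓ i t') 0 := by
      have h2 : (fun s : ℂ => ℓ i (t - s • t')) = fun s : ℂ => ℓ i t - s * ℓ i t' := by
        funext s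
        rw [map_sub, map_smul, smul_eq_mul]
      rw [h2]
      have h3 := ((hasDerivAt_id (0 : ℂ)).mul_const (ℓ i t')).const_sub (ℓ i t)
      rw [one_mul] at h3
      exact h3
    have h4 : ℓ i (t - (0 : ℂ) • t') ≠ 0 := by
      rw [zero_smul, sub_zero]; exact ht i
    have h5 := h1.inv h4
    rw [par_apply, hy i]
    convert! h5 using 1
    rw [zero_smul, sub_zero, neg_neg, inv_pow]
    rw [div_eq_mul_inv, mul_comm]
  have h1 := hasDeriv γ (par ℓ y t') hγ P
  rw [hγ0] at h1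
  have h2 : (fun s => MvPolynomial.aeval (γ s) P) =ᶠ[nhds 0] fun _ => (0 : ℂ) := by
    have h3 : ∀ᶠ s in nhds (0 : ℂ), ∀ i, ℓ i (t - s • t') ≠ 0 := by
      rw [Filter.eventually_all]
      intro i
      have h4 : Continuous (fun s : ℂ => ℓ i (t - s • t')) := by
        have h5 : (fun s : ℂ => ℓ i (t - s • t')) = fun s : ℂ => ℓ i t - s * ℓ i t' := by
          funext s
          rw [map_sub, map_smul, smul_eq_mul]
        rw [h5]
        fun_prop
      apply h4.continuousAt.eventually_ne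
      rw [zero_smul, sub_zero]
      exact ht i
    filter_upwards [h3] with s hs
    exact hP (γ s) ⟨t - s • t', hs, fun i => rfl⟩
  have h3 := h1.congr_of_eventuallyEq h2.symm
  exact h3.unique (hasDerivAt_const _ _)

lemma Tan_eq {y : E → ℂ} {t : V} (ht : ∀ i, ℓ i t ≠ 0) (hy : ∀ i, y i = (ℓ i t)⁻¹) :
    Tan ℓ y = LinearMap.range (par ℓ y) := by
  apply le_antisymm
  · intro v hv
    have hy0 : ∀ i, y i ≠ 0 := fun i => by rw [hy i]; exact inv_ne_zero (ht i)
    by_contra hcon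
    obtain ⟨g, hg1, hg2⟩ := Submodule.exists_le_ker_of_notMem hcon
    -- the coefficients of `g`
    let c : E → ℂ := fun i => g (Pi.single i 1)
    have hgc : ∀ x : E → ℂ, g x = ∑ i, c i * x i := by
      intro x
      conv_lhs => rw [pi_eq_sum_univ' x, map_sum]
      refine Finset.sum_congr rfl fun i _ => ?_
      rw [map_smul, smul_eq_mul, mul_comm]
    -- the circuit polynomial
    let a : E → ℂ := fun i => c i * y i ^ 2
    have ha : ∀ s : V, ∑ i, a i * ℓ i s = 0 := by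
      intro s
      have h1 : g (par ℓ y s) = 0 := hg2 ⟨s, rfl⟩
      rw [hgc] at h1
      rw [← h1]
      exact Finset.sum_congr rfl fun i _ => by rw [par_apply]; ring
    let Q : MvPolynomial E ℂ := ∑ i, MvPolynomial.C (a i) *
      ∏ j ∈ Finset.univ.erase i, MvPolynomial.X j
    have hprod : ∀ z : E → ℂ, (∀ i, z i ≠ 0) → ∀ i, ∏ j ∈ Finset.univ.erase i, z j =
        (∏ j, z j) / z i := by
      intro z hz i
      rw [← Finset.mul_prod_erase _ _ (Finset.mem_univ i), mul_div_cancel_left₀ _ (hz i)]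
    have hQ : Q ∈ RI ℓ := by
      rintro z ⟨s, hs, hz⟩
      have hz0 : ∀ i, z i ≠ 0 := fun i => by rw [hz i]; exact inv_ne_zero (hs i)
      simp only [Q, map_sum, map_mul, map_prod, MvPolynomial.aeval_C, MvPolynomial.aeval_X,
        Algebra.algebraMap_self, RingHom.id_apply]
      have h1 : ∀ i, a i * ∏ j ∈ Finset.univ.erase i, z j = (∏ j, z j) * (a i * ℓ i s) := by
        intro i
        rw [hprod z hz0, hz i]
        have := hs i
        field_simp
      rw [Finset.sum_congr rfl fun i _ => h1 i, ← Finset.mul_sum, ha, mul_zero]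
    have h1 := mem_Tan.mp hv Q hQ
    rw [← gD_apply] at h1
    have hpr : ∏ j, y j ≠ 0 := Finset.prod_ne_zero_iff.mpr fun i _ => hy0 i
    have h2 : gD y Q v = - (∏ j, y j) * ∑ i, a i * (v i / y i ^ 2) := by
      simp only [Q]
      rw [map_sum, LinearMap.sum_apply]
      have h3 : ∀ i, gD y (MvPolynomial.C (a i) *
          ∏ j ∈ Finset.univ.erase i, MvPolynomial.X j) v =
          (∏ j, y j) * (∑ j, v j / y j) * (a i * ℓ i t) -
            (∏ j, y j) * (a i * (v i / y i ^ 2)) := by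
        intro i
        rw [gD_mul, gD_C, mul_zero, add_zero, gD_prod y hy0, hprod y hy0, MvPolynomial.aeval_C,
          ← Finset.add_sum_erase _ (fun j => v j / y j) (Finset.mem_univ i), hy i,
          Algebra.algebraMap_self, RingHom.id_apply]
        have := ht i
        field_simp
        ring
      rw [Finset.sum_congr rfl fun i _ => h3 i, Finset.sum_sub_distrib, ← Finset.mul_sum, ha,
        ← Finset.mul_sum]
      ring
    rw [h2, mul_eq_zero, neg_eq_zero] at h1
    have h3 := h1.resolve_left hpr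
    apply hg1
    rw [hgc, ← h3]
    refine Finset.sum_congr rfl fun i _ => ?_
    have := hy0 i
    simp only [a]
    field_simp
  · rintro _ ⟨t', rfl⟩
    exact par_mem ht hy t'

lemma par_inj (hs : Submodule.span ℂ (Set.range ℓ) = ⊤) {y : E → ℂ} (hy0 : ∀ i, y i ≠ 0) :
    Function.Injective (par ℓ y) := by
  rw [injective_iff_map_eq_zero]
  intro t ht
  have h1 : ∀ i, ℓ i t = 0 := by
    intro i
    have h2 := congrFun ht i
    rw [par_apply, Pi.zero_apply, mul_eq_zero] at h2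
    exact h2.resolve_left (pow_ne_zero 2 (hy0 i))
  have h2 : ∀ φ : Dual ℂ V, φ t = 0 := by
    intro φ
    have h3 : φ ∈ Submodule.span ℂ (Set.range ℓ) := by rw [hs]; trivial
    induction h3 using Submodule.span_induction with
    | mem x hx => obtain ⟨i, rfl⟩ := hx; exact h1 i
    | zero => rfl
    | add x y _ _ hx hy => rw [LinearMap.add_apply, hx, hy, add_zero]
    | smul a x _ hx => rw [LinearMap.smul_apply, hx, smul_zero]
  exact (Module.forall_dual_apply_eq_zero_iff ℂ t).mp h2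

lemma finrank_Tan_torus (hs : Submodule.span ℂ (Set.range ℓ) = ⊤) {y : E → ℂ} (hy : y ∈ Rp ℓ) :
    finrank ℂ (Tan ℓ y) = finrank ℂ V := by
  obtain ⟨t, ht, hy⟩ := hy
  have hy0 : ∀ i, y i ≠ 0 := fun i => by rw [hy i]; exact inv_ne_zero (ht i)
  rw [Tan_eq ht hy]
  exact LinearMap.finrank_range_of_inj (par_inj hs hy0)

/-- The dimension of the tangent space is at least `dim V` at every point of the cone. -/
lemma finrank_Tan_ge (hs : Submodule.span ℂ (Set.range ℓ) = ⊤) {y : E → ℂ}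
    (hy : y ∈ MvPolynomial.zeroLocus ℂ (RI ℓ)) :
    finrank ℂ V ≤ finrank ℂ (Tan ℓ y) := by
  set b := finBasis ℂ (WD ℓ y) with hb
  set m := finrank ℂ (WD ℓ y) with hm
  have h1 : ∀ j : Fin m, ∃ P ∈ RI ℓ, gD y P = (b j : Dual ℂ (E → ℂ)) := fun j => by
    obtain ⟨P, hP, hP2⟩ := (b j).2
    exact ⟨P, hP, hP2⟩
  choose P hP hP2 using h1
  have h2 : ∀ j : Fin m, ∃ v : E → ℂ, ∀ φ : WD ℓ y, (φ : Dual ℂ (E → ℂ)) v = b.coord j φ := by
    intro j
    obtain ⟨g, hg⟩ := LinearMap.exists_extend (b.coord j)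
    refine ⟨(Module.evalEquiv ℂ (E → ℂ)).symm g, fun φ => ?_⟩
    rw [← hg]
    have h3 : Module.evalEquiv ℂ (E → ℂ) ((Module.evalEquiv ℂ (E → ℂ)).symm g) = g :=
      LinearEquiv.apply_symm_apply _ _
    have h4 := LinearMap.congr_fun h3 (φ : Dual ℂ (E → ℂ))
    exact h4
  choose v hv using h2
  let M : Matrix (Fin m) (Fin m) (MvPolynomial E ℂ) := fun j l =>
    ∑ i, MvPolynomial.pderiv i (P j) * MvPolynomial.C (v l i)
  have hM : ∀ z : E → ℂ, MvPolynomial.aeval z M.det =
      Matrix.det (fun j l => gD z (P j) (v l) : Matrix (Fin m) (Fin m) ℂ) := by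
    intro z
    rw [AlgHom.map_det]
    congr 1
    ext j l
    rw [AlgHom.mapMatrix_apply, Matrix.map_apply, gD_apply, map_sum]
    refine Finset.sum_congr rfl fun i _ => ?_
    rw [map_mul, MvPolynomial.aeval_C]
    rfl
  have h3 : MvPolynomial.aeval y M.det = 1 := by
    rw [hM, ← Matrix.det_one (n := Fin m) (R := ℂ)]
    congr 1
    ext j l
    rw [hP2, hv, Basis.coord_apply, Basis.repr_self, Finsupp.single_apply, Matrix.one_apply]
  have h4 : M.det ∉ RI ℓ := by
    intro h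
    have := hy _ h
    rw [h3] at this
    exact one_ne_zero this
  rw [MvPolynomial.mem_vanishingIdeal_iff] at h4
  push Not at h4
  obtain ⟨z, hz, hz2⟩ := h4
  rw [hM] at hz2
  have h5 : LinearIndependent ℂ (fun j : Fin m =>
      (⟨gD z (P j), ⟨P j, hP j, rfl⟩⟩ : WD ℓ z)) := by
    rw [Fintype.linearIndependent_iff]
    intro a ha
    have h6 : Matrix.vecMul a (fun j l => gD z (P j) (v l) : Matrix (Fin m) (Fin m) ℂ) = 0 := by
      funext l
      have h7 := congrArg (fun φ : WD ℓ z => (φ : Dual ℂ (E → ℂ)) (v l)) ha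
      simp only [AddSubmonoidClass.coe_finsetSum, LinearMap.sum_apply, Submodule.coe_smul,
        LinearMap.smul_apply, smul_eq_mul, Submodule.coe_zero, LinearMap.zero_apply] at h7
      exact h7
    exact fun j => congrFun (Matrix.eq_zero_of_vecMul_eq_zero hz2 h6) j
  have h6 := h5.fintype_card_le_finrank
  rw [Fintype.card_fin] at h6
  have h7 := finrank_Tan (ℓ := ℓ) y
  have h8 := finrank_Tan (ℓ := ℓ) z
  have h9 := finrank_Tan_torus hs hz
  omega

/-- Every hyperplane containing the tangent space at `y` is the differential of an equation. -/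
lemma exists_grad {y u : E → ℂ} (hu : ∀ v ∈ Tan ℓ y, ∑ i, u i * v i = 0) :
    ∃ P ∈ RI ℓ, ∀ i, u i = MvPolynomial.aeval y (MvPolynomial.pderiv i P) := by
  let φ : Dual ℂ (E → ℂ) := ∑ i, u i • LinearMap.proj i
  have hφ : ∀ v, φ v = ∑ i, u i * v i := by
    intro v
    simp only [φ, LinearMap.sum_apply, LinearMap.smul_apply, LinearMap.proj_apply, smul_eq_mul]
  have h1 : φ ∈ (Tan ℓ y).dualAnnihilator := by
    rw [Submodule.mem_dualAnnihilator]
    intro v hv
    rw [hφ]
    exact hu v hv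
  rw [Tan, Subspace.dualCoannihilator_dualAnnihilator_eq] at h1
  obtain ⟨P, hP, hP2⟩ := h1
  refine ⟨P, hP, fun i => ?_⟩
  have h2 := LinearMap.congr_fun hP2 (Pi.single i 1)
  rw [gD_apply, hφ] at h2
  simpa [Pi.single_apply] using h2.symm

/-- At a point of the torus the conormal vectors are `ℓ i (t) ^ 2 w i`. -/
lemma grad_mem_Gam {z u : E → ℂ} (hz : z ∈ Rp ℓ) (hu : ∀ v ∈ Tan ℓ z, ∑ i, u i * v i = 0) :
    u ∈ Gam ℓ := by
  obtain ⟨t, ht, hz⟩ := hz
  have hz0 : ∀ i, z i ≠ 0 := fun i => by rw [hz i]; exact inv_ne_zero (ht i)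
  refine ⟨t, fun i => u i * z i ^ 2, ht, ?_, fun i => ?_⟩
  · ext s
    have h1 := hu _ (par_mem ht hz s)
    rw [LinearMap.zero_apply, ← h1, LinearMap.sum_apply]
    refine Finset.sum_congr rfl fun i _ => ?_
    rw [LinearMap.smul_apply, par_apply, smul_eq_mul]
    ring
  · change u i = ℓ i t ^ 2 * (u i * z i ^ 2)
    rw [hz i]
    have := ht i
    field_simp

/-- The hyperplanes tangent at a smooth point. -/
def TH (ℓ : E → Dual ℂ V) : Set (E → ℂ) :=
  {u | ∃ y, y ∈ MvPolynomial.zeroLocus ℂ (RI ℓ) ∧ y ≠ 0 ∧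
    (∀ y' ∈ MvPolynomial.zeroLocus ℂ (RI ℓ), finrank ℂ (Tan ℓ y) ≤ finrank ℂ (Tan ℓ y')) ∧
    ∀ v ∈ Tan ℓ y, ∑ i, u i * v i = 0}

lemma Gam_sub (hs : Submodule.span ℂ (Set.range ℓ) = ⊤) (e : E) : Gam ℓ ⊆ TH ℓ := by
  rintro u ⟨t, w, ht, hw, hu⟩
  let y : E → ℂ := fun i => (ℓ i t)⁻¹
  have hy : y ∈ Rp ℓ := ⟨t, ht, fun _ => rfl⟩
  refine ⟨y, fun P hP => hP y hy, ?_, ?_, ?_⟩
  · intro h0
    have h1 := congrFun h0 e
    exact inv_ne_zero (ht e) h1
  · intro y' hy'
    rw [finrank_Tan_torus hs hy]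
    exact finrank_Tan_ge hs hy'
  · rw [Tan_eq ht (fun _ => rfl)]
    rintro _ ⟨s, rfl⟩
    have h1 := LinearMap.congr_fun hw s
    rw [LinearMap.sum_apply, LinearMap.zero_apply] at h1
    rw [← h1]
    refine Finset.sum_congr rfl fun i _ => ?_
    change u i * ((ℓ i t)⁻¹ ^ 2 * ℓ i s) = _
    rw [LinearMap.smul_apply, smul_eq_mul, hu i]
    have := ht i
    field_simp

lemma vanish_TH {Q : MvPolynomial E ℂ} (hQ : ∀ u ∈ Gam ℓ, MvPolynomial.aeval u Q = 0) :
    ∀ u ∈ TH ℓ, MvPolynomial.aeval u Q = 0 := by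
  rintro u ⟨y, hy, _, _, hu⟩
  obtain ⟨P, hP, hPu⟩ := exists_grad hu
  let R : MvPolynomial E ℂ := MvPolynomial.aeval (fun i => MvPolynomial.pderiv i P) Q
  have hR : ∀ z : E → ℂ, MvPolynomial.aeval z R =
      MvPolynomial.aeval (fun i => MvPolynomial.aeval z (MvPolynomial.pderiv i P)) Q := by
    intro z
    simp only [R]
    rw [MvPolynomial.comp_aeval_apply]
  have hRI : R ∈ RI ℓ := by
    intro z hz
    rw [hR]
    apply hQ
    apply grad_mem_Gam hz
    intro v hv
    exact mem_Tan.mp hv P hP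
  have h1 := hy R hRI
  rw [hR] at h1
  rw [← h1]
  congr 2
  funext i
  exact hPu i

theorem TH_iff (hs : Submodule.span ℂ (Set.range ℓ) = ⊤) (e : E) (Q : MvPolynomial E ℂ) :
    (∀ u ∈ TH ℓ, MvPolynomial.aeval u Q = 0) ↔ (∀ u ∈ Gam ℓ, MvPolynomial.aeval u Q = 0) :=
  ⟨fun h u hu => h u (Gam_sub hs e hu), vanish_TH⟩

/-- The main theorem: the ideal of the dual variety. -/
theorem main (hs : Submodule.span ℂ (Set.range ℓ) = ⊤) (hconn : Conn ℓ)
    (hℓ : ∀ i, ℓ i ≠ 0) (e : E) :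
    ∃ Δ : MvPolynomial E ℂ, Irreducible Δ ∧ Δ.IsHomogeneous Δ.totalDegree ∧
      (Δ.totalDegree : ℤ) * 2 = 2 ^ finrank ℂ V * beta ℓ ∧
      MvPolynomial.vanishingIdeal ℂ (TH ℓ) = Ideal.span {Δ} := by
  obtain ⟨Δ, h1, h2, h3, h4⟩ := gamma_ideal hs hℓ (beta_pos hconn hℓ e) e
  refine ⟨Δ, h1, h2, h3, ?_⟩
  ext Q
  rw [MvPolynomial.mem_vanishingIdeal_iff, TH_iff hs e, h4, Ideal.mem_span_singleton]

end Pool.Agent.TH142.Recip
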